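import Pool.Agent.Lib.MP_a4c1f4_lc.SQ.Spec

set_option autoImplicit false
set_option linter.all false

/-!
Online matching on the line, ratio `O(sqrt (log n))`: the core `SO.Core` from the statements of the
analysis (note 5105).
-/

namespace Pool.Agent.MP_a4c1f4_lc.SQ.CoM

open Finset
open Pool.Agent.MP_a4c1f4_lc.SQ
open Pool.Agent.MP_a4c1f4_lc.SO (fl mvN)

/-- A state as it occurs in a run. -/
def Gd (N : ℕ) (c : ℕ → ℝ) (b ε : ℝ) (σ : St) : Prop :=
  Inv N c b ε σ ∧ ∀ k, σ.F k ≤ b + ∑ x ∈ range (N + 1), c x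

lemma us_sum (σ : St) (n : ℕ) :
    ∑ x ∈ range n, us σ x = ∑ x ∈ range n, σ.r x + σ.f 0 - σ.f n := by
  induction n with
  | zero => simp
  | succ n ih =>
    rw [sum_range_succ, sum_range_succ, ih]
    unfold us
    ring

lemma flow_bd {N : ℕ} {c : ℕ → ℝ} {b ε : ℝ} {σ : St} (hI : Inv N c b ε σ) (hc : ∀ x, 0 ≤ c x)
    (k : ℕ) : |σ.f k| ≤ ∑ x ∈ range (N + 1), c x := by
  by_cases hk : N < k
  · rw [hI.fN k hk, abs_zero]
    exact sum_nonneg (fun x _ => hc x)
  · have hk' : k ≤ N := by omega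
    have h1 := us_sum σ k
    have h2 := us_sum σ (N + 1)
    rw [hI.f0] at h1 h2
    rw [hI.fN (N + 1) (by omega)] at h2
    have hsub : range k ⊆ range (N + 1) := by
      intro x hx
      rw [mem_range] at hx ⊢
      omega
    have h3 : ∑ x ∈ range k, us σ x ≤ ∑ x ∈ range (N + 1), us σ x :=
      sum_le_sum_of_subset_of_nonneg hsub
        (fun x hx _ => hI.u0 x (by rw [mem_range] at hx; omega))
    have h4 : ∑ x ∈ range k, σ.r x ≤ ∑ x ∈ range (N + 1), σ.r x :=
      sum_le_sum_of_subset_of_nonneg hsub (fun x _ _ => hI.r0 x)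
    have h5 : ∑ x ∈ range (N + 1), us σ x ≤ ∑ x ∈ range (N + 1), c x :=
      sum_le_sum (fun x hx => hI.cap x (by rw [mem_range] at hx; omega))
    have h6 : 0 ≤ ∑ x ∈ range k, us σ x :=
      sum_nonneg (fun x hx => hI.u0 x (by rw [mem_range] at hx; omega))
    have h7 : 0 ≤ ∑ x ∈ range k, σ.r x := sum_nonneg (fun x _ => hI.r0 x)
    rw [abs_le]
    constructor <;> linarith

lemma gd_step (hAb : S_Ab) (hIn : S_In) {N : ℕ} {c : ℕ → ℝ} {D : ℕ} {b ε : ℝ} {L : ℕ} {σ : St}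
    {v : ℕ} {s : ℝ} {σ' : St} (hb : 0 < b) (hs : 0 ≤ s) (hsε : s ≤ ε) (hv : v ≤ N)
    (hc : ∀ x, 0 ≤ c x) (hG : Gd N c b ε σ) (hst : Stp N c D b L σ v s σ') :
    Gd N c b ε σ' := by
  have hI' := hIn.1 N c D b ε L σ v s σ' hb hs hsε hv hG.1 hst
  refine ⟨hI', fun k => ?_⟩
  have hA := hAb N c D b ε L σ v s σ' hb hs hv hG.1 hst
  rw [hA.hF k]
  refine max_le (hG.2 k) ?_
  have := flow_bd hI' hc k
  linarith

lemma gd_ini {N : ℕ} {c : ℕ → ℝ} {b ε : ℝ} (hb : 0 < b) (hε : 0 < ε) (hc : ∀ x, 0 ≤ c x) :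
    Gd N c b ε (SQ.ini b) := by
  have hε' : 0 ≤ ε / b := (div_pos hε hb).le
  refine ⟨⟨rfl, fun _ _ => rfl, fun x _ => ?_, fun x _ => ?_, fun _ => le_refl _, fun _ => le_refl _,
    fun _ _ _ => rfl, fun k _ _ => ?_, fun _ => le_refl _, fun k => ?_⟩, fun k => ?_⟩
  · simp only [us, SQ.ini]
    have := hc x
    linarith
  · simp only [us, SQ.ini]
    norm_num
  · simp only [SQ.sl, SQ.ini]
    rw [sub_zero, abs_zero]
    linarith
  · simp only [SQ.ini]
    rw [abs_zero]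
    exact hb.le
  · simp only [SQ.ini]
    have : 0 ≤ ∑ x ∈ range (N + 1), c x := sum_nonneg (fun x _ => hc x)
    linarith

/-- The state `σ` is reached with the movement `m`. -/
inductive Pth (N : ℕ) (c : ℕ → ℝ) (D : ℕ) (b ε : ℝ) (L : ℕ) : St → ℝ → Prop
  | ini : Pth N c D b ε L (SQ.ini b) 0
  | step (σ : St) (m : ℝ) (v : ℕ) (s : ℝ) (σ' : St) : Pth N c D b ε L σ m → 0 ≤ s → s ≤ ε → v ≤ N →
      Stp N c D b L σ v s σ' → Pth N c D b ε L σ' (m + mo N σ σ')

lemma pth_gd (hAb : S_Ab) (hIn : S_In) {N : ℕ} {c : ℕ → ℝ} {D : ℕ} {b ε : ℝ} {L : ℕ} (hb : 0 < b)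
    (hε : 0 < ε) (hc : ∀ x, 0 ≤ c x) {σ : St} {m : ℝ} (h : Pth N c D b ε L σ m) :
    Gd N c b ε σ := by
  induction h with
  | ini => exact gd_ini hb hε hc
  | step σ m v s σ' _ hs hsε hv hst ih => exact gd_step hAb hIn hb hs hsε hv hc ih hst

lemma pth_run (hAb : S_Ab) (hIn : S_In) {N : ℕ} {c : ℕ → ℝ} {D : ℕ} {b ε : ℝ} {L : ℕ} (hb : 0 < b)
    (hε : 0 < ε) (hε1 : ε ≤ b / 512) (hc : ∀ x, 0 ≤ c x)
    (hL : b + ∑ x ∈ range (N + 1), c x < b * 64 ^ L) {σ : St} {m : ℝ}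
    (h : Pth N c D b ε L σ m) :
    ∃ (M : ℕ) (σs : ℕ → St) (v : ℕ → ℕ) (s : ℕ → ℝ), Rn N c D b ε L M σs v s ∧ σs M = σ ∧
      ∑ t ∈ range M, mo N (σs t) (σs (t + 1)) = m := by
  induction h with
  | ini =>
    refine ⟨0, fun _ => SQ.ini b, fun _ => 0, fun _ => 0, ⟨hb, hε, hε1, hc, rfl, ?_, ?_, ?_, ?_⟩,
      rfl, by simp⟩
    · intro t ht; omega
    · intro t ht; omega
    · intro t ht; omega
    · intro t ht k
      exact lt_of_le_of_lt ((gd_ini hb hε hc).2 k) hL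
  | step σ m v s σ' hP hs hsε hv hst ih =>
    obtain ⟨M, σs, vs, ss, hR, hM, hsum⟩ := ih
    have hG : Gd N c b ε σ' :=
      gd_step hAb hIn hb hs hsε hv hc (pth_gd hAb hIn hb hε hc hP) hst
    refine ⟨M + 1, fun t => if t ≤ M then σs t else σ', fun t => if t < M then vs t else v,
      fun t => if t < M then ss t else s, ⟨hb, hε, hε1, hc, ?_, ?_, ?_, ?_, ?_⟩, ?_, ?_⟩
    · simp only [Nat.zero_le, if_true]
      exact hR.ini
    · intro t ht
      by_cases h1 : t < M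
      · rw [if_pos h1]
        exact hR.hs t h1
      · rw [if_neg h1]
        exact ⟨hs, hsε⟩
    · intro t ht
      by_cases h1 : t < M
      · rw [if_pos h1]
        exact hR.hv t h1
      · rw [if_neg h1]
        exact hv
    · intro t ht
      by_cases h1 : t < M
      · rw [if_pos h1, if_pos h1, if_pos h1.le, if_pos (by omega : t + 1 ≤ M)]
        exact hR.step t h1
      · have h2 : t = M := by omega
        subst h2
        rw [if_neg h1, if_neg h1, if_pos le_rfl, if_neg (by omega : ¬ (t + 1 ≤ t)), hM]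
        exact hst
    · intro t ht k
      by_cases h1 : t ≤ M
      · rw [if_pos h1]
        exact hR.top t h1 k
      · rw [if_neg h1]
        exact lt_of_le_of_lt (hG.2 k) hL
    · dsimp only
      rw [if_neg (by omega : ¬ (M + 1 ≤ M))]
    · rw [sum_range_succ]
      dsimp only
      rw [if_pos le_rfl, if_neg (by omega : ¬ (M + 1 ≤ M)), hM, ← hsum]
      congr 1
      refine sum_congr rfl (fun t ht => ?_)
      rw [mem_range] at ht
      rw [if_pos ht.le, if_pos (by omega : t + 1 ≤ M)]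

/-- The state `σ'` is reached from `σ` by steps for the node `v` of total mass `1`. -/
def Sq (N : ℕ) (c : ℕ → ℝ) (D : ℕ) (b ε : ℝ) (L : ℕ) (σ : St) (v : ℕ) (σ' : St) : Prop :=
  ∃ (M : ℕ) (σs : ℕ → St) (s : ℕ → ℝ), σs 0 = σ ∧ σs M = σ' ∧ (∀ t, t < M → 0 ≤ s t ∧ s t ≤ ε ∧
    Stp N c D b L (σs t) v (s t) (σs (t + 1))) ∧ ∑ t ∈ range M, s t = 1

lemma sq_pth (hAb : S_Ab) (hIn : S_In) (hMc : S_Mc) {N : ℕ} {c : ℕ → ℝ} {D : ℕ} {b ε : ℝ} {L : ℕ}
    (hb : 0 < b) (hε : 0 < ε) (hc : ∀ x, 0 ≤ c x) {σ : St} {v : ℕ} {σ' : St} {m : ℝ} (hv : v ≤ N)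
    (h : Sq N c D b ε L σ v σ') (hP : Pth N c D b ε L σ m) :
    Pth N c D b ε L σ' (m + ∑ x ∈ range (N + 1), (us σ' x - us σ x) * |(x : ℝ) - (v : ℝ)|) ∧
    (∀ x, σ'.r x = σ.r x + if x = v then 1 else 0) ∧ ∀ x, x ≤ N → us σ x ≤ us σ' x := by
  obtain ⟨M, σs, s, h0, hM, hst, hsum⟩ := h
  have key : ∀ t, t ≤ M →
      Pth N c D b ε L (σs t)
        (m + ∑ x ∈ range (N + 1), (us (σs t) x - us σ x) * |(x : ℝ) - (v : ℝ)|) ∧
      (∀ x, (σs t).r x = σ.r x + if x = v then ∑ i ∈ range t, s i else 0) ∧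
      ∀ x, x ≤ N → us σ x ≤ us (σs t) x := by
    intro t
    induction t with
    | zero =>
      intro _
      rw [h0]
      refine ⟨?_, ?_, fun x _ => le_refl _⟩
      · simpa using hP
      · intro x
        simp
    | succ t ih =>
      intro ht
      obtain ⟨ih1, ih2, ih3⟩ := ih (by omega)
      obtain ⟨hs0, hs1, hs2⟩ := hst t (by omega)
      have hG := pth_gd hAb hIn hb hε hc ih1
      have hA := hAb N c D b ε L (σs t) v (s t) (σs (t + 1)) hb hs0 hv hG.1 hs2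
      have hcost := hMc N c D b L (σs t) v (s t) (σs (t + 1)) hs0 hv hs2
      refine ⟨?_, ?_, fun x hx => le_trans (ih3 x hx) (hA.um x hx)⟩
      · have h1 := Pth.step (σs t) _ v (s t) (σs (t + 1)) ih1 hs0 hs1 hv hs2
        rw [← hcost, add_assoc, ← sum_add_distrib] at h1
        have h2 : ∑ x ∈ range (N + 1), ((us (σs t) x - us σ x) * |(x : ℝ) - (v : ℝ)| +
            (us (σs (t + 1)) x - us (σs t) x) * |(x : ℝ) - (v : ℝ)|) =
            ∑ x ∈ range (N + 1), (us (σs (t + 1)) x - us σ x) * |(x : ℝ) - (v : ℝ)| :=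
          sum_congr rfl (fun x _ => by ring)
        rw [h2] at h1
        exact h1
      · intro x
        rw [hA.hr x, ih2 x, sum_range_succ]
        by_cases hx : x = v
        · simp only [hx, if_true]
          ring
        · simp only [hx, if_false]
          ring
  have h1 := key M le_rfl
  rw [hM, hsum] at h1
  exact h1

open Classical in
/-- The state after the requests `l`. -/
noncomputable def sta (N : ℕ) (c : ℕ → ℝ) (D : ℕ) (b ε : ℝ) (L : ℕ) : List ℕ → St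
  | [] => SQ.ini b
  | v :: l => if h : ∃ σ', Sq N c D b ε L (sta N c D b ε L l) v σ' then Classical.choose h
      else sta N c D b ε L l

/-- The assignment. -/
noncomputable def aa (N : ℕ) (c : ℕ → ℝ) (D : ℕ) (b ε : ℝ) (L : ℕ) (l : List ℕ) (x : ℕ) : ℝ :=
  if x ≤ N then us (sta N c D b ε L l) x else 0

lemma sta_cons {N : ℕ} {c : ℕ → ℝ} {D : ℕ} {b ε : ℝ} {L : ℕ} {v : ℕ} {l : List ℕ}
    (h : ∃ σ', Sq N c D b ε L (sta N c D b ε L l) v σ') :
    Sq N c D b ε L (sta N c D b ε L l) v (sta N c D b ε L (v :: l)) := by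
  have h1 : sta N c D b ε L (v :: l) = Classical.choose h := by
    rw [sta]
    rw [dif_pos h]
  rw [h1]
  exact Classical.choose_spec h

lemma sum_count {N : ℕ} {l : List ℕ} (h : ∀ v, v ∈ l → v ≤ N) :
    ∑ x ∈ range (N + 1), (l.count x : ℝ) = l.length := by
  induction l with
  | nil => simp
  | cons v l ih =>
    have h1 := ih (fun w hw => h w (List.mem_cons_of_mem _ hw))
    have h2 : v ≤ N := h v List.mem_cons_self
    have h3 : ∑ x ∈ range (N + 1), ((v :: l).count x : ℝ) =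
        ∑ x ∈ range (N + 1), ((l.count x : ℝ) + if x = v then 1 else 0) := by
      refine sum_congr rfl (fun x _ => ?_)
      rw [List.count_cons]
      by_cases hx : x = v
      · subst hx
        simp
      · have : ¬ (v = x) := fun h => hx h.symm
        simp [hx, this]
    rw [h3, sum_add_distrib, h1, sum_ite_eq' (range (N + 1)) v (fun _ => (1 : ℝ)),
      if_pos (by rw [mem_range]; omega)]
    push_cast [List.length_cons]
    ring

lemma main (hAb : S_Ab) (hIn : S_In) (hMc : S_Mc) (hEx : S_Ex) {N D n0 : ℕ} {c : ℕ → ℕ} {b ε : ℝ}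
    {L : ℕ} (hb : 0 < b) (hε : 0 < ε) (hD : 1 ≤ D)
    (hw : ∀ x, x + D ≤ N + 1 → n0 ≤ ∑ y ∈ Ico x (x + D), c y) :
    ∀ l : List ℕ, (∀ v, v ∈ l → v ≤ N) → l.length ≤ n0 → l.length ≤ ∑ x ∈ range (N + 1), c x →
    Pth N (fun x => (c x : ℝ)) D b ε L (sta N (fun x => (c x : ℝ)) D b ε L l)
      (mvN N (aa N (fun x => (c x : ℝ)) D b ε L) l) ∧
    (∀ x, (sta N (fun x => (c x : ℝ)) D b ε L l).r x = l.count x) ∧
    ∀ v l', l = v :: l' → ∀ x, x ≤ N → us (sta N (fun x => (c x : ℝ)) D b ε L l') x ≤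
      us (sta N (fun x => (c x : ℝ)) D b ε L l) x := by
  intro l
  induction l with
  | nil =>
    intro _ _ _
    refine ⟨?_, ?_, ?_⟩
    · simp only [mvN]
      rw [sta]
      exact Pth.ini
    · intro x
      rw [sta]
      simp [SQ.ini]
    · intro v l' h
      exact absurd h (by simp)
  | cons v l ih =>
    intro hl hn hcs
    rw [List.length_cons] at hn hcs
    have hv : v ≤ N := hl v List.mem_cons_self
    have hl' : ∀ w, w ∈ l → w ≤ N := fun w hw' => hl w (List.mem_cons_of_mem _ hw')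
    obtain ⟨ih1, ih2, _⟩ := ih hl' (by omega) (by omega)
    have hc : ∀ x, 0 ≤ (fun x => (c x : ℝ)) x := fun x => Nat.cast_nonneg _
    have hG := pth_gd hAb hIn hb hε hc ih1
    have hr : ∑ x ∈ range (N + 1), (sta N (fun x => (c x : ℝ)) D b ε L l).r x = l.length := by
      rw [← sum_count hl']
      exact sum_congr rfl (fun x _ => ih2 x)
    have hex := hEx N (fun x => (c x : ℝ)) D b ε n0 L (sta N (fun x => (c x : ℝ)) D b ε L l) v 1 hb hε
      hv zero_le_one hG.1 hD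
      (fun x hx => by exact_mod_cast hw x hx)
      (by rw [hr]; exact_mod_cast hn)
      (by rw [hr]; exact_mod_cast hcs)
    obtain ⟨M, σs, s, h0, hst, hsum⟩ := hex
    have hSq := sta_cons (N := N) (c := fun x => (c x : ℝ)) (D := D) (b := b) (ε := ε) (L := L)
      (v := v) (l := l) ⟨σs M, M, σs, s, h0, rfl, hst, hsum⟩
    obtain ⟨k1, k2, k3⟩ := sq_pth hAb hIn hMc hb hε hc hv hSq ih1
    refine ⟨?_, ?_, ?_⟩
    · have h1 : mvN N (aa N (fun x => (c x : ℝ)) D b ε L) (v :: l) =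
          mvN N (aa N (fun x => (c x : ℝ)) D b ε L) l + ∑ x ∈ range (N + 1),
            (us (sta N (fun x => (c x : ℝ)) D b ε L (v :: l)) x -
              us (sta N (fun x => (c x : ℝ)) D b ε L l) x) * |(x : ℝ) - (v : ℝ)| := by
        rw [mvN]
        congr 1
        refine sum_congr rfl (fun x hx => ?_)
        rw [mem_range] at hx
        unfold aa
        rw [if_pos (by omega : x ≤ N), if_pos (by omega : x ≤ N)]
      rw [h1]
      exact k1
    · intro x
      rw [k2 x, ih2 x, List.count_cons]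
      by_cases hx : x = v
      · subst hx
        simp
      · have : ¬ (v = x) := fun h => hx h.symm
        simp [hx, this]
    · intro w l' h x hx
      obtain ⟨rfl, rfl⟩ := List.cons.inj h
      exact k3 x hx

lemma sum_Icc_fl (u : ℕ → ℝ) (l : List ℕ) (N : ℕ) :
    ∑ k ∈ Icc 1 N, |∑ x ∈ range k, ((l.count x : ℝ) - u x)| = ∑ k ∈ range N, |fl u l k| := by
  induction N with
  | zero => simp
  | succ N ih =>
    rw [sum_Icc_succ_top (by omega), ih, sum_range_succ (fun k => |fl u l k|)]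
    rfl

end Pool.Agent.MP_a4c1f4_lc.SQ.CoM

namespace Pool.Agent.MP_a4c1f4_lc.SQ

open Finset
open Pool.Agent.MP_a4c1f4_lc.SO (fl mvN)
open CoM

/-- The core. -/
theorem coP : S_Ab → S_In → S_Mn → S_Mc → S_Ex → S_Co := by
  intro hAb hIn hMn hMc hEx
  obtain ⟨C, hC, hMn⟩ := hMn
  refine ⟨C, hC, ?_⟩
  intro E D K n0 c b hb hD hDK hK hw
  have hs : 0 < Real.sqrt ((K + 1 : ℕ) : ℝ) := Real.sqrt_pos.2 (by positivity)
  obtain ⟨ε, hεdef⟩ : ∃ ε : ℝ, ε = min (b / 512) (b / Real.sqrt ((K + 1 : ℕ) : ℝ)) := ⟨_, rfl⟩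
  have hε : 0 < ε := by
    rw [hεdef]
    exact lt_min (by positivity) (div_pos hb hs)
  have hε1 : ε ≤ b / 512 := by rw [hεdef]; exact min_le_left _ _
  have hε2 : ε ≤ b / Real.sqrt ((K + 1 : ℕ) : ℝ) := by rw [hεdef]; exact min_le_right _ _
  obtain ⟨L, hL⟩ : ∃ L : ℕ, b + ∑ x ∈ range (E + 1), (c x : ℝ) < b * 64 ^ L := by
    obtain ⟨L, hL⟩ := pow_unbounded_of_one_lt ((b + ∑ x ∈ range (E + 1), (c x : ℝ)) / b)
      (by norm_num : (1 : ℝ) < 64)
    refine ⟨L, ?_⟩
    rw [div_lt_iff₀ hb] at hL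
    linarith [mul_comm b ((64 : ℝ) ^ L)]
  have hc : ∀ x, 0 ≤ (fun x => (c x : ℝ)) x := fun x => Nat.cast_nonneg _
  refine ⟨aa E (fun x => (c x : ℝ)) D b ε L, ?_, ?_⟩
  · intro x
    unfold aa
    rw [sta]
    simp [us, SQ.ini]
  · intro l hl hn hcs
    obtain ⟨h1, h2, h3⟩ := main hAb hIn hMc hEx (L := L) hb hε hD hw l hl hn hcs
    have hG := pth_gd hAb hIn hb hε hc h1
    refine ⟨?_, ?_, ?_, ?_⟩
    · intro x hx
      unfold aa
      rw [if_pos hx]
      exact ⟨hG.1.u0 x hx, hG.1.cap x hx⟩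
    · have h4 : ∑ x ∈ range (E + 1), aa E (fun x => (c x : ℝ)) D b ε L l x =
          ∑ x ∈ range (E + 1), us (sta E (fun x => (c x : ℝ)) D b ε L l) x := by
        refine sum_congr rfl (fun x hx => ?_)
        rw [mem_range] at hx
        unfold aa
        rw [if_pos (by omega : x ≤ E)]
      rw [h4, us_sum, hG.1.f0, hG.1.fN (E + 1) (by omega), add_zero, sub_zero, ← sum_count hl]
      exact sum_congr rfl (fun x _ => h2 x)
    · intro v l' h x hx
      unfold aa
      rw [if_pos hx, if_pos hx]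
      exact h3 v l' h x hx
    · intro u hu hus
      obtain ⟨M, σs, v, s, hR, hM, hsum⟩ := pth_run hAb hIn hb hε hε1 hc hL h1
      have hOff : Off E (fun x => (c x : ℝ)) (σs M).r
          (fun k => ∑ x ∈ range k, ((l.count x : ℝ) - u x)) := by
        refine ⟨by simp, ?_, ?_⟩
        · rw [sum_sub_distrib, sum_count hl, hus, sub_self]
        · intro x hx
          rw [sum_range_succ, hM, h2 x]
          have := (hu x hx).2
          linarith
      have h5 := hMn E (fun x => (c x : ℝ)) D K b ε L M σs v s _ hK hDK hR hOff hε2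
      rw [hsum] at h5
      rw [sum_Icc_fl] at h5
      exact h5

end Pool.Agent.MP_a4c1f4_lc.SQ
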