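import Pool.Agent.Lib.MP_a4c1f4_lc.SQ.Spec
import Pool.Agent.Lib.MP_a4c1f4_lc.SQ0.Cost

set_option autoImplicit false
set_option linter.all false

namespace Pool.Agent.MP_a4c1f4_lc.SQ

open Finset

namespace CaM

open Pool.Agent.Lib.MP_a4c1f4_lc (SQ0.Reg SQ0.ub SQ0.sat SQ0.Spl SQ0.cost)

/-- Shift of the numbering of the edges. -/
theorem sumIoc (g : ℕ → ℝ) (a b : ℕ) : ∑ k ∈ Ioc a b, g k = ∑ k ∈ Ico a b, g (k + 1) := by
  rw [Finset.sum_Ico_add' g a b 1]
  refine Finset.sum_congr ?_ fun _ _ => rfl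
  ext k
  simp only [Finset.mem_Ioc, Finset.mem_Ico]
  omega

/-- The reciprocals of the regularized capacities, shifted. -/
noncomputable def uu (N : ℕ) (b : ℝ) (L : ℕ) (σ : St) (k : ℕ) : ℝ := 1 / BB N b L σ.F (k + 1)

open Classical in
/-- The saturated edges of a step, shifted. -/
noncomputable def SS (σ : St) (gl v gr : ℕ) : Finset ℕ :=
  (Ico gl v).filter (fun k => sl σ (k + 1) ≤ -1) ∪ (Ico v gr).filter (fun k => 1 ≤ sl σ (k + 1))

theorem BBpos {N : ℕ} {c : ℕ → ℝ} {b ε : ℝ} {L : ℕ} {σ : St} (hB : S_Bb) (hb : 0 < b)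
    (hI : Inv N c b ε σ) (k : ℕ) : b ≤ BB N b L σ.F k :=
  le_trans (hI.Fb k) ((hB N b L hb).1 σ.F k)

theorem reg {N : ℕ} {c : ℕ → ℝ} {b ε : ℝ} {L : ℕ} {σ : St} (hB : S_Bb) (hb : 0 < b)
    (hF : ∀ k, σ.F k < b * 64 ^ L) (hI : Inv N c b ε σ) :
    Pool.Agent.Lib.MP_a4c1f4_lc.SQ0.Reg N (uu N b L σ) (2 ^ 25) := by
  constructor
  · intro k _
    exact one_div_pos.2 (lt_of_lt_of_le hb (BBpos hB hb hI (k + 1)))
  · intro i j k h1 h2 h3
    have h := ((hB N b L hb).2.2 σ.F hI.Fb hF).2.2.1 (i + 1) (k + 1) j (by omega) (by omega)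
      (by omega) h3
    have e1 : ((j + 1 - (i + 1) : ℕ) : ℝ) = (j : ℝ) - i := by
      rw [show j + 1 - (i + 1) = j - i by omega, Nat.cast_sub (by omega)]
    have e2 : ∑ m ∈ Icc (i + 1) j, 1 / BB N b L σ.F m = ∑ x ∈ Ico i j, uu N b L σ x := by
      have : Icc (i + 1) j = Ioc i j := by
        ext k
        simp only [Finset.mem_Icc, Finset.mem_Ioc]
        omega
      rw [this, sumIoc]
      rfl
    rw [e1, e2] at h
    have e3 : uu N b L σ k * ((j : ℝ) - i) = ((j : ℝ) - i) / BB N b L σ.F (k + 1) := by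
      unfold uu
      ring
    rw [e3]
    exact h

theorem ubL (N : ℕ) (b : ℝ) (L : ℕ) (σ : St) (gl v gr k : ℕ) (h1 : gl ≤ k) (h2 : k < v) :
    Pool.Agent.Lib.MP_a4c1f4_lc.SQ0.ub (SS σ gl v gr) (uu N b L σ) k = uL N b L σ (k + 1) := by
  unfold Pool.Agent.Lib.MP_a4c1f4_lc.SQ0.ub uL uu
  by_cases h : sl σ (k + 1) ≤ -1
  · rw [if_pos h, if_pos]
    unfold SS
    rw [Finset.mem_union, Finset.mem_filter, Finset.mem_Ico]
    exact Or.inl ⟨⟨h1, h2⟩, h⟩
  · rw [if_neg h, if_neg]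
    unfold SS
    rw [Finset.mem_union, Finset.mem_filter, Finset.mem_filter, Finset.mem_Ico, Finset.mem_Ico]
    rintro (h3 | h3)
    · exact h h3.2
    · omega

theorem ubR (N : ℕ) (b : ℝ) (L : ℕ) (σ : St) (gl v gr k : ℕ) (h1 : v ≤ k) (h2 : k < gr) :
    Pool.Agent.Lib.MP_a4c1f4_lc.SQ0.ub (SS σ gl v gr) (uu N b L σ) k = uR N b L σ (k + 1) := by
  unfold Pool.Agent.Lib.MP_a4c1f4_lc.SQ0.ub uR uu
  by_cases h : 1 ≤ sl σ (k + 1)
  · rw [if_pos h, if_pos]
    unfold SS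
    rw [Finset.mem_union, Finset.mem_filter, Finset.mem_filter, Finset.mem_Ico, Finset.mem_Ico]
    exact Or.inr ⟨⟨h1, h2⟩, h⟩
  · rw [if_neg h, if_neg]
    unfold SS
    rw [Finset.mem_union, Finset.mem_filter, Finset.mem_filter, Finset.mem_Ico, Finset.mem_Ico]
    rintro (h3 | h3)
    · omega
    · exact h h3.2

theorem sumL (N : ℕ) (b : ℝ) (L : ℕ) (σ : St) (gl v gr x y : ℕ) (h1 : gl ≤ x) (h2 : y ≤ v) :
    ∑ k ∈ Ico x y, Pool.Agent.Lib.MP_a4c1f4_lc.SQ0.ub (SS σ gl v gr) (uu N b L σ) k =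
      ∑ k ∈ Ioc x y, uL N b L σ k := by
  rw [sumIoc]
  refine Finset.sum_congr rfl fun k hk => ?_
  rw [Finset.mem_Ico] at hk
  exact ubL N b L σ gl v gr k (by omega) (by omega)

theorem sumR (N : ℕ) (b : ℝ) (L : ℕ) (σ : St) (gl v gr x y : ℕ) (h1 : v ≤ x) (h2 : y ≤ gr) :
    ∑ k ∈ Ico x y, Pool.Agent.Lib.MP_a4c1f4_lc.SQ0.ub (SS σ gl v gr) (uu N b L σ) k =
      ∑ k ∈ Ioc x y, uR N b L σ k := by
  rw [sumIoc]
  refine Finset.sum_congr rfl fun k hk => ?_
  rw [Finset.mem_Ico] at hk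
  exact ubR N b L σ gl v gr k (by omega) (by omega)

open Classical in
theorem satL (σ : St) (gl v gr x y : ℕ) (h1 : gl ≤ x) (h2 : y ≤ v) :
    (Pool.Agent.Lib.MP_a4c1f4_lc.SQ0.sat (SS σ gl v gr) x y).card =
      ((Ioc x y).filter (fun k => sl σ k ≤ -1)).card := by
  refine Finset.card_bij (fun k _ => k + 1) ?_ ?_ ?_
  · intro k hk
    unfold Pool.Agent.Lib.MP_a4c1f4_lc.SQ0.sat SS at hk
    simp only [Finset.mem_filter, Finset.mem_union, Finset.mem_Ico] at hk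
    rw [Finset.mem_filter, Finset.mem_Ioc]
    rcases hk.2 with h3 | h3
    · exact ⟨by omega, h3.2⟩
    · omega
  · intro a _ b _ h
    omega
  · intro k hk
    rw [Finset.mem_filter, Finset.mem_Ioc] at hk
    refine ⟨k - 1, ?_, by omega⟩
    unfold Pool.Agent.Lib.MP_a4c1f4_lc.SQ0.sat SS
    simp only [Finset.mem_filter, Finset.mem_union, Finset.mem_Ico]
    rw [show k - 1 + 1 = k by omega]
    exact ⟨by omega, Or.inl ⟨by omega, hk.2⟩⟩

open Classical in
theorem satR (σ : St) (gl v gr x y : ℕ) (h1 : v ≤ x) (h2 : y ≤ gr) :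
    (Pool.Agent.Lib.MP_a4c1f4_lc.SQ0.sat (SS σ gl v gr) x y).card =
      ((Ioc x y).filter (fun k => 1 ≤ sl σ k)).card := by
  refine Finset.card_bij (fun k _ => k + 1) ?_ ?_ ?_
  · intro k hk
    unfold Pool.Agent.Lib.MP_a4c1f4_lc.SQ0.sat SS at hk
    simp only [Finset.mem_filter, Finset.mem_union, Finset.mem_Ico] at hk
    rw [Finset.mem_filter, Finset.mem_Ioc]
    rcases hk.2 with h3 | h3
    · omega
    · exact ⟨by omega, h3.2⟩
  · intro a _ b _ h
    omega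
  · intro k hk
    rw [Finset.mem_filter, Finset.mem_Ioc] at hk
    refine ⟨k - 1, ?_, by omega⟩
    unfold Pool.Agent.Lib.MP_a4c1f4_lc.SQ0.sat SS
    simp only [Finset.mem_filter, Finset.mem_union, Finset.mem_Ico]
    rw [show k - 1 + 1 = k by omega]
    exact ⟨by omega, Or.inr ⟨by omega, hk.2⟩⟩

section mv

variable {N : ℕ} {c : ℕ → ℝ} {D : ℕ} {b : ℝ} {L : ℕ} {σ : St} {v : ℕ} {s : ℝ} {σ' : St}
  {gl gr : ℕ} {mL mR q : ℝ}

theorem dfL (hM : Move N c D b L σ v s σ' gl gr mL mR q) {k : ℕ} (h1 : gl < k) (h2 : k ≤ v) :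
    σ'.f k - σ.f k = -(s * mL) := by
  rw [hM.hf k, if_pos ⟨h1, h2⟩]
  ring

theorem dfR (hM : Move N c D b L σ v s σ' gl gr mL mR q) {k : ℕ} (h1 : v < k) (h2 : k ≤ gr) :
    σ'.f k - σ.f k = s * mR := by
  rw [hM.hf k, if_neg (by omega), if_pos ⟨h1, h2⟩]
  ring

theorem df0 (hM : Move N c D b L σ v s σ' gl gr mL mR q) {k : ℕ} (h : k ≤ gl ∨ gr < k) :
    σ'.f k - σ.f k = 0 := by
  have h1 := hM.hgl
  have h2 := hM.hgr
  rw [hM.hf k, if_neg (by omega), if_neg (by omega)]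
  ring

/-- A sum over all edges of a function which vanishes outside of the path. -/
theorem sumPath (hM : Move N c D b L σ v s σ' gl gr mL mR q) (g : ℕ → ℝ)
    (hg : ∀ k, k ≤ gl ∨ gr < k → g k = 0) :
    ∑ k ∈ Icc 1 N, g k = ∑ k ∈ Ioc gl v, g k + ∑ k ∈ Ioc v gr, g k := by
  have h1 := hM.hgl
  have h2 := hM.hgr
  have h3 := hM.hN
  have e : ∑ k ∈ Ioc gl v, g k + ∑ k ∈ Ioc v gr, g k = ∑ k ∈ Ioc gl gr, g k := by
    rw [← Finset.sum_union]
    · refine Finset.sum_congr ?_ fun _ _ => rfl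
      ext k
      simp only [Finset.mem_union, Finset.mem_Ioc]
      omega
    · rw [Finset.disjoint_left]
      intro k h4 h5
      rw [Finset.mem_Ioc] at h4 h5
      omega
  rw [e]
  symm
  refine Finset.sum_subset ?_ ?_
  · intro k hk
    rw [Finset.mem_Ioc] at hk
    rw [Finset.mem_Icc]
    omega
  · intro k _ hk
    rw [Finset.mem_Ioc] at hk
    exact hg k (by omega)

/-- The movement. -/
theorem moEq (hs : 0 ≤ s) (hM : Move N c D b L σ v s σ' gl gr mL mR q) :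
    mo N σ σ' = s * (mL * ((v : ℝ) - gl) + mR * ((gr : ℝ) - v)) := by
  unfold mo
  rw [sumPath hM (fun k => |σ'.f k - σ.f k|) (fun k hk => by
    show |σ'.f k - σ.f k| = 0
    rw [df0 hM hk, abs_zero])]
  have e1 : ∑ k ∈ Ioc gl v, |σ'.f k - σ.f k| = ∑ _k ∈ Ioc gl v, s * mL := by
    refine Finset.sum_congr rfl fun k hk => ?_
    rw [Finset.mem_Ioc] at hk
    rw [dfL hM hk.1 hk.2, abs_neg, abs_of_nonneg (mul_nonneg hs hM.mL0)]
  have e2 : ∑ k ∈ Ioc v gr, |σ'.f k - σ.f k| = ∑ _k ∈ Ioc v gr, s * mR := by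
    refine Finset.sum_congr rfl fun k hk => ?_
    rw [Finset.mem_Ioc] at hk
    rw [dfR hM hk.1 hk.2, abs_of_nonneg (mul_nonneg hs hM.mR0)]
  rw [e1, e2, Finset.sum_const, Finset.sum_const, Nat.card_Ioc, Nat.card_Ioc, nsmul_eq_mul,
    nsmul_eq_mul, Nat.cast_sub hM.hgl, Nat.cast_sub hM.hgr]
  ring

open Classical in
/-- The saturated current. -/
theorem YYge (hs : 0 ≤ s) (hM : Move N c D b L σ v s σ' gl gr mL mR q) {x y x' y' : ℕ}
    (h1 : gl ≤ x) (h2 : y ≤ v) (h3 : v ≤ x') (h4 : y' ≤ gr) :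
    s * (mL * (((Ioc x y).filter (fun k => sl σ k ≤ -1)).card : ℝ) +
      mR * (((Ioc x' y').filter (fun k => 1 ≤ sl σ k)).card : ℝ)) ≤ YY N σ σ' := by
  unfold YY
  have hg0 : ∀ k, 0 ≤ (if Sat σ σ' k then |σ'.f k - σ.f k| else 0) := by
    intro k
    split_ifs
    · exact abs_nonneg _
    · exact le_refl _
  rw [sumPath hM (fun k => if Sat σ σ' k then |σ'.f k - σ.f k| else 0) (fun k hk => by
    show (if Sat σ σ' k then |σ'.f k - σ.f k| else 0) = 0
    rw [df0 hM hk, abs_zero]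
    split_ifs <;> rfl)]
  have e1 : s * (mL * (((Ioc x y).filter (fun k => sl σ k ≤ -1)).card : ℝ)) ≤
      ∑ k ∈ Ioc gl v, (if Sat σ σ' k then |σ'.f k - σ.f k| else 0) := by
    have : ∑ k ∈ (Ioc x y).filter (fun k => sl σ k ≤ -1), s * mL ≤
        ∑ k ∈ Ioc gl v, (if Sat σ σ' k then |σ'.f k - σ.f k| else 0) := by
      refine le_trans (Finset.sum_le_sum (fun k hk => ?_))
        (Finset.sum_le_sum_of_subset_of_nonneg ?_ (fun k _ _ => hg0 k))
      · rw [Finset.mem_filter, Finset.mem_Ioc] at hk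
        have hd := dfL hM (k := k) (by omega) (by omega)
        by_cases hp : 0 < s * mL
        · have hS : Sat σ σ' k := Or.inr ⟨by rw [hd]; linarith, hk.2⟩
          rw [if_pos hS, hd, abs_neg]
          exact le_abs_self _
        · exact le_trans (not_lt.1 hp) (hg0 k)
      · intro k hk
        rw [Finset.mem_filter, Finset.mem_Ioc] at hk
        rw [Finset.mem_Ioc]
        omega
    rw [Finset.sum_const, nsmul_eq_mul] at this
    linarith
  have e2 : s * (mR * (((Ioc x' y').filter (fun k => 1 ≤ sl σ k)).card : ℝ)) ≤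
      ∑ k ∈ Ioc v gr, (if Sat σ σ' k then |σ'.f k - σ.f k| else 0) := by
    have : ∑ k ∈ (Ioc x' y').filter (fun k => 1 ≤ sl σ k), s * mR ≤
        ∑ k ∈ Ioc v gr, (if Sat σ σ' k then |σ'.f k - σ.f k| else 0) := by
      refine le_trans (Finset.sum_le_sum (fun k hk => ?_))
        (Finset.sum_le_sum_of_subset_of_nonneg ?_ (fun k _ _ => hg0 k))
      · rw [Finset.mem_filter, Finset.mem_Ioc] at hk
        have hd := dfR hM (k := k) (by omega) (by omega)
        by_cases hp : 0 < s * mR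
        · have hS : Sat σ σ' k := Or.inl ⟨by rw [hd]; linarith, hk.2⟩
          rw [if_pos hS, hd]
          exact le_abs_self _
        · exact le_trans (not_lt.1 hp) (hg0 k)
      · intro k hk
        rw [Finset.mem_filter, Finset.mem_Ioc] at hk
        rw [Finset.mem_Ioc]
        omega
    rw [Finset.sum_const, nsmul_eq_mul] at this
    linarith
  linarith

theorem YY0 (N : ℕ) (σ σ' : St) : 0 ≤ YY N σ σ' := by
  unfold YY
  refine Finset.sum_nonneg fun k _ => ?_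
  split_ifs
  · exact abs_nonneg _
  · exact le_refl _

end mv

end CaM

theorem caP : S_Bb → S_Ca := by
  classical
  intro hB N c D b ε L σ v s σ' gl gr mL mR q hb hs hF hI hM
  have hR := CaM.reg hB hb hF hI
  rw [CaM.moEq hs hM]
  have hY0 := CaM.YY0 N σ σ'
  have hgl : (gl : ℝ) ≤ v := by exact_mod_cast hM.hgl
  have hgr : (v : ℝ) ≤ gr := by exact_mod_cast hM.hgr
  have hm := hM.hm
  rcases hM.left with ⟨l1, l2⟩ | ⟨l1, l2, l3⟩
  · rcases hM.right with ⟨r1, r2⟩ | ⟨r1, r2, r3⟩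
    · have hlt : gl < v := lt_of_le_of_ne hM.hgl (by
        rintro rfl
        rw [hM.hv] at l1
        exact lt_irrefl _ l1)
      have hrt : v < gr := lt_of_le_of_ne hM.hgr (by
        rintro rfl
        rw [hM.hv] at r1
        exact lt_irrefl _ r1)
      have hsp : Pool.Agent.Lib.MP_a4c1f4_lc.SQ0.Spl (CaM.uu N b L σ) (CaM.SS σ gl v gr) gl v gr
          mL mR := by
        refine ⟨hM.mL0, hM.mR0, hm, ?_⟩
        rw [CaM.sumL N b L σ gl v gr gl v (le_refl _) (le_refl _),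
          CaM.sumR N b L σ gl v gr v gr (le_refl _) (le_refl _), ← l2, ← r2]
      have h := Pool.Agent.Lib.MP_a4c1f4_lc.SQ0.cost hR (by norm_num) (CaM.SS σ gl v gr) hlt hrt
        hM.hN hsp
      rw [CaM.satL σ gl v gr gl v (le_refl _) (le_refl _),
        CaM.satR σ gl v gr v gr (le_refl _) (le_refl _)] at h
      have hY := CaM.YYge hs hM (x := gl) (y := v) (x' := v) (y' := gr) (le_refl _) (le_refl _)
        (le_refl _) (le_refl _)
      have e : ((rh c σ v gl gr : ℕ) : ℝ) = min ((v : ℝ) - gl) ((gr : ℝ) - v) := by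
        unfold rh
        rw [if_pos l1, if_pos r1, Nat.cast_min, Nat.cast_sub hM.hgl, Nat.cast_sub hM.hgr]
      rw [e]
      have h5 := mul_le_mul_of_nonneg_left h hs
      refine le_trans h5 ?_
      nlinarith
    · have e : rh c σ v gl gr = v - gl := by
        unfold rh
        rw [if_pos l1, if_neg (by rw [r2]; exact lt_irrefl _)]
      have e1 : mL = 1 := by linarith
      rw [e, Nat.cast_sub hM.hgl, r3, e1]
      have : 0 ≤ s * ((v : ℝ) - gl) := mul_nonneg hs (by linarith)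
      nlinarith
  · have e : rh c σ v gl gr = gr - v := by
      unfold rh
      rw [if_neg (by rw [l2]; exact lt_irrefl _)]
    have e1 : mR = 1 := by linarith
    rw [e, Nat.cast_sub hM.hgr, l3, e1]
    have : 0 ≤ s * ((gr : ℝ) - v) := mul_nonneg hs (by linarith)
    nlinarith

end Pool.Agent.MP_a4c1f4_lc.SQ
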