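import Pool.Agent.Lib.MP_a4c1f4_lc.SQ.Spec
import Pool.Agent.Lib.MP_a4c1f4_lc.SQ.Ca

set_option autoImplicit false
set_option linter.all false

namespace Pool.Agent.MP_a4c1f4_lc.SQ

open Finset

namespace RaM

section mv

variable {N : ℕ} {c : ℕ → ℝ} {D : ℕ} {b ε : ℝ} {L : ℕ} {σ : St} {v : ℕ} {s : ℝ} {σ' : St}
  {gl gr : ℕ} {mL mR q : ℝ}

theorem lenR {H : ℕ} (h : us σ gr < c gr) (hH : H ≤ rh c σ v gl gr) (hgr : v ≤ gr) :
    v + H ≤ gr := by
  unfold rh at hH
  rw [if_pos h] at hH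
  split_ifs at hH with h1
  · have := le_trans hH (min_le_right _ _)
    omega
  · omega

theorem lenL {H : ℕ} (h : us σ gl < c gl) (hH : H ≤ rh c σ v gl gr) (hgl : gl ≤ v) :
    gl + H ≤ v := by
  unfold rh at hH
  rw [if_pos h] at hH
  split_ifs at hH with h1
  · have := le_trans hH (min_le_left _ _)
    omega
  · omega

/-- The first alternative. -/
theorem alt1 (hCa : S_Ca) {H : ℕ} (hb : 0 < b) (hs : 0 ≤ s) (hF : ∀ k, σ.F k < b * 64 ^ L)
    (hI : Inv N c b ε σ) (hM : Move N c D b L σ v s σ' gl gr mL mR q)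
    (h2 : rh c σ v gl gr < 2 * H) (hY : s * (H : ℝ) ≤ 4 * 2 ^ 25 * YY N σ σ') :
    mo N σ σ' ≤ (4 * 2 ^ 25 + 1) * (8 * 2 ^ 25 + 1) * YY N σ σ' := by
  have h := hCa N c D b ε L σ v s σ' gl gr mL mR q hb hs hF hI hM
  have h3 : ((rh c σ v gl gr : ℕ) : ℝ) ≤ 2 * H := by exact_mod_cast h2.le
  have h4 : s * ((rh c σ v gl gr : ℕ) : ℝ) ≤ s * (2 * H) := mul_le_mul_of_nonneg_left h3 hs
  have h5 : s * ((rh c σ v gl gr : ℕ) : ℝ) + YY N σ σ' ≤ (8 * 2 ^ 25 + 1) * YY N σ σ' := by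
    nlinarith
  have h6 := mul_le_mul_of_nonneg_left h5 (by norm_num : (0 : ℝ) ≤ 4 * 2 ^ 25 + 1)
  linarith

/-- From the raise of the potential to the raise of the price. -/
theorem fin (hs : 0 ≤ s) (hM : Move N c D b L σ v s σ' gl gr mL mR q) {H : ℕ} {E U : ℝ}
    (hE0 : 0 < E) (hU : (H : ℝ) ^ 2 ≤ U * E) (x : ℕ) (hq : 3 / 16 * U ≤ qq N b L σ v gl gr mL mR q x) :
    σ.p x + s * (3 / 16 * (H : ℝ) ^ 2 / E) ≤ σ'.p x := by
  rw [hM.hp x]
  have h1 : 3 / 16 * (H : ℝ) ^ 2 / E ≤ 3 / 16 * U := by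
    rw [div_le_iff₀ hE0]
    linarith
  have h2 : s * (3 / 16 * (H : ℝ) ^ 2 / E) ≤ s * qq N b L σ v gl gr mL mR q x :=
    mul_le_mul_of_nonneg_left (le_trans h1 hq) hs
  linarith

/-- Cauchy-Schwarz on the interval `Ioc a (a + H)`. -/
theorem csI (hB : S_Bb) (hb : 0 < b) (hI : Inv N c b ε σ) {a H : ℕ} {E : ℝ} (haN : a + H ≤ N)
    (h1 : ∀ k ∈ Ioc a (a + H), k ∈ nr N v H)
    (hE : ∑ k ∈ nr N v H, BB N b L σ.F k ≤ E) :
    (H : ℝ) ^ 2 ≤ (∑ k ∈ Ico a (a + H), CaM.uu N b L σ k) * E := by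
  have hpos : ∀ k, 0 < BB N b L σ.F k := fun k => lt_of_lt_of_le hb (CaM.BBpos hB hb hI k)
  have h2 := Pool.Agent.Lib.MP_a4c1f4_lc.SQ0.cs (u := CaM.uu N b L σ)
    (B := fun k => BB N b L σ.F (k + 1)) (i := a) (H := H) (fun k _ => hpos (k + 1))
    (fun k _ => by
      unfold CaM.uu
      exact one_div_mul_cancel (hpos (k + 1)).ne')
  have h3 : ∑ k ∈ Ico a (a + H), BB N b L σ.F (k + 1) ≤ E := by
    rw [← CaM.sumIoc (fun k => BB N b L σ.F k)]
    exact le_trans (Finset.sum_le_sum_of_subset_of_nonneg (fun k hk => h1 k hk)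
      (fun k _ _ => (hpos k).le)) hE
  have h4 : 0 ≤ ∑ k ∈ Ico a (a + H), CaM.uu N b L σ k :=
    Finset.sum_nonneg fun k _ => (one_div_pos.2 (hpos (k + 1))).le
  exact le_trans h2 (mul_le_mul_of_nonneg_left h3 h4)

end mv

end RaM

theorem raP : S_Bb → S_Ca → S_Ra := by
  classical
  intro hB hCa N c D b ε L σ v s σ' gl gr mL mR q H E hb hs hF hI hM hH hrh hrh2 hE hE0
  have hR := CaM.reg hB hb hF hI
  have hm := hM.hm
  have hHr : (1 : ℝ) ≤ H := by exact_mod_cast hH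
  rcases le_total mL mR with hle | hle
  · -- the larger part goes to the right
    have hmR : 1 / 2 ≤ mR := by linarith
    rcases hM.right with ⟨r1, r2⟩ | ⟨r1, r2, r3⟩
    swap
    · exfalso
      rw [r3] at hmR
      norm_num at hmR
    have hvH := RaM.lenR r1 hrh hM.hgr
    have hN := hM.hN
    by_cases hn : (H : ℝ) ≤ 2 * 2 ^ 25 * (((Ioc v (v + H)).filter (fun k => 1 ≤ sl σ k)).card : ℝ)
    · left
      refine RaM.alt1 hCa hb hs hF hI hM hrh2 ?_
      have hY := CaM.YYge hs hM (x := v) (y := v) (x' := v) (y' := v + H) hM.hgl (le_refl _)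
        (le_refl _) hvH
      rw [Finset.Ioc_self, Finset.filter_empty, Finset.card_empty, Nat.cast_zero, mul_zero,
        zero_add] at hY
      have hc0 : (0 : ℝ) ≤ (((Ioc v (v + H)).filter (fun k => 1 ≤ sl σ k)).card : ℝ) := by
        positivity
      have h1 : s * (H : ℝ) ≤
          s * (2 * 2 ^ 25 * (((Ioc v (v + H)).filter (fun k => 1 ≤ sl σ k)).card : ℝ)) :=
        mul_le_mul_of_nonneg_left hn hs
      have h2 : s * (1 / 2 * (((Ioc v (v + H)).filter (fun k => 1 ≤ sl σ k)).card : ℝ)) ≤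
          s * (mR * (((Ioc v (v + H)).filter (fun k => 1 ≤ sl σ k)).card : ℝ)) :=
        mul_le_mul_of_nonneg_left (mul_le_mul_of_nonneg_right hmR hc0) hs
      nlinarith
    right
    have hn := not_le.1 hn
    have hra := Pool.Agent.Lib.MP_a4c1f4_lc.SQ0.raiseR hR (by norm_num) (CaM.SS σ gl v gr) hH hvH
      hM.hN hM.mL0 hle hmR (by
        rw [CaM.satR σ gl v gr v (v + H) (le_refl _) hvH]
        exact hn)
    have hcs := RaM.csI (v := v) hB hb hI (a := v) (H := H) (by omega) (by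
      intro k hk
      rw [Finset.mem_Ioc] at hk
      unfold nr
      rw [Finset.mem_filter, Finset.mem_Icc]
      omega) hE
    intro x hxN hx1 hx2
    have hx1r : (x : ℝ) * (9 * 2 ^ 25) ≤ v * (9 * 2 ^ 25) + H := by exact_mod_cast hx1
    have hx2r : (v : ℝ) * (9 * 2 ^ 25) ≤ x * (9 * 2 ^ 25) + H := by exact_mod_cast hx2
    refine RaM.fin hs hM hE0 hcs x ?_
    norm_num at hx1 hx2
    rcases Nat.lt_or_ge v x with hx | hx
    · have hxgr : x ≤ gr := by omega
      unfold qq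
      rw [if_neg (by omega), if_pos ⟨hx, hxgr⟩, r2,
        ← CaM.sumR N b L σ gl v gr v gr (le_refl _) (le_refl _),
        ← CaM.sumR N b L σ gl v gr v x (le_refl _) hxgr]
      exact hra.2 x hx.le (by linarith)
    · have hglx : gl ≤ x := by
        rcases hM.left with ⟨l1, _⟩ | ⟨l1, _, _⟩
        · have := RaM.lenL l1 hrh hM.hgl
          omega
        · omega
      unfold qq
      rw [if_pos ⟨hglx, hx⟩, r2,
        ← CaM.sumR N b L σ gl v gr v gr (le_refl _) (le_refl _),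
        ← CaM.sumL N b L σ gl v gr x v hglx (le_refl _)]
      exact hra.1 x hx (by linarith)
  · -- the larger part goes to the left
    have hmL : 1 / 2 ≤ mL := by linarith
    rcases hM.left with ⟨l1, l2⟩ | ⟨l1, l2, l3⟩
    swap
    · exfalso
      rw [l3] at hmL
      norm_num at hmL
    have hvH := RaM.lenL l1 hrh hM.hgl
    have hN := hM.hN
    have hgr := hM.hgr
    have hvN : v ≤ N := le_trans hM.hgr hM.hN
    by_cases hn : (H : ℝ) ≤
        2 * 2 ^ 25 * (((Ioc (v - H) v).filter (fun k => sl σ k ≤ -1)).card : ℝ)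
    · left
      refine RaM.alt1 hCa hb hs hF hI hM hrh2 ?_
      have hY := CaM.YYge hs hM (x := v - H) (y := v) (x' := v) (y' := v) (by omega) (le_refl _)
        (le_refl _) hM.hgr
      rw [Finset.Ioc_self, Finset.filter_empty, Finset.card_empty, Nat.cast_zero, mul_zero,
        add_zero] at hY
      have hc0 : (0 : ℝ) ≤ (((Ioc (v - H) v).filter (fun k => sl σ k ≤ -1)).card : ℝ) := by
        positivity
      have h1 : s * (H : ℝ) ≤
          s * (2 * 2 ^ 25 * (((Ioc (v - H) v).filter (fun k => sl σ k ≤ -1)).card : ℝ)) :=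
        mul_le_mul_of_nonneg_left hn hs
      have h2 : s * (1 / 2 * (((Ioc (v - H) v).filter (fun k => sl σ k ≤ -1)).card : ℝ)) ≤
          s * (mL * (((Ioc (v - H) v).filter (fun k => sl σ k ≤ -1)).card : ℝ)) :=
        mul_le_mul_of_nonneg_left (mul_le_mul_of_nonneg_right hmL hc0) hs
      nlinarith
    right
    have hn := not_le.1 hn
    have hra := Pool.Agent.Lib.MP_a4c1f4_lc.SQ0.raiseL hR (by norm_num) (CaM.SS σ gl v gr) hH hvH
      hvN hM.mR0 hle hmL (by
        rw [CaM.satL σ gl v gr (v - H) v (by omega) (le_refl _)]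
        exact hn)
    have hvv : v - H + H = v := by omega
    have hcs := RaM.csI (v := v) hB hb hI (a := v - H) (H := H) (by omega) (by
      intro k hk
      rw [Finset.mem_Ioc] at hk
      unfold nr
      rw [Finset.mem_filter, Finset.mem_Icc]
      omega) hE
    rw [hvv] at hcs
    intro x hxN hx1 hx2
    have hx1r : (x : ℝ) * (9 * 2 ^ 25) ≤ v * (9 * 2 ^ 25) + H := by exact_mod_cast hx1
    have hx2r : (v : ℝ) * (9 * 2 ^ 25) ≤ x * (9 * 2 ^ 25) + H := by exact_mod_cast hx2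
    refine RaM.fin hs hM hE0 hcs x ?_
    norm_num at hx1 hx2
    rcases Nat.lt_or_ge v x with hx | hx
    · have hxgr : x ≤ gr := by
        rcases hM.right with ⟨r1, _⟩ | ⟨r1, _, _⟩
        · have := RaM.lenR r1 hrh hM.hgr
          omega
        · omega
      unfold qq
      rw [if_neg (by omega), if_pos ⟨hx, hxgr⟩, l2,
        ← CaM.sumL N b L σ gl v gr gl v (le_refl _) (le_refl _),
        ← CaM.sumR N b L σ gl v gr v x (le_refl _) hxgr]
      exact hra.1 x hx.le hxN (by linarith)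
    · have hglx : gl ≤ x := by omega
      unfold qq
      rw [if_pos ⟨hglx, hx⟩, l2,
        ← CaM.sumL N b L σ gl v gr gl v (le_refl _) (le_refl _),
        ← CaM.sumL N b L σ gl v gr x v hglx (le_refl _)]
      exact hra.2 x hx (by linarith)

end Pool.Agent.MP_a4c1f4_lc.SQ
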