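import Pool.Agent.Lib.MP_a4c1f4_lc.SQ.Defs

set_option autoImplicit false
set_option linter.all false

/-!
Online matching on the line, ratio `O(sqrt (log n))`: the statements of the core, each with its proof in
words (note 5105). Convention: file `SQ/Y.lean`, theorem `yP : S_Y` or `yP : S_Z → S_Y` (used statements are
explicit hypotheses, in the order given after USES), helper lemmas in the namespace `…SQ.YM`.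
-/

namespace Pool.Agent.MP_a4c1f4_lc.SQ

open Finset

/-! ## Combinatorics and the regularized capacity -/

/-- (Cov) Covering with one sided intervals. PROOF. Left intervals: by strong induction on `M`,
`card (Y ∩ Icc 1 M) ≤ ∑ m ∈ Icc 1 M, ω m`: if `M ∉ Y` trivial (`ω ≥ 0`); if `M ∈ Y` with the interval
`Icc i M`: `card (Y ∩ Icc 1 M) ≤ card (Y ∩ Icc 1 (i - 1)) + (M + 1 - i)`, induction for `i - 1`. Right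
intervals: the same from the other side (`card (Y ∩ Icc M N) ≤ ∑ m ∈ Icc M N, ω m`, downward). -/
def S_Cov : Prop := ∀ (N : ℕ) (Y : Finset ℕ) (ω : ℕ → ℝ), (∀ m, 0 ≤ ω m) → Y ⊆ Icc 1 N →
  ((∀ k ∈ Y, ∃ i, 1 ≤ i ∧ i ≤ k ∧ ((k + 1 - i : ℕ) : ℝ) ≤ ∑ m ∈ Icc i k, ω m) →
    (Y.card : ℝ) ≤ ∑ m ∈ Icc 1 N, ω m) ∧
  ((∀ k ∈ Y, ∃ j, k ≤ j ∧ j ≤ N ∧ ((j + 1 - k : ℕ) : ℝ) ≤ ∑ m ∈ Icc k j, ω m) →
    (Y.card : ℝ) ≤ ∑ m ∈ Icc 1 N, ω m)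

/-- (Tt) USES `S_Cov`. PROOF. `TT N X` is the union of the left part and the right part, `ω = 4` on `X`,
`0` elsewhere in `S_Cov`. Monotonicity is clear. -/
def S_Tt : Prop := (∀ (N : ℕ) (X : Finset ℕ), (TT N X).card ≤ 8 * X.card) ∧
  (∀ (N : ℕ) (X X' : Finset ℕ), X ⊆ X' → TT N X ⊆ TT N X') ∧ ∀ (N : ℕ), TT N ∅ = ∅

/-- (Xx) The level sets. USES `S_Tt`. PROOF. `XX` is defined by `XX i = ∅` for `L ≤ i`,
`XX i = {F ≥ b 64^i} ∪ TT N (XX (i+3))` otherwise. All by strong induction on `L - i`. (4): `X (i+1) ⊆ X i`: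
if `L ≤ i + 1` trivial, otherwise `{F ≥ b 64^(i+1)} ⊆ {F ≥ b 64^i}` and `TT (X (i+4)) ⊆ TT (X (i+3))`. -/
def S_Xx : Prop := ∀ (N : ℕ) (b : ℝ) (L : ℕ), 0 < b →
  (∀ F i, XX N b L F i ⊆ Icc 1 N) ∧
  (∀ F i, L ≤ i → XX N b L F i = ∅) ∧
  (∀ F F' : ℕ → ℝ, (∀ k, F k ≤ F' k) → ∀ i, XX N b L F i ⊆ XX N b L F' i) ∧
  (∀ F i j, i ≤ j → XX N b L F j ⊆ XX N b L F i) ∧
  ∀ F i, (XX N b L F i).card ≤ ((Icc 1 N).filter (fun k => b * 64 ^ i ≤ F k)).card +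
      (TT N (XX N b L F (i + 3))).card

/-- (Bb) The regularized capacity. USES `S_Tt`, `S_Xx`. PROOF. Write `T i = TT N (XX (i+3))` (antitone in `i`),
`l = Nat.findGreatest (k ∈ T ·) L`. (1) clear. (2) `XX`, `T` and so `l` are monotone in `F`. (3) The level
sets: if `b 64^i ≤ BB k` then `b 64^i ≤ F k` or `i ≤ l`; if `l = 0` then `i = 0` and `F k ≥ b`; if `l ≥ 1` then
`k ∈ T l ⊆ T i ⊆ XX i` (`i ≤ l`; if `L ≤ l` then `T l = TT ∅ = ∅`, impossible, so `i < L`).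
(4) Let `k ∉ T i`, `i ≥ 1`, `b 64^(i-1) ≤ F k`: `l ≤ i - 1` (if `l ≥ i ≥ 1` then `k ∈ T l ⊆ T i`), so the
second term of the maximum is `≤ b 64^(i-1) ≤ F k`. (5) REGULARITY. Let `i` be the largest number with
`b 64^i ≤ BB k` (`BB k ≥ F k ≥ b`), so `BB k < b 64^(i+1)`, `k ∉ T (i+1)` (otherwise `l ≥ i + 1` (as `i + 1 ≤ L`,
else `T (i+1) = ∅`) and `BB k ≥ b 64^(i+1)`). So for `X = XX (i+4)`: `4 card (X ∩ Icc a k) < k + 1 - a` and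
`4 card (X ∩ Icc k e) < e + 1 - k`, the sum is `≤ e - a`, so `card (X ∩ Icc a e) ≤ (e + 1 - a)/2`, and for at
least half of the `m ∈ Icc a e`: `m ∉ X`, so by (3) `BB m < b 64^(i+4) ≤ 64^4 BB k`. So
`∑ 1/BB m ≥ (e + 1 - a)/2 / (64^4 BB k)`, and `2 * 64^4 = 2^25`. (6) SUM. `BB k < b 64^(i+1)` for the largest
`i` with `b 64^i ≤ BB k`, so `BB k ≤ 64 (b + ∑_{i ∈ Icc 1 L, k ∈ XX i} b 64^i)` by (3) (`i < L`). -/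
def S_Bb : Prop := ∀ (N : ℕ) (b : ℝ) (L : ℕ), 0 < b →
  (∀ F k, F k ≤ BB N b L F k) ∧
  (∀ F F' : ℕ → ℝ, (∀ k, F k ≤ F' k) → ∀ k, BB N b L F k ≤ BB N b L F' k) ∧
  ∀ F : ℕ → ℝ, (∀ k, b ≤ F k) → (∀ k, F k < b * 64 ^ L) →
    (∀ k, 1 ≤ k → k ≤ N → ∀ i, b * 64 ^ i ≤ BB N b L F k → k ∈ XX N b L F i) ∧
    (∀ k, 1 ≤ k → k ≤ N → ∀ i, 1 ≤ i → k ∉ TT N (XX N b L F (i + 3)) → b * 64 ^ (i - 1) ≤ F k →
      BB N b L F k = F k) ∧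
    (∀ a k e, 1 ≤ a → a ≤ k → k ≤ e → e ≤ N →
      ((e + 1 - a : ℕ) : ℝ) / BB N b L F k ≤ 2 ^ 25 * ∑ m ∈ Icc a e, 1 / BB N b L F m) ∧
    ∑ k ∈ Icc 1 N, BB N b L F k ≤
      64 * (b * N + ∑ i ∈ Icc 1 L, b * 64 ^ i * ((XX N b L F i).card : ℝ))

/-! ## Steps -/

/-- (Ab) USES `S_Bb` ((1): `BB ≥ F ≥ b > 0`). PROOF. `Self`: everything is unchanged except `r v`,
`us v` (`hF` by `fF`; `ua`: if `us σ' x ≠ us σ x` then `x = v`, `s > 0`, `us σ v < us σ v + s ≤ c v`).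
`Move`: `0 ≤ mL, mR ≤ 1`; both sides cannot be dead (`mL + mR = 1`); `uL, uR ≥ 0`. The change of `us x` is
`s mL` at `gl` (if `gl ≠ v`), `s mR` at `gr` (if `gr ≠ v`), `0` at the other nodes; at `v`:
`s - s mL - s mR = 0` if `gl < v < gr`; if `gl = v` then the left side is dead (`us v = c v`), `mL = 0`,
`mR = 1`: again `0`; in the same way for `gr = v`. `q ≥ 0` and `qq ≥ 0`: on `[gl, v]`, left live:
`q - mL ∑_{Ioc x v} = mL ∑_{Ioc gl x} ≥ 0`, left dead: `mL = 0`, `qq = q ≥ 0`. At a free node `x` of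
`[gl, gr]`: `x = gl` or `x = gr`, live, `qq = 0`. Slopes (`k ≥ 1`, `d` = the change of `f k`):
`k ∈ Ioc gl v`: `s (qq (k-1) - qq k) = - s mL uL k`, `d = - s mL`; `k ∈ Ioc v gr`: `s mR uR k`, `d = s mR`;
all other `k ∈ Icc 1 N`: `d = 0` and `qq (k-1) = qq k = 0`: outside of `[gl, gr]` both are `0`; the edge `gl`
(`gl ≥ 1`): `gl` is live, `qq gl = 0`; the edge `gr + 1 ≤ N`: `gr` is live, `qq gr = 0`. -/
def S_Ab : Prop := ∀ (N : ℕ) (c : ℕ → ℝ) (D : ℕ) (b ε : ℝ) (L : ℕ) (σ : St) (v : ℕ) (s : ℝ) (σ' : St),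
  0 < b → 0 ≤ s → v ≤ N → Inv N c b ε σ → Stp N c D b L σ v s σ' → AbS N c D b L σ v s σ'

/-- (In) USES `S_Tt`, `S_Xx`, `S_Bb`, `S_Ab`. PROOF. (1) From `AbS`. Slopes: if not saturated then `sl' = sl + d / BB`,
`|d| ≤ s ≤ ε`, `BB ≥ b`; if `d > 0` then `sl < 1` and `sl' ≥ sl`, so `-(1 + ε/b) ≤ sl ≤ sl' ≤ 1 + ε/b`; the same
for `d < 0`; `d = 0` or saturated: unchanged. `pf`: if `us σ' x < c x` then `us σ x ≤ us σ' x < c x`, so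
`σ'.p x = σ.p x = 0`. (2) Induction on `t` with (1); `Inv` of the initial state: `c ≥ 0`. (3) iterate. -/
def S_In : Prop := (∀ (N : ℕ) (c : ℕ → ℝ) (D : ℕ) (b ε : ℝ) (L : ℕ) (σ : St) (v : ℕ) (s : ℝ) (σ' : St),
    0 < b → 0 ≤ s → s ≤ ε → v ≤ N → Inv N c b ε σ → Stp N c D b L σ v s σ' → Inv N c b ε σ') ∧
  ∀ (N : ℕ) (c : ℕ → ℝ) (D : ℕ) (b ε : ℝ) (L M : ℕ) (σ : ℕ → St) (v : ℕ → ℕ) (s : ℕ → ℝ),
    Rn N c D b ε L M σ v s →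
    (∀ t, t ≤ M → Inv N c b ε (σ t)) ∧
    (∀ t, t < M → AbS N c D b L (σ t) (v t) (s t) (σ (t + 1))) ∧
    (∀ t t', t ≤ t' → t' ≤ M → ∀ k, (σ t).F k ≤ (σ t').F k ∧ (σ t).p k ≤ (σ t').p k ∧
      (σ t).r k ≤ (σ t').r k ∧ BB N b L (σ t).F k ≤ BB N b L (σ t').F k ∧
      ∀ i, TT N (XX N b L (σ t).F i) ⊆ TT N (XX N b L (σ t').F i))

/-- (Py) The price of a step. PROOF. Put `d k = σ'.f k - σ.f k` (`d 0 = d (N+1) = 0`).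
`∑_{k ∈ Icc 1 N} (p (k-1) - p k) d k = ∑_{x ≤ N} p x (d (x+1) - d x)` (Abel), and
`d (x+1) - d x = (r' x - r x) - (us σ' x - us σ x)`, and `p x = 0` if `us σ' x ≠ us σ x` (`ua`, `pf` of `Inv`). -/
def S_Py : Prop := ∀ (N : ℕ) (c : ℕ → ℝ) (D : ℕ) (b ε : ℝ) (L : ℕ) (σ : St) (v : ℕ) (s : ℝ) (σ' : St),
  v ≤ N → Inv N c b ε σ → AbS N c D b L σ v s σ' →
  s * σ.p v = ∑ k ∈ Icc 1 N, sl σ k * (σ'.f k - σ.f k)

/-- (Ed) One edge, one step. `B ≤ B'` = regularized capacities before and after, `f' - f` = change of the flow.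
PROOF. `D = B g - f`, `D' = B' g' - f'`. Saturated, `f' > f`: `g ≥ 1`, `g' = g`, `D ≥ B - |f| ≥ 0`,
`D' ≥ B' - |f'| ≥ 0`, `D' = D + (B' - B) g - (f' - f)`, so `f' - f = D - D' + (B' - B) g ≤ |D| - |D'| + (1+θ)(B' - B)`,
`g (f' - f) ≤ (1+θ) (f' - f)`. Not saturated: `D' = D + (B' - B) g'`, `|D'| ≤ |D| + (1+θ)(B' - B)`;
`g (f' - f) ≤ B (g'^2 - g^2) / 2` as `g' = g + (f' - f) / B`, and `B g'^2 ≤ B' g'^2`. -/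
def S_Ed : Prop := ∀ (B B' f f' g g' θ : ℝ), 0 < B → B ≤ B' → 0 ≤ θ → θ ≤ 1 / 512 → |f| ≤ B → |f'| ≤ B' →
  |g| ≤ 1 + θ → |g'| ≤ 1 + θ →
  ((((0 < f' - f ∧ 1 ≤ g) ∨ (f' - f < 0 ∧ g ≤ -1)) ∧ g' = g) →
    |f' - f| ≤ |B * g - f| - |B' * g' - f'| + (1 + θ) * (B' - B) ∧
    g * (f' - f) ≤ B' * g' ^ 2 / 2 - B * g ^ 2 / 2 + (1 + θ) * |f' - f|) ∧
  (g' = g + (f' - f) / B →
    0 ≤ |B * g - f| - |B' * g' - f'| + (1 + θ) * (B' - B) ∧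
    g * (f' - f) ≤ B' * g' ^ 2 / 2 - B * g ^ 2 / 2)

/-- (Sp) Price and saturated current. USES `S_Bb`, `S_In`, `S_Py`, `S_Ed`. PROOF. For every edge
sum `S_Ed` over the steps (`BB` monotone in time, `|f| ≤ F ≤ BB`; `top` for the second part of `S_Bb` is not needed):
`∑ |d| 1[Sat] ≤ 0 + (1+θ) BB_M` (`D = 0` at the start), and
`∑ g d ≤ (1+θ)^2 BB_M / 2 + (1+θ) ∑ |d| 1[Sat] ≤ 3 BB_M`. Sum over the edges, `S_Py`. -/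
def S_Sp : Prop := ∀ (N : ℕ) (c : ℕ → ℝ) (D : ℕ) (b ε : ℝ) (L M : ℕ) (σ : ℕ → St) (v : ℕ → ℕ)
  (s : ℕ → ℝ), Rn N c D b ε L M σ v s →
  ∑ t ∈ range M, YY N (σ t) (σ (t + 1)) ≤ 2 * ∑ k ∈ Icc 1 N, BB N b L (σ M).F k ∧
  ∑ t ∈ range M, s t * (σ t).p (v t) ≤ 3 * ∑ k ∈ Icc 1 N, BB N b L (σ M).F k

/-! ## Synchronization and level sets -/

/-- (Qs) Synchronization, one step (`B = F`). `Δ = g - f / F`, `Δ' = g' - f' / F'`. PROOF. By the symmetry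
`(f, g) → (-f, -g)` let `f' ≥ f`. `f' = f`: nothing changes (`F' = F`). `f' > f` (then `f' ≥ -F`, so
`F' = max F f'`). Not saturated (`g < 1`, `g' = g + (f'-f)/F < 1 + θ`): if `f' ≤ F` then `Δ' = Δ`; if `f' > F` then
`F' = f'`, `Δ' = g' - 1 < θ` and `Δ' = Δ + (F'/F - 1)`; if `Δ' ≥ -θ` the left side is `0`, otherwise
`|Δ'| = |Δ| - (F'/F - 1)`. Saturated (`1 ≤ g = g' ≤ 1 + θ`): `Δ ≥ 0`; if `f' ≤ F` then `0 ≤ Δ' ≤ Δ`; if `f' > F`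
then `0 ≤ Δ' = g - 1 ≤ θ`. -/
def S_Qs : Prop := ∀ (F F' f f' g g' θ : ℝ), 0 < F → F' = max F |f'| → |f| ≤ F → 0 ≤ θ → |g| ≤ 1 + θ →
  |f' - f| ≤ θ * F →
  (((0 < f' - f ∧ 1 ≤ g) ∨ (f' - f < 0 ∧ g ≤ -1)) → g' = g) →
  (¬ ((0 < f' - f ∧ 1 ≤ g) ∨ (f' - f < 0 ∧ g ≤ -1)) → g' = g + (f' - f) / F) →
  max (|g' - f' / F'| - θ) 0 ≤ max (max (|g - f / F| - θ) 0 - (F' / F - 1)) 0

/-- (Sy) Synchronization. USES `S_Bb`, `S_In`, `S_Qs`. PROOF. `θ = ε/b`,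
`q t = max (|sl - f/F| - θ) 0` at time `t`. For all `t' ≤ t`: `k ∉ TT N (XX F_{t'} (i+3))` (monotone in time), so
`BB = F` at time `t'` as soon as `F_{t'} k ≥ b 64^(i-1)` (`S_Bb` (4)). Let `t0 ≤ t` be the first time with
`F k ≥ b 64^(i-1)` (it exists, `F_t k ≥ b 64^i / 4`). From `t0` on `S_Qs` holds in every step, so, with
`x - 1 ≥ log x`, `q t ≤ max (q t0 - log (F_t / F_{t0})) 0` (induction). If `t0 = 0`: `q 0 = 0`. If `t0 > 0`: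
`F_{t0} k ≤ b 64^(i-1) + ε ≤ 2 b 64^(i-1)` (one step changes `f` by at most `ε ≤ b`), `q t0 ≤ 2`, and
`F_t k ≥ b 64^i / 4 = 16 b 64^(i-1) ≥ 8 F_{t0} k`, `log 8 > 2` (`log 2 > 0.69`). So `q t = 0`. -/
def S_Sy : Prop := ∀ (N : ℕ) (c : ℕ → ℝ) (D : ℕ) (b ε : ℝ) (L M : ℕ) (σ : ℕ → St) (v : ℕ → ℕ)
  (s : ℕ → ℝ), Rn N c D b ε L M σ v s → ∀ t, t ≤ M → ∀ k, 1 ≤ k → k ≤ N → ∀ i, 1 ≤ i →
  b * 64 ^ i / 4 ≤ (σ t).F k → k ∉ TT N (XX N b L (σ t).F (i + 3)) →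
  |sl (σ t) k - (σ t).f k / (σ t).F k| ≤ ε / b

/-- (Ls) Level sets. USES `S_In`, `S_Sy`. PROOF. `λ = b 64^i`, `θ = ε/b ≤ 1/512`, `D = f_t - S`. If `|S k| > λ/4`
take the interval `{k}` (`om ≥ 577 ≥ 1`). Let `|S k| ≤ λ/4`. FIRST PART (`f_t k ≥ λ`, `D k ≥ λ/2`). At a node
`x ≤ N` with `us x = c x` (at time `t`): `D (x+1) = D x + (r_t x - c x) - (S (x+1) - S x) ≤ D x` (`r_t ≤ r_M`). Go
down from `k`: claim: there is `j < k` with `us j < c j` (free) and all edges `m ∈ Icc (j+1) k` have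
`D m ≥ λ/2`. (Induction: if `D m ≥ λ/2 > 0` then `m ≥ 1`, as `D 0 = 0`; look at
the node `m - 1`: if it is free stop, otherwise `D (m-1) ≥ D m`.) So `p_t j = 0`,
`∑_{m ∈ Icc (j+1) k} sl m = p j - p k ≤ 0`. Let `J = Icc (j+1) k`, `A` = the `m ∈ J` with `|S m| > λ/4` or
`m ∈ TT N (XX F_M (i+3))`, `Z` = the `m ∈ J \ A` with `F_t m > 64 λ` (so `F_M m ≥ b 64^(i+1)`), `G = J \ A \ Z`. For
`m ∈ J \ A`: `f_t m = D m + S m ≥ λ/4`, so `F_t m ≥ λ/4`, and `m ∉ TT N (XX F_t (i+3))`, so by `S_Sy`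
`sl m ≥ f_t m / F_t m - θ`; this is `≥ 1/256 - 1/512 = 1/512` on `G`, `≥ -θ ≥ -1/512` on `Z`; on `A`:
`sl m ≥ -(1+θ)`. So `card G / 512 ≤ card Z / 512 + (513/512) card A`, `card J ≤ 2 card Z + 514 card A ≤ ∑ om`.
SECOND PART (`f_t k ≤ -λ`, `D k ≤ -λ/2`): go up: there is a free node `j`, `k ≤ j ≤ N`, with `D m ≤ -λ/2`
for all `m ∈ Icc k j` (`D (N+1) = 0`); `∑_{m ∈ Icc k j} sl m = p (k-1) - p j ≥ 0`; the same count. -/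
def S_Ls : Prop := ∀ (N : ℕ) (c : ℕ → ℝ) (D : ℕ) (b ε : ℝ) (L M : ℕ) (σ : ℕ → St) (v : ℕ → ℕ)
  (s : ℕ → ℝ) (S : ℕ → ℝ), Rn N c D b ε L M σ v s → Off N c (σ M).r S → ∀ t, t ≤ M →
  ∀ k, 1 ≤ k → k ≤ N → ∀ i, 1 ≤ i →
  (b * 64 ^ i ≤ (σ t).f k →
    ∃ j, 1 ≤ j ∧ j ≤ k ∧ ((k + 1 - j : ℕ) : ℝ) ≤ ∑ m ∈ Icc j k, om N b L (σ M).F S i m) ∧
  ((σ t).f k ≤ -(b * 64 ^ i) →
    ∃ j, k ≤ j ∧ j ≤ N ∧ ((j + 1 - k : ℕ) : ℝ) ≤ ∑ m ∈ Icc k j, om N b L (σ M).F S i m)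

/-- (Bt) The regularized capacity at the end. USES `S_Cov`, `S_Tt`, `S_Xx`, `S_Bb`, `S_In`, `S_Ls`. PROOF.
`μ i = b 64^i`, `Y i = {k ∈ Icc 1 N : F_M k ≥ μ i}`, `X i = XX F_M i`, `A i = {k ∈ Icc 1 N : |S k| > μ i / 4}`, `i ≥ 1`.
`F_M k ≥ μ i > b` gives a time `t ≤ M` with `|f_t k| ≥ μ i` (`F` is the running maximum), so by `S_Ls` and
`S_Cov` (both parts): `card (Y i) ≤ 2 ∑_{m ∈ Icc 1 N} om i m ≤ 4 card (Y (i+1)) + 1154 (card (A i) + 8 card (X (i+3)))`;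
`card (X i) ≤ card (Y i) + 8 card (X (i+3))`. `X i = Y i = ∅` for `i ≥ L`. With
`x = ∑_{i ∈ Icc 1 L} μ i card (X i)`, `y`, `a` for `Y`, `A`: `x ≤ y + 8/64^3 x`, `y ≤ 4/64 y + 1154 a + 9232/64^3 x`,
so `x ≤ 2 y`, `y ≤ 1400 a`, and `a ≤ 5 ∑ |S k|` (`∑_{i : μ i < 4 |S k|} μ i ≤ (64/63) 4 |S k|`, geometric sum).
`S_Bb` (6): `∑ BB ≤ 64 (b N + x) ≤ 10^6 (∑ |S k| + b N)`. -/
def S_Bt : Prop := ∀ (N : ℕ) (c : ℕ → ℝ) (D : ℕ) (b ε : ℝ) (L M : ℕ) (σ : ℕ → St) (v : ℕ → ℕ)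
  (s : ℕ → ℝ) (S : ℕ → ℝ), Rn N c D b ε L M σ v s → Off N c (σ M).r S →
  ∑ k ∈ Icc 1 N, BB N b L (σ M).F k ≤ 10 ^ 6 * (∑ k ∈ Icc 1 N, |S k| + b * N)

/-! ## The cost of a step -/

/-- (Ca) The cost of a step. USES `S_Bb`. `C = 2^25` (regularity). PROOF. Left edges `Ioc gl v` (`l` of them), right edges
`Ioc v gr` (`r`). `mo = s (mL l + mR r)`. One side dead (`m = 0` there): `mo = s * (live length) = s * rh`.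
Both live: by symmetry `r ≤ l` (`rh = r`); it is enough that `s mL l ≤ 4 C s r + 2 C YY`. `YY ≥ s mL n`, `n` = the
number of `k ∈ Ioc gl v` with `sl k ≤ -1` (if `s mL > 0` these edges are saturated). If `2 C n ≥ l`:
`s mL l ≤ 2 C YY`. Otherwise, by the regularity for `Icc (gl+1) v`, `∑_{sl k ≤ -1} 1/BB k ≤ n C u(left)/l < u(left)/2`
(`u(J) = ∑_J 1/BB`), so `∑ uL ≥ u(left)/2 > 0` and `mL u(left)/2 ≤ mL ∑ uL = mR ∑ uR ≤ u(right)`. Regularity for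
`Icc (gl+1) gr` and `k ∈ Ioc v gr`, summed: `u(right) ≤ r C (u(left)+u(right))/(l+r)`. If `2 r C ≤ l + r`:
`u(right) ≤ 2 r C u(left)/(l+r)`, so `mL l ≤ 4 C r`. If `l < 2 r C`: `mL l ≤ l ≤ 2 C r`. -/
def S_Ca : Prop := ∀ (N : ℕ) (c : ℕ → ℝ) (D : ℕ) (b ε : ℝ) (L : ℕ) (σ : St) (v : ℕ) (s : ℝ) (σ' : St)
  (gl gr : ℕ) (mL mR q : ℝ), 0 < b → 0 ≤ s → (∀ k, σ.F k < b * 64 ^ L) → Inv N c b ε σ →
  Move N c D b L σ v s σ' gl gr mL mR q →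
  mo N σ σ' ≤ (4 * 2 ^ 25 + 1) * (s * rh c σ v gl gr + YY N σ σ')

/-- (Ra) The price is raised on the whole block. USES `S_Bb`, `S_Ca`. `C = 2^25`. PROOF. All live sides have length `≥ H`.
Let `mR ≥ 1/2` (the other case `mL ≥ 1/2` is symmetric); the right side is live. `Z = Ioc v (v+H) ⊆ Ioc v gr`,
`n` = the number of `k ∈ Z` with `1 ≤ sl k`. If `2 C n ≥ H`: `YY ≥ s mR n ≥ s H/(4 C)`, and by `S_Ca`
`mo ≤ (4C+1)(2 s H + YY) ≤ (4C+1)(8C+1) YY` (first alternative). Otherwise by the regularity for `Z` (all `k ∈ Z`: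
`1/BB k ≤ C u(Z)/H`) `∑_Z uR ≥ u(Z)/2`, so `q = mR ∑ uR ≥ u(Z)/4`. Let `x` be as in the statement. `x ≤ v`: then
`gl ≤ x`: if `x < gl` then `v - gl < H`, so the left side is dead and `gl = 0`, a contradiction.
Regularity for `Icc (x+1) (v+H)` and `k ∈ Ioc x v`, summed:
`u(Ioc x v) ≤ (v-x) C (u(Ioc x v) + u(Z))/H ≤ (u(Ioc x v) + u(Z))/9`, so `u(Ioc x v) ≤ u(Z)/8`; `mL ≤ 1/2`, so
`qq x ≥ q - u(Z)/16 ≥ (3/4) q`. `v < x`: `x ≤ v + H/(9C) ≤ gr`, `u(Ioc v x) ≤ (x-v) C u(Z)/H ≤ u(Z)/9`,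
`mR u(Z) ≤ 2 q`, so `qq x ≥ q - mR u(Z)/9 ≥ (3/4) q`. In both cases `qq x ≥ (3/16) u(Z)`, and Cauchy-Schwarz
`u(Z) * ∑_Z BB ≥ H^2`, `Z ⊆ nr N v H`, `∑_Z BB ≤ E`. -/
def S_Ra : Prop := ∀ (N : ℕ) (c : ℕ → ℝ) (D : ℕ) (b ε : ℝ) (L : ℕ) (σ : St) (v : ℕ) (s : ℝ) (σ' : St)
  (gl gr : ℕ) (mL mR q : ℝ) (H : ℕ) (E : ℝ), 0 < b → 0 ≤ s → (∀ k, σ.F k < b * 64 ^ L) →
  Inv N c b ε σ → Move N c D b L σ v s σ' gl gr mL mR q → 1 ≤ H → H ≤ rh c σ v gl gr →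
  rh c σ v gl gr < 2 * H → ∑ k ∈ nr N v H, BB N b L σ.F k ≤ E → 0 < E →
  mo N σ σ' ≤ (4 * 2 ^ 25 + 1) * (8 * 2 ^ 25 + 1) * YY N σ σ' ∨
  ∀ x, x ≤ N → x * (9 * 2 ^ 25) ≤ v * (9 * 2 ^ 25) + H → v * (9 * 2 ^ 25) ≤ x * (9 * 2 ^ 25) + H →
    σ.p x + s * (3 / 16 * H ^ 2 / E) ≤ σ'.p x

/-- (Lb) Labels. `B = 9 * 2^25`. PROOF. (1) `v / m * m ≤ v`, `(v / m * m) / m = v / m`. (2) Same block:
`|v - x| < bl i`, so `|v - x| ≤ 2^i / B`, `|v - x| * B ≤ 2^i`. (3) `v - λ < bl i ≤ 2^i + 1`, so `v - λ ≤ 2^i`.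
(4) Exchange the sums: for every `k` the number of labels `λ` (multiples of `bl i`) with `k ∈ nr λ (2 * 2^i)` is
at most `4 * 2^i / bl i + 1 ≤ 4 * B + 1`. -/
def S_Lb : Prop := ∀ (N i : ℕ),
  (∀ v, lab i v ≤ v ∧ lab i (lab i v) = lab i v) ∧
  (∀ v x, lab i v = lab i x → x * (9 * 2 ^ 25) ≤ v * (9 * 2 ^ 25) + 2 ^ i ∧
    v * (9 * 2 ^ 25) ≤ x * (9 * 2 ^ 25) + 2 ^ i) ∧
  (∀ v, nr N v (2 ^ i) ⊆ nr N (lab i v) (2 * 2 ^ i)) ∧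
  ∀ (B : ℕ → ℝ), (∀ k, 0 ≤ B k) →
    ∑ x ∈ (range (N + 1)).image (lab i), ∑ k ∈ nr N x (2 * 2 ^ i), B k ≤
      (36 * 2 ^ 25 + 3) * ∑ k ∈ Icc 1 N, B k

/-- (Cnt) Counting (abstract). `R t`: the step `t` raises. PROOF. For `t` with `R t` and
`pr t ≥ 2^(sc t)/√K` (high): `cs t ≤ C2 (2 s √K pr + Y)`. Low steps: for fixed `(i, λ)` let `t*` be the last low
step with `sc = i`, `lb = λ`, `H = 2^i`, `E = E i λ`: adding the increases (`p (·) (v t*)` is monotone in time,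
`≥ 0`) `pr t* ≥ (∑_{t < t*} s t) κ H^2/E`, and `pr t* < H/√K`, so `∑_{t < t*} s t ≤ E/(κ H √K)`,
`s t* ≤ ε ≤ E/(√K H)`. So `∑ cs ≤ C2 (2 H (1/κ + 1) E/(H √K) + ∑ Y)` over this class, and
`∑_{i<K} ∑_λ E i λ ≤ K C5 T`, `K / √K = √K`. -/
def S_Cnt : Prop := ∀ (M K : ℕ) (s pr cs Y : ℕ → ℝ) (sc lb v : ℕ → ℕ) (p : ℕ → ℕ → ℝ) (E : ℕ → ℕ → ℝ)
  (Λ : ℕ → Finset ℕ) (R : ℕ → Prop) (ε C2 C4 C5 κ T : ℝ), 1 ≤ K → 0 ≤ C2 → 0 ≤ C4 → 0 < κ → 0 ≤ T → 0 ≤ C5 →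
  (∀ t, t < M → 0 ≤ s t ∧ s t ≤ ε ∧ 0 ≤ Y t ∧ pr t = p t (v t)) →
  (∀ t t', t < M → t' < M → 0 ≤ p t (v t') ∧ p t (v t') ≤ p (t + 1) (v t')) →
  (∀ t, t < M → ¬ R t → cs t ≤ C4 * Y t) →
  (∀ t, t < M → R t → cs t ≤ C2 * (2 * s t * 2 ^ (sc t) + Y t) ∧ sc t < K ∧ lb t ∈ Λ (sc t) ∧
    0 < E (sc t) (lb t) ∧ ε ≤ E (sc t) (lb t) / (Real.sqrt K * 2 ^ (sc t))) →
  (∀ t t', t < t' → t' < M → R t → R t' → sc t = sc t' → lb t = lb t' →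
    p t (v t') + s t * (κ * (2 ^ (sc t)) ^ 2 / E (sc t) (lb t)) ≤ p (t + 1) (v t')) →
  (∀ i, i < K → ∑ x ∈ Λ i, E i x ≤ C5 * T) → (∀ i x, i < K → x ∈ Λ i → 0 ≤ E i x) →
  ∑ t ∈ range M, cs t ≤ (C2 + C4) * ∑ t ∈ range M, Y t + 2 * C2 * Real.sqrt K * ∑ t ∈ range M, s t * pr t +
    2 * C2 * (1 / κ + 1) * C5 * Real.sqrt K * T

/-- (Mn) The movement of a run. USES `S_Bb`, `S_In`, `S_Sp`, `S_Bt`, `S_Ca`, `S_Ra`, `S_Lb`, `S_Cnt`. PROOF. `K' = K + 1`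
scales, `C2 = 4 * 2^25 + 1`, `C4 = C2 (8 * 2^25 + 1)`, `C5 = 36 * 2^25 + 3`, `κ = 3/16`, `T = ∑_{Icc 1 N} BB_M`,
`cs t = mo`, `Y t = YY`, `p t x = (σ t).p x`. A `Self` step has `mo = 0`. A `Move`
step: at least one side is live and then its length is `≥ 1` (`us gl < c gl`, `us v = c v`), so `1 ≤ rh ≤ D`;
`sc t = Nat.log 2 rh ≤ K`, `H = 2^(sc t) ≤ rh < 2 H`, `lb t = lab (sc t) (v t)`, `E i λ = ∑_{k ∈ nr N λ (2 * 2^i)} BB_M k`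
(`BB_M ≥ b > 0`), `Λ i = (range (N + 1)).image (lab i)`. By `S_Lb` (3) and the monotonicity of `BB`:
`∑_{nr v H} BB_t ≤ E`; `nr N v H` contains the `H` edges of a live side next to `v`, so
`E ≥ b H`, `ε ≤ b/√K' ≤ E/(√K' H)`. `R t` = `Move` with the second alternative of `S_Ra` (if it fails the first one
holds; `Self` is not `R`, `YY ≥ 0`). The increase at `v t'` (same scale and label): `S_Lb` (2). So
`∑ mo ≤ (C2 + C4) 2 T + 2 C2 √K' 3 T + 2 C2 (16/3 + 1) C5 √K' T ≤ C √K T` (`√K' ≤ 2 √K`), and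
`T ≤ 10^6 (∑ |S| + b N)` by `S_Bt`. -/
def S_Mn : Prop := ∃ C : ℝ, 0 < C ∧ ∀ (N : ℕ) (c : ℕ → ℝ) (D K : ℕ) (b ε : ℝ) (L M : ℕ)
  (σ : ℕ → St) (v : ℕ → ℕ) (s : ℕ → ℝ) (S : ℕ → ℝ), 1 ≤ K → D ≤ 2 ^ K → Rn N c D b ε L M σ v s →
  Off N c (σ M).r S → ε ≤ b / Real.sqrt ((K + 1 : ℕ) : ℝ) →
  ∑ t ∈ range M, mo N (σ t) (σ (t + 1)) ≤
    C * Real.sqrt K * (∑ k ∈ Icc 1 N, |S k| + b * N)

/-- (Mc) The movement is the cost. PROOF. `Self`: both sides are `0` (`|v - v| = 0`). `Move`: `us` changes by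
`s mL` at `gl`, `s mR` at `gr` (nothing at `v`, see `S_Ab`), so the left side is
`s mL (v - gl) + s mR (gr - v) = mo`. -/
def S_Mc : Prop := ∀ (N : ℕ) (c : ℕ → ℝ) (D : ℕ) (b : ℝ) (L : ℕ) (σ : St) (v : ℕ) (s : ℝ) (σ' : St),
  0 ≤ s → v ≤ N → Stp N c D b L σ v s σ' →
  ∑ x ∈ range (N + 1), (us σ' x - us σ x) * |(x : ℝ) - (v : ℝ)| = mo N σ σ'

/-! ## Existence -/

/-- (On) One step. USES `S_Bb`. PROOF. If `us v < c v`: `Self`, `s = min (min τ ε) (c v - us v)`. Let `us v = c v`.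
`gl` = the largest `x ≤ v` with `us x < c x ∨ x = 0`, `gr` = the smallest `x ≥ v`, `x ≤ N`, with
`us x < c x ∨ x = N`. A side is live if `us < c` at its end, otherwise dead. Always
`∑_{x ≤ N} us x = ∑_{x ≤ N} r x` (`f 0 = f (N+1) = 0`). Both dead is impossible: then `us = c` everywhere on
`[0, N]`, so `∑ c = ∑ r < ∑ r + τ ≤ ∑ c`. Distances: if `v > gl + D` then the `D` nodes `gl + 1, …, gl + D` are full,
so `n0 ≤ ∑ c` over them `= ∑ us` over them `≤ ∑ r < n0`, a contradiction; the same on the right (the nodes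
`v, …, v + D - 1`). `A = ∑_{Ioc gl v} uL ≥ 0`, `B = ∑_{Ioc v gr} uR ≥ 0`. Both
live: `mL = B/(A+B)`, `mR = A/(A+B)`, `q = A B/(A+B)` if `A + B > 0`, otherwise `mL = mR = 1/2`, `q = 0`. Only the
right (left) side live: `mL = 0`, `mR = 1`, `q = B` (`mL = 1`, `mR = 0`, `q = A`). `s` = the minimum of `τ`, `ε`,
`(c gl - us gl)/mL` (if `mL > 0`), `(c gr - us gr)/mR` (if `mR > 0`), positive. If `s` is one of the last two,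
then `gl` (or `gr`) is full after the step. -/
def S_On : Prop := ∀ (N : ℕ) (c : ℕ → ℝ) (D : ℕ) (b ε n0 : ℝ) (L : ℕ) (σ : St) (v : ℕ) (τ : ℝ),
  0 < b → 0 < ε → v ≤ N → 0 < τ → Inv N c b ε σ → 1 ≤ D →
  (∀ x, x + D ≤ N + 1 → n0 ≤ ∑ y ∈ Ico x (x + D), c y) →
  ∑ x ∈ range (N + 1), σ.r x + τ ≤ n0 → ∑ x ∈ range (N + 1), σ.r x + τ ≤ ∑ x ∈ range (N + 1), c x →
  ∃ (s : ℝ) (σ' : St), 0 < s ∧ s ≤ ε ∧ s ≤ τ ∧ Stp N c D b L σ v s σ' ∧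
    (s = τ ∨ s = ε ∨ ∃ x, x ≤ N ∧ us σ x < c x ∧ us σ' x = c x)

/-- (Ex) A request. USES `S_Ab`, `S_In`, `S_On`. PROOF. Iterate `S_On` (induction on the number of nodes `x ≤ N` with
`us x < c x` plus `⌈τ/ε⌉`; every step finishes, uses the mass `ε` or fills a node; full nodes stay full by
`S_Ab` (`um`, `uc`)). `∑ r + τ` is unchanged. -/
def S_Ex : Prop := ∀ (N : ℕ) (c : ℕ → ℝ) (D : ℕ) (b ε n0 : ℝ) (L : ℕ) (σ : St) (v : ℕ) (τ : ℝ),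
  0 < b → 0 < ε → v ≤ N → 0 ≤ τ → Inv N c b ε σ → 1 ≤ D →
  (∀ x, x + D ≤ N + 1 → n0 ≤ ∑ y ∈ Ico x (x + D), c y) →
  ∑ x ∈ range (N + 1), σ.r x + τ ≤ n0 → ∑ x ∈ range (N + 1), σ.r x + τ ≤ ∑ x ∈ range (N + 1), c x →
  ∃ (M : ℕ) (σs : ℕ → St) (s : ℕ → ℝ), σs 0 = σ ∧ (∀ t, t < M → 0 ≤ s t ∧ s t ≤ ε ∧
    Stp N c D b L (σs t) v (s t) (σs (t + 1))) ∧ ∑ t ∈ range M, s t = τ

/-- (Co) THE CORE (`SO/Defs.lean`). USES `S_Ab`, `S_In`, `S_Mn`, `S_Mc`, `S_Ex`. PROOF. `N = E`.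
`ε = min (b/512) (b/√(K + 1))`, `L` with `b + ∑_{x ≤ E} c x < b 64^L`. Define the state after the list `l` recursively
by choice: `st [] = ini b`, `st (v :: l)` = the last state of a sequence as in `S_Ex` with `τ = 1`, starting at
`st l`, if there is one (otherwise `st l`); `a l x = us (st l) x` for `x ≤ E`, `0` for `x > E`. For a list as in the
statement: by induction there is a run `Rn` (concatenate the sequences) from `ini b` to `st l`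
with `(st l).r = count`, `(st l).f (k+1) = fl (a l) l k` for `k < E` and `mvN E a l = ∑_t mo` (`S_Mc`, telescoping for
each request: `v` is the same in all steps of a request). `top`: in a run `0 ≤ us ≤ c`, `r ≥ 0`,
`∑_{x ≤ E} (r x - us x) = 0` and `f k = ∑_{x < k} (r x - us x)`, so
`|f k| ≤ ∑_{x ≤ E} c x` (`k ≤ E + 1`; for `k > E` the flow is `0`). `S_Mn` with `S (k+1) = fl u l k` (`k < E`),
`S 0 = S (E+1) = 0`: `Off` since `u ≤ c` and `∑ u = l.length`. -/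
def S_Co : Prop := SO.Core

end Pool.Agent.MP_a4c1f4_lc.SQ
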