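import Pool.Agent.Lib.MP_a4c1f4_lc.SQ.Spec

set_option autoImplicit false

/-!
# SQ, Ab: what a step does
-/

namespace Pool.Agent.MP_a4c1f4_lc.SQ

open Finset

namespace AbM

theorem bbPos {N : ℕ} {c : ℕ → ℝ} {b ε : ℝ} {L : ℕ} {σ : St} (hB : S_Bb) (hb : 0 < b)
    (I : Inv N c b ε σ) (k : ℕ) : 0 < BB N b L σ.F k :=
  lt_of_lt_of_le hb ((I.Fb k).trans ((hB N b L hb).1 σ.F k))

theorem selfP {N : ℕ} {c : ℕ → ℝ} {D : ℕ} {b ε : ℝ} {L : ℕ} {σ : St} {v : ℕ} {s : ℝ} {σ' : St}
    (hs : 0 ≤ s) (I : Inv N c b ε σ) (H : Self c σ v s σ') :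
    AbS N c D b L σ v s σ' := by
  have hu : ∀ x, us σ' x = us σ x + if x = v then s else 0 := by
    intro x
    simp only [us, H.hr, H.hf]
    ring
  have hsl : ∀ k, sl σ' k = sl σ k := by
    intro k
    simp only [sl, H.hp]
  refine ⟨H.hr, H.hf 0, fun k _ => H.hf k, ?_, ?_, ?_, ?_, ?_, ?_, ?_, ?_, ?_, ?_⟩
  · intro x _
    rw [hu]
    split_ifs <;> linarith
  · intro x hx
    rw [hu]
    split_ifs with h
    · subst h; exact H.cap
    · have := I.cap x hx; linarith
  · intro x hx hne
    rw [hu] at hne
    by_cases h : x = v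
    · subst h
      rw [if_pos rfl] at hne
      have h1 : s ≠ 0 := fun h0 => hne (by rw [h0, add_zero])
      have h2 : 0 < s := lt_of_le_of_ne hs (Ne.symm h1)
      have := H.cap
      linarith
    · rw [if_neg h, add_zero] at hne
      exact absurd rfl hne
  · intro x; rw [H.hp]
  · intro x _ _; rw [H.hp]
  · intro k; rw [H.hf, sub_self, abs_zero]; exact hs
  · intro k hk; exact absurd (H.hf k) hk
  · intro k _ _ _; exact hsl k
  · intro k _ _ _; rw [hsl, H.hf, sub_self, zero_div, add_zero]
  · intro k; rw [H.hF, H.hf, max_eq_left (I.fF k)]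

theorem uL0 {N : ℕ} {b : ℝ} {L : ℕ} {σ : St} (hp : ∀ k, 0 < BB N b L σ.F k) (k : ℕ) :
    0 ≤ uL N b L σ k := by
  unfold uL
  split_ifs
  · exact le_refl _
  · exact (one_div_pos.2 (hp k)).le

theorem uR0 {N : ℕ} {b : ℝ} {L : ℕ} {σ : St} (hp : ∀ k, 0 < BB N b L σ.F k) (k : ℕ) :
    0 ≤ uR N b L σ k := by
  unfold uR
  split_ifs
  · exact le_refl _
  · exact (one_div_pos.2 (hp k)).le

theorem moveP {N : ℕ} {c : ℕ → ℝ} {D : ℕ} {b ε : ℝ} {L : ℕ} {σ : St} {v : ℕ} {s : ℝ} {σ' : St}
    {gl gr : ℕ} {mL mR q : ℝ} (hBp : ∀ k, 0 < BB N b L σ.F k)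
    (hs : 0 ≤ s) (hvN : v ≤ N) (I : Inv N c b ε σ)
    (H : Move N c D b L σ v s σ' gl gr mL mR q) :
    AbS N c D b L σ v s σ' := by
  have hgl := H.hgl
  have hgr := H.hgr
  have hN := H.hN
  have hmL := H.mL0
  have hmR := H.mR0
  have hm := H.hm
  have huL := uL0 (N := N) (b := b) (L := L) (σ := σ) hBp
  have huR := uR0 (N := N) (b := b) (L := L) (σ := σ) hBp
  -- gl < gr
  have hlr : gl < gr := by
    rcases lt_or_ge gl gr with h | h
    · exact h
    · exfalso
      have e1 : gl = v := by omega
      have e2 : gr = v := by omega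
      have hv := H.hv
      have a1 : mL = 0 := by
        rcases H.left with h | h
        · rw [e1] at h; linarith [h.1]
        · exact h.2.2
      have a2 : mR = 0 := by
        rcases H.right with h | h
        · rw [e2] at h; linarith [h.1]
        · exact h.2.2
      linarith
  -- the flow
  have dL : ∀ k, gl < k → k ≤ v → σ'.f k - σ.f k = -(s * mL) := by
    intro k h1 h2
    rw [H.hf, if_pos ⟨h1, h2⟩]; ring
  have dR : ∀ k, v < k → k ≤ gr → σ'.f k - σ.f k = s * mR := by
    intro k h1 h2
    rw [H.hf, if_neg (by omega), if_pos ⟨h1, h2⟩]; ring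
  have dO : ∀ k, (k ≤ gl ∨ gr < k) → σ'.f k - σ.f k = 0 := by
    intro k h
    rw [H.hf, if_neg (by omega), if_neg (by omega)]; ring
  -- the used mass
  have hu : ∀ x, us σ' x = us σ x + (if x = gl then s * mL else 0) +
      (if x = gr then s * mR else 0) := by
    intro x
    have key : us σ' x - us σ x = (if x = v then s else 0) + (σ'.f x - σ.f x) -
        (σ'.f (x + 1) - σ.f (x + 1)) := by
      simp only [us, H.hr]; ring
    have key2 : (if x = v then s else 0) + (σ'.f x - σ.f x) - (σ'.f (x + 1) - σ.f (x + 1)) =
        (if x = gl then s * mL else 0) + (if x = gr then s * mR else 0) := by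
      rcases lt_trichotomy x v with hx | hx | hx
      · rw [if_neg (by omega)]
        rw [if_neg (by omega : ¬ x = gr)]
        rcases lt_trichotomy x gl with hy | hy | hy
        · rw [dO x (by omega), dO (x + 1) (by omega), if_neg (by omega)]; ring
        · rw [dO x (by omega), dL (x + 1) (by omega) (by omega), if_pos hy]; ring
        · rw [dL x (by omega) (by omega), dL (x + 1) (by omega) (by omega), if_neg (by omega)]
          ring
      · rw [if_pos hx]
        rcases Nat.lt_or_ge gl x with hy | hy
        · rw [dL x hy (by omega), if_neg (by omega : ¬ x = gl)]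
          rcases Nat.lt_or_ge x gr with hz | hz
          · rw [dR (x + 1) (by omega) (by omega), if_neg (by omega)]
            have : s = s * (mL + mR) := by rw [hm, mul_one]
            linarith
          · rw [dO (x + 1) (by omega), if_pos (by omega)]
            have : s = s * (mL + mR) := by rw [hm, mul_one]
            linarith
        · rw [dO x (by omega), if_pos (by omega : x = gl)]
          rw [dR (x + 1) (by omega) (by omega), if_neg (by omega)]
          have : s = s * (mL + mR) := by rw [hm, mul_one]
          linarith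
      · rw [if_neg (by omega)]
        rw [if_neg (by omega : ¬ x = gl)]
        rcases lt_trichotomy x gr with hy | hy | hy
        · rw [dR x (by omega) (by omega), dR (x + 1) (by omega) (by omega), if_neg (by omega)]
          ring
        · rw [dR x (by omega) (by omega), dO (x + 1) (by omega), if_pos hy]; ring
        · rw [dO x (by omega), dO (x + 1) (by omega), if_neg (by omega)]; ring
    linarith
  have sL0 : 0 ≤ s * mL := mul_nonneg hs hmL
  have sR0 : 0 ≤ s * mR := mul_nonneg hs hmR
  -- liveness at a free node
  have liveL : us σ gl < c gl → q = mL * ∑ k ∈ Ioc gl v, uL N b L σ k := by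
    intro h
    rcases H.left with h1 | h1
    · exact h1.2
    · linarith [h1.2.1]
  have liveR : us σ gr < c gr → q = mR * ∑ k ∈ Ioc v gr, uR N b L σ k := by
    intro h
    rcases H.right with h1 | h1
    · exact h1.2
    · linarith [h1.2.1]
  have hq0 : 0 ≤ q := by
    rcases H.left with h | h
    · rw [h.2]; exact mul_nonneg hmL (sum_nonneg fun k _ => huL k)
    · rcases H.right with h1 | h1
      · rw [h1.2]; exact mul_nonneg hmR (sum_nonneg fun k _ => huR k)
      · exfalso; linarith [h.2.2, h1.2.2]
  -- qq
  have qL : ∀ x, gl ≤ x → x ≤ v → qq N b L σ v gl gr mL mR q x =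
      q - mL * ∑ k ∈ Ioc x v, uL N b L σ k := by
    intro x h1 h2
    unfold qq
    rw [if_pos ⟨h1, h2⟩]
  have qR : ∀ x, v ≤ x → x ≤ gr → qq N b L σ v gl gr mL mR q x =
      q - mR * ∑ k ∈ Ioc v x, uR N b L σ k := by
    intro x h1 h2
    rcases Nat.eq_or_lt_of_le h1 with h | h
    · subst h
      rw [qL v hgl le_rfl]
      simp
    · unfold qq
      rw [if_neg (by omega), if_pos ⟨h, h2⟩]
  have qO : ∀ x, (x < gl ∨ gr < x) → qq N b L σ v gl gr mL mR q x = 0 := by
    intro x h
    unfold qq
    rw [if_neg (by omega), if_neg (by omega)]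
  have qq0 : ∀ x, 0 ≤ qq N b L σ v gl gr mL mR q x := by
    intro x
    by_cases h : x < gl ∨ gr < x
    · rw [qO x h]
    · push Not at h
      rcases le_total x v with hx | hx
      · rw [qL x h.1 hx]
        rcases H.left with h1 | h1
        · rw [h1.2]
          have : ∑ k ∈ Ioc x v, uL N b L σ k ≤ ∑ k ∈ Ioc gl v, uL N b L σ k :=
            sum_le_sum_of_subset_of_nonneg (Ioc_subset_Ioc_left h.1) fun k _ _ => huL k
          have := mul_le_mul_of_nonneg_left this hmL
          linarith
        · rw [h1.2.2]; linarith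
      · rw [qR x hx h.2]
        rcases H.right with h1 | h1
        · rw [h1.2]
          have : ∑ k ∈ Ioc v x, uR N b L σ k ≤ ∑ k ∈ Ioc v gr, uR N b L σ k :=
            sum_le_sum_of_subset_of_nonneg (Ioc_subset_Ioc_right h.2) fun k _ _ => huR k
          have := mul_le_mul_of_nonneg_left this hmR
          linarith
        · rw [h1.2.2]; linarith
  have qfree : ∀ x, x ≤ N → us σ x < c x → qq N b L σ v gl gr mL mR q x = 0 := by
    intro x hx hf
    by_cases h : x < gl ∨ gr < x
    · exact qO x h
    · push Not at h
      rcases Nat.eq_or_lt_of_le h.1 with h1 | h1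
      · subst h1
        rw [qL gl le_rfl hgl, liveL hf]; ring
      · rcases Nat.eq_or_lt_of_le h.2 with h2 | h2
        · subst h2
          rw [qR x hgr le_rfl, liveR hf]; ring
        · exfalso
          have := H.full x h1 h2
          linarith
  -- slopes
  have slL : ∀ k, gl < k → k ≤ v → sl σ' k = sl σ k - s * (mL * uL N b L σ k) := by
    intro k h1 h2
    simp only [sl, H.hp]
    rw [qL (k - 1) (by omega) (by omega), qL k (by omega) h2]
    have e : Ioc (k - 1) v = insert k (Ioc k v) := by
      ext x; simp only [mem_Ioc, mem_insert]; omega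
    rw [e, sum_insert (by simp)]
    ring
  have slR : ∀ k, v < k → k ≤ gr → sl σ' k = sl σ k + s * (mR * uR N b L σ k) := by
    intro k h1 h2
    simp only [sl, H.hp]
    rw [qR (k - 1) (by omega) (by omega), qR k (by omega) h2]
    have e : Ioc v k = insert k (Ioc v (k - 1)) := by
      ext x; simp only [mem_Ioc, mem_insert]; omega
    rw [e, sum_insert (by simp only [mem_Ioc]; omega)]
    ring
  have slO : ∀ k, 1 ≤ k → k ≤ N → (k ≤ gl ∨ gr < k) → sl σ' k = sl σ k := by
    intro k h1 h2 h
    simp only [sl, H.hp]
    have z1 : qq N b L σ v gl gr mL mR q (k - 1) = 0 := by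
      rcases h with h | h
      · exact qO _ (by omega)
      · rcases Nat.lt_or_ge gr (k - 1) with h3 | h3
        · exact qO _ (by omega)
        · have e : k - 1 = gr := by omega
          rw [e]
          apply qfree gr hN
          rcases H.right with h4 | h4
          · exact h4.1
          · exfalso; have := h4.1; omega
    have z2 : qq N b L σ v gl gr mL mR q k = 0 := by
      rcases h with h | h
      · rcases Nat.lt_or_ge k gl with h3 | h3
        · exact qO _ (by omega)
        · have e : k = gl := by omega
          rw [e]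
          apply qfree gl (by omega)
          rcases H.left with h4 | h4
          · exact h4.1
          · exfalso; have := h4.1; omega
      · exact qO _ (by omega)
    rw [z1, z2]; ring
  refine ⟨H.hr, ?_, ?_, ?_, ?_, ?_, ?_, ?_, ?_, ?_, ?_, ?_, H.hF⟩
  · have := dO 0 (Or.inl (Nat.zero_le _)); linarith
  · intro k hk
    have := dO k (by omega); linarith
  · intro x _
    rw [hu]
    split_ifs <;> linarith
  · intro x hx
    rw [hu]
    by_cases h1 : x = gl
    · have h2 : ¬ x = gr := by omega
      rw [if_pos h1, if_neg h2, h1]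
      have := H.capL
      linarith
    · rw [if_neg h1]
      by_cases h2 : x = gr
      · rw [if_pos h2, h2]
        have := H.capR
        linarith
      · rw [if_neg h2]
        have := I.cap x hx
        linarith
  · intro x hx hne
    rw [hu] at hne
    by_cases h1 : x = gl
    · have h2 : ¬ x = gr := by omega
      rw [if_pos h1, if_neg h2] at hne
      rcases H.left with h3 | h3
      · rw [h1]; exact h3.1
      · rw [h3.2.2] at hne
        simp at hne
    · rw [if_neg h1] at hne
      by_cases h2 : x = gr
      · rw [if_pos h2] at hne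
        rcases H.right with h3 | h3
        · rw [h2]; exact h3.1
        · rw [h3.2.2] at hne
          simp at hne
      · rw [if_neg h2] at hne
        simp at hne
  · intro x
    rw [H.hp]
    have := mul_nonneg hs (qq0 x)
    linarith
  · intro x hx hf
    rw [H.hp, qfree x hx hf]; ring
  · intro k
    by_cases h : k ≤ gl ∨ gr < k
    · rw [dO k h, abs_zero]; exact hs
    · push Not at h
      rcases le_or_gt k v with h1 | h1
      · rw [dL k h.1 h1, abs_neg, abs_of_nonneg sL0]
        have : s * (mL + mR) = s := by rw [hm, mul_one]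
        linarith
      · rw [dR k h1 h.2, abs_of_nonneg sR0]
        have : s * (mL + mR) = s := by rw [hm, mul_one]
        linarith
  · intro k hk
    have h : ¬ (k ≤ gl ∨ gr < k) := by
      intro h
      apply hk
      have := dO k h
      linarith
    have := H.dl
    have := H.dr
    omega
  · intro k h1 h2 hS
    by_cases h : k ≤ gl ∨ gr < k
    · exact slO k h1 h2 h
    · push Not at h
      rcases le_or_gt k v with h3 | h3
      · rw [slL k h.1 h3]
        unfold Sat at hS
        rw [dL k h.1 h3] at hS
        rcases hS with hS | hS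
        · exfalso; linarith [hS.1]
        · have : uL N b L σ k = 0 := by unfold uL; rw [if_pos hS.2]
          rw [this]; ring
      · rw [slR k h3 h.2]
        unfold Sat at hS
        rw [dR k h3 h.2] at hS
        rcases hS with hS | hS
        · have : uR N b L σ k = 0 := by unfold uR; rw [if_pos hS.2]
          rw [this]; ring
        · exfalso; linarith [hS.1]
  · intro k h1 h2 hS
    by_cases h : k ≤ gl ∨ gr < k
    · rw [slO k h1 h2 h, dO k h, zero_div, add_zero]
    · push Not at h
      rcases le_or_gt k v with h3 | h3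
      · rw [slL k h.1 h3]
        unfold Sat at hS
        rw [dL k h.1 h3] at hS
        rw [dL k h.1 h3]
        rcases eq_or_lt_of_le sL0 with h4 | h4
        · rw [← h4, ← mul_assoc, ← h4]; simp
        · have h5 : ¬ sl σ k ≤ -1 := fun h6 => hS (Or.inr ⟨by linarith, h6⟩)
          have : uL N b L σ k = 1 / BB N b L σ.F k := by unfold uL; rw [if_neg h5]
          rw [this]; ring
      · rw [slR k h3 h.2]
        unfold Sat at hS
        rw [dR k h3 h.2] at hS
        rw [dR k h3 h.2]
        rcases eq_or_lt_of_le sR0 with h4 | h4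
        · rw [← h4, ← mul_assoc, ← h4]; simp
        · have h5 : ¬ 1 ≤ sl σ k := fun h6 => hS (Or.inl ⟨h4, h6⟩)
          have : uR N b L σ k = 1 / BB N b L σ.F k := by unfold uR; rw [if_neg h5]
          rw [this]; ring

end AbM

theorem abP : S_Bb → S_Ab := by
  intro hB N c D b ε L σ v s σ' hb hs hv I hS
  rcases hS with h | ⟨gl, gr, mL, mR, q, h⟩
  · exact AbM.selfP hs I h
  · exact AbM.moveP (fun k => AbM.bbPos hB hb I k) hs hv I h

end Pool.Agent.MP_a4c1f4_lc.SQ
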