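import Pool.Agent.Lib.MP_a4c1f4_lc.SQ.Spec

set_option autoImplicit false
set_option linter.all false

/-!
SQ, Bb: the regularized capacity.
-/

namespace Pool.Agent.MP_a4c1f4_lc.SQ

open Finset

namespace BbM

theorem mem_TT {N : ℕ} {X : Finset ℕ} {k : ℕ} : k ∈ TT N X ↔ (1 ≤ k ∧ k ≤ N) ∧
    ((∃ i, 1 ≤ i ∧ i ≤ k ∧ k + 1 - i ≤ 4 * (X ∩ Icc i k).card) ∨
    (∃ j, k ≤ j ∧ j ≤ N ∧ j + 1 - k ≤ 4 * (X ∩ Icc k j).card)) := by
  classical
  unfold TT
  rw [Finset.mem_filter, Finset.mem_Icc]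

theorem mem_XX {N : ℕ} {b : ℝ} {L : ℕ} {F : ℕ → ℝ} {i k : ℕ} (h : i < L) :
    k ∈ XX N b L F i ↔ ((1 ≤ k ∧ k ≤ N) ∧ b * 64 ^ i ≤ F k) ∨
      k ∈ TT N (XX N b L F (i + 3)) := by
  rw [XX, if_neg (not_le.2 h), Finset.mem_union, Finset.mem_filter, Finset.mem_Icc]

theorem pw_pos {b : ℝ} (hb : 0 < b) (i : ℕ) : 0 < b * 64 ^ i := by positivity

theorem pw_mono {b : ℝ} (hb : 0 < b) {i j : ℕ} (h : i ≤ j) : b * 64 ^ i ≤ b * 64 ^ j :=
  mul_le_mul_of_nonneg_left (pow_le_pow_right₀ (by norm_num) h) hb.le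

theorem pw_lt {b : ℝ} (hb : 0 < b) {i j : ℕ} (h : i < j) : b * 64 ^ i < b * 64 ^ j :=
  mul_lt_mul_of_pos_left (pow_lt_pow_right₀ (by norm_num) h) hb

theorem le_of_pw_le {b : ℝ} (hb : 0 < b) {i j : ℕ} (h : b * 64 ^ i ≤ b * 64 ^ j) : i ≤ j := by
  by_contra hc
  push Not at hc
  exact absurd (pw_lt hb hc) (not_lt.2 h)

open Classical in
/-- the level of the dense part -/
noncomputable def lv (N : ℕ) (b : ℝ) (L : ℕ) (F : ℕ → ℝ) (k : ℕ) : ℕ :=
  Nat.findGreatest (fun i => k ∈ TT N (XX N b L F (i + 3))) L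

theorem BB_def (N : ℕ) (b : ℝ) (L : ℕ) (F : ℕ → ℝ) (k : ℕ) :
    BB N b L F k = max (F k) (b * 64 ^ lv N b L F k) := rfl

theorem le_BB (N : ℕ) (b : ℝ) (L : ℕ) (F : ℕ → ℝ) (k : ℕ) : F k ≤ BB N b L F k :=
  le_max_left _ _

/-- everything used of the sets -/
structure Hy (N : ℕ) (b : ℝ) (L : ℕ) : Prop where
  hb : 0 < b
  emp : TT N ∅ = ∅
  tm : ∀ X X' : Finset ℕ, X ⊆ X' → TT N X ⊆ TT N X'
  xe : ∀ F i, L ≤ i → XX N b L F i = ∅
  xm : ∀ F F' : ℕ → ℝ, (∀ k, F k ≤ F' k) → ∀ i, XX N b L F i ⊆ XX N b L F' i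
  xa : ∀ F i j, i ≤ j → XX N b L F j ⊆ XX N b L F i
  xs : ∀ F i, XX N b L F i ⊆ Icc 1 N

section
variable {N : ℕ} {b : ℝ} {L : ℕ}

theorem Hy.TTe (h : Hy N b L) (F : ℕ → ℝ) {i k : ℕ} (hi : L ≤ i + 3) :
    k ∉ TT N (XX N b L F (i + 3)) := by
  rw [h.xe F _ hi, h.emp]
  exact Finset.notMem_empty k

theorem Hy.TTa (h : Hy N b L) (F : ℕ → ℝ) {i j k : ℕ} (hij : i ≤ j)
    (hk : k ∈ TT N (XX N b L F (j + 3))) : k ∈ TT N (XX N b L F (i + 3)) :=
  h.tm _ _ (h.xa F _ _ (by omega)) hk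

theorem Hy.TTX (h : Hy N b L) (F : ℕ → ℝ) {i k : ℕ}
    (hk : k ∈ TT N (XX N b L F (i + 3))) : k ∈ XX N b L F i := by
  rcases Nat.lt_or_ge i L with hi | hi
  · exact (mem_XX hi).2 (Or.inr hk)
  · exact absurd hk (h.TTe F (by omega))

theorem le_lv (h : Hy N b L) (F : ℕ → ℝ) {i k : ℕ} (hk : k ∈ TT N (XX N b L F (i + 3))) :
    i ≤ lv N b L F k := by
  classical
  unfold lv
  refine Nat.le_findGreatest ?_ hk
  by_contra hc
  exact h.TTe F (by omega) hk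

theorem lv_mem (F : ℕ → ℝ) {k : ℕ} (hk : 1 ≤ lv N b L F k) :
    k ∈ TT N (XX N b L F (lv N b L F k + 3)) := by
  classical
  unfold lv at hk ⊢
  exact Nat.findGreatest_of_ne_zero (P := fun i => k ∈ TT N (XX N b L F (i + 3))) rfl (by omega)

theorem lv_mono (h : Hy N b L) {F F' : ℕ → ℝ} (hF : ∀ k, F k ≤ F' k) (k : ℕ) :
    lv N b L F k ≤ lv N b L F' k := by
  rcases Nat.eq_zero_or_pos (lv N b L F k) with h0 | h0
  · omega
  · exact le_lv h F' (h.tm _ _ (h.xm F F' hF _) (lv_mem F h0))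

theorem BB_mono (h : Hy N b L) {F F' : ℕ → ℝ} (hF : ∀ k, F k ≤ F' k) (k : ℕ) :
    BB N b L F k ≤ BB N b L F' k := by
  rw [BB_def, BB_def]
  exact max_le_max (hF k) (pw_mono h.hb (lv_mono h hF k))

theorem BB_lt (h : Hy N b L) {F : ℕ → ℝ} (hF : ∀ k, F k < b * 64 ^ L) (hF0 : ∀ k, b ≤ F k)
    (k : ℕ) : BB N b L F k < b * 64 ^ L := by
  rw [BB_def]
  refine max_lt (hF k) ?_
  rcases Nat.eq_zero_or_pos (lv N b L F k) with h0 | h0
  · rw [h0, pow_zero, mul_one]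
    exact (hF0 k).trans_lt (hF k)
  · refine pw_lt h.hb ?_
    by_contra hc
    exact h.TTe F (by omega) (lv_mem F h0)

/-- (3) -/
theorem mem_of_le (h : Hy N b L) {F : ℕ → ℝ} (hF : ∀ k, F k < b * 64 ^ L) (hF0 : ∀ k, b ≤ F k)
    {k i : ℕ} (hk : 1 ≤ k ∧ k ≤ N) (hi : b * 64 ^ i ≤ BB N b L F k) : k ∈ XX N b L F i := by
  have hiL : i < L := by
    by_contra hc
    exact absurd (BB_lt h hF hF0 k) (not_lt.2 ((pw_mono h.hb (by omega)).trans hi))
  rw [BB_def] at hi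
  by_cases hFk : b * 64 ^ i ≤ F k
  · exact (mem_XX hiL).2 (Or.inl ⟨hk, hFk⟩)
  · rcases le_max_iff.1 hi with hi | hi
    · exact absurd hi hFk
    · have h1 := le_of_pw_le h.hb hi
      rcases Nat.eq_zero_or_pos (lv N b L F k) with h0 | h0
      · have : i = 0 := by omega
        rw [this, pow_zero, mul_one] at hFk
        exact absurd (hF0 k) hFk
      · exact (mem_XX hiL).2 (Or.inr (h.TTa F h1 (lv_mem F h0)))

/-- (4) -/
theorem BB_eq (h : Hy N b L) {F : ℕ → ℝ} {k i : ℕ} (hi : 1 ≤ i)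
    (hk : k ∉ TT N (XX N b L F (i + 3))) (hF : b * 64 ^ (i - 1) ≤ F k) : BB N b L F k = F k := by
  rw [BB_def]
  refine max_eq_left ?_
  refine (pw_mono h.hb ?_).trans hF
  by_contra hc
  push Not at hc
  exact hk (h.TTa F (by omega : i ≤ lv N b L F k) (lv_mem F (by omega)))

theorem BB_pos (h : Hy N b L) {F : ℕ → ℝ} (hF0 : ∀ k, b ≤ F k) (k : ℕ) : 0 < BB N b L F k :=
  h.hb.trans_le ((hF0 k).trans (le_BB N b L F k))

theorem exists_level (h : Hy N b L) {F : ℕ → ℝ} (hF : ∀ k, F k < b * 64 ^ L)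
    (hF0 : ∀ k, b ≤ F k) (k : ℕ) :
    ∃ i, i < L ∧ b * 64 ^ i ≤ BB N b L F k ∧ BB N b L F k < b * 64 ^ (i + 1) := by
  classical
  have hL : 0 < L := by
    by_contra hc
    have : L = 0 := by omega
    subst this
    have := (hF0 k).trans_lt (hF k)
    simp at this
  have h0 : ∃ n, BB N b L F k < b * 64 ^ (n + 1) :=
    ⟨L - 1, by rw [Nat.sub_add_cancel hL]; exact BB_lt h hF hF0 k⟩
  have hle := Nat.find_min' h0 (show BB N b L F k < b * 64 ^ (L - 1 + 1) by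
    rw [Nat.sub_add_cancel hL]; exact BB_lt h hF hF0 k)
  refine ⟨Nat.find h0, by omega, ?_, Nat.find_spec h0⟩
  rcases Nat.eq_zero_or_pos (Nat.find h0) with h1 | h1
  · rw [h1, pow_zero, mul_one]
    exact (hF0 k).trans (le_BB N b L F k)
  · have := Nat.find_min h0 (m := Nat.find h0 - 1) (by omega)
    rw [not_lt, Nat.sub_add_cancel h1] at this
    exact this

/-- (5) -/
theorem reg (h : Hy N b L) {F : ℕ → ℝ} (hF : ∀ k, F k < b * 64 ^ L) (hF0 : ∀ k, b ≤ F k)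
    {a k e : ℕ} (ha : 1 ≤ a) (hak : a ≤ k) (hke : k ≤ e) (he : e ≤ N) :
    ((e + 1 - a : ℕ) : ℝ) / BB N b L F k ≤ 2 ^ 25 * ∑ m ∈ Icc a e, 1 / BB N b L F m := by
  classical
  obtain ⟨i, hi, h1, h2⟩ := exists_level h hF hF0 k
  have h3 : k ∉ TT N (XX N b L F (i + 1 + 3)) := by
    intro hk
    have h4 := le_lv h F hk
    have h5 : b * 64 ^ (i + 1) ≤ BB N b L F k := by
      rw [BB_def]
      exact (pw_mono h.hb h4).trans (le_max_right _ _)
    exact absurd h5 (not_le.2 h2)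
  set X := XX N b L F (i + 1 + 3) with hX
  rw [mem_TT] at h3
  push Not at h3
  have h4 := (h3 ⟨by omega, by omega⟩).1 a ha hak
  have h5 := (h3 ⟨by omega, by omega⟩).2 e hke he
  have h6 : (X ∩ Finset.Icc a e).card ≤ (X ∩ Finset.Icc a k).card + (X ∩ Finset.Icc k e).card := by
    have : X ∩ Finset.Icc a e ⊆ (X ∩ Finset.Icc a k) ∪ (X ∩ Finset.Icc k e) := by
      intro j hj
      rw [Finset.mem_inter, Finset.mem_Icc] at hj
      rw [Finset.mem_union, Finset.mem_inter, Finset.mem_inter, Finset.mem_Icc, Finset.mem_Icc]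
      rcases le_total j k with h | h
      · exact Or.inl ⟨hj.1, hj.2.1, h⟩
      · exact Or.inr ⟨hj.1, h, hj.2.2⟩
    exact (Finset.card_le_card this).trans (Finset.card_union_le _ _)
  have h7 : 2 * (X ∩ Finset.Icc a e).card ≤ e + 1 - a := by omega
  have h8 : e + 1 - a ≤ 2 * (Finset.Icc a e \ X).card := by
    have := Finset.card_sdiff_add_card_inter (Finset.Icc a e) X
    rw [Finset.inter_comm, Nat.card_Icc] at this
    omega
  have hBk := BB_pos h hF0 k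
  have h9 : ∀ j ∈ Finset.Icc a e \ X, 1 / (64 ^ 4 * BB N b L F k) ≤ 1 / BB N b L F j := by
    intro j hj
    rw [Finset.mem_sdiff, Finset.mem_Icc] at hj
    have hBj := BB_pos h hF0 j
    refine one_div_le_one_div_of_le hBj ?_
    have h10 : BB N b L F j < b * 64 ^ (i + 1 + 3) := by
      by_contra hc
      exact hj.2 (mem_of_le h hF hF0 ⟨by omega, by omega⟩ (not_lt.1 hc))
    have h11 : b * 64 ^ (i + 1 + 3) = 64 ^ 4 * (b * 64 ^ i) := by
      rw [show i + 1 + 3 = i + 4 by omega, pow_add]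
      ring
    rw [h11] at h10
    exact h10.le.trans (mul_le_mul_of_nonneg_left h1 (by positivity))
  have h12 : ((Finset.Icc a e \ X).card : ℝ) * (1 / (64 ^ 4 * BB N b L F k)) ≤
      ∑ j ∈ Finset.Icc a e, 1 / BB N b L F j := by
    calc ((Finset.Icc a e \ X).card : ℝ) * (1 / (64 ^ 4 * BB N b L F k))
        = ∑ _j ∈ Finset.Icc a e \ X, 1 / (64 ^ 4 * BB N b L F k) := by
          rw [Finset.sum_const, nsmul_eq_mul]
      _ ≤ ∑ j ∈ Finset.Icc a e \ X, 1 / BB N b L F j := Finset.sum_le_sum h9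
      _ ≤ ∑ j ∈ Finset.Icc a e, 1 / BB N b L F j := by
          refine Finset.sum_le_sum_of_subset_of_nonneg Finset.sdiff_subset ?_
          intro j _ _
          exact (one_div_pos.2 (BB_pos h hF0 j)).le
  have h13 : ((e + 1 - a : ℕ) : ℝ) ≤ 2 * ((Finset.Icc a e \ X).card : ℝ) := by
    exact_mod_cast h8
  have h14 : ((e + 1 - a : ℕ) : ℝ) / BB N b L F k =
      64 ^ 4 * (1 / (64 ^ 4 * BB N b L F k)) * ((e + 1 - a : ℕ) : ℝ) := by
    field_simp
  rw [h14]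
  have h15 : 0 ≤ 1 / (64 ^ 4 * BB N b L F k) := by positivity
  calc 64 ^ 4 * (1 / (64 ^ 4 * BB N b L F k)) * ((e + 1 - a : ℕ) : ℝ)
      ≤ 64 ^ 4 * (1 / (64 ^ 4 * BB N b L F k)) * (2 * ((Finset.Icc a e \ X).card : ℝ)) := by
        exact mul_le_mul_of_nonneg_left h13 (by positivity)
    _ = 2 ^ 25 * (((Finset.Icc a e \ X).card : ℝ) * (1 / (64 ^ 4 * BB N b L F k))) := by ring
    _ ≤ 2 ^ 25 * ∑ j ∈ Finset.Icc a e, 1 / BB N b L F j := by
        exact mul_le_mul_of_nonneg_left h12 (by positivity)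

open Classical in
/-- (6), one edge -/
theorem BB_le_sum (h : Hy N b L) {F : ℕ → ℝ} (hF : ∀ k, F k < b * 64 ^ L) (hF0 : ∀ k, b ≤ F k)
    {k : ℕ} (hk : 1 ≤ k ∧ k ≤ N) :
    BB N b L F k ≤ 64 * (b + ∑ i ∈ Icc 1 L, if k ∈ XX N b L F i then b * 64 ^ i else 0) := by
  obtain ⟨i, hi, h1, h2⟩ := exists_level h hF hF0 k
  have hn : ∀ i ∈ Icc 1 L, 0 ≤ (if k ∈ XX N b L F i then b * 64 ^ i else 0) := by
    intro i _
    split_ifs
    · exact (pw_pos h.hb i).le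
    · exact le_refl _
  have h0 := Finset.sum_nonneg hn
  rw [pow_succ] at h2
  rcases Nat.eq_zero_or_pos i with h3 | h3
  · rw [h3, pow_zero] at h2
    linarith
  · have h4 := Finset.single_le_sum hn (Finset.mem_Icc.2 ⟨h3, hi.le⟩)
    rw [if_pos (mem_of_le h hF hF0 hk h1)] at h4
    have hb := h.hb
    linarith

/-- (6) -/
theorem sumB (h : Hy N b L) {F : ℕ → ℝ} (hF : ∀ k, F k < b * 64 ^ L) (hF0 : ∀ k, b ≤ F k) :
    ∑ k ∈ Icc 1 N, BB N b L F k ≤
      64 * (b * N + ∑ i ∈ Icc 1 L, b * 64 ^ i * ((XX N b L F i).card : ℝ)) := by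
  classical
  calc ∑ k ∈ Icc 1 N, BB N b L F k
      ≤ ∑ k ∈ Icc 1 N, 64 * (b + ∑ i ∈ Icc 1 L, if k ∈ XX N b L F i then b * 64 ^ i else 0) := by
        refine Finset.sum_le_sum ?_
        intro k hk
        exact BB_le_sum h hF hF0 (Finset.mem_Icc.1 hk)
    _ = 64 * (b * N + ∑ i ∈ Icc 1 L, b * 64 ^ i * ((XX N b L F i).card : ℝ)) := by
        rw [← Finset.mul_sum, Finset.sum_add_distrib, Finset.sum_const, Nat.card_Icc,
          nsmul_eq_mul, Finset.sum_comm, Nat.add_sub_cancel]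
        congr 2
        · ring
        · refine Finset.sum_congr rfl ?_
          intro i _
          rw [← Finset.sum_filter, Finset.sum_const, nsmul_eq_mul, mul_comm]
          congr 2
          congr 1
          ext k
          rw [Finset.mem_filter]
          constructor
          · intro hk; exact hk.2
          · intro hk; exact ⟨h.xs F i hk, hk⟩

end

end BbM

theorem bbP : S_Tt → S_Xx → S_Bb := by
  intro hT hX N b L hb
  have h : BbM.Hy N b L :=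
    { hb := hb
      emp := hT.2.2 N
      tm := fun X X' hx => hT.2.1 N X X' hx
      xe := (hX N b L hb).2.1
      xm := (hX N b L hb).2.2.1
      xa := (hX N b L hb).2.2.2.1
      xs := (hX N b L hb).1 }
  refine ⟨fun F k => BbM.le_BB N b L F k, fun F F' hF k => BbM.BB_mono h hF k, ?_⟩
  intro F hF0 hF
  refine ⟨fun k h1 h2 i hi => BbM.mem_of_le h hF hF0 ⟨h1, h2⟩ hi,
    fun k _ _ i hi hk hFk => BbM.BB_eq h hi hk hFk,
    fun a k e ha hak hke he => BbM.reg h hF hF0 ha hak hke he, BbM.sumB h hF hF0⟩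

end Pool.Agent.MP_a4c1f4_lc.SQ
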