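import Pool.Agent.Lib.MP_a4c1f4_lc.SQ.Spec

set_option autoImplicit false
set_option linter.all false

/-!
Online matching on the line, ratio `O(sqrt (log n))`: the regularized capacity at the end (`S_Bt`).
-/

namespace Pool.Agent.MP_a4c1f4_lc.SQ

open Finset

namespace BtM

/-- A geometric sum. -/
theorem geo_le (b : ℝ) (hb : 0 < b) (z : ℝ) (L : ℕ) :
    ∑ i ∈ Icc 1 L, (if b * 64 ^ i / 4 < z then b * 64 ^ i else 0) ≤ 64 / 63 * (b * 64 ^ L) := by
  induction L with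
  | zero =>
    rw [Icc_eq_empty (by omega), sum_empty]
    positivity
  | succ L ih =>
    rw [Finset.sum_Icc_succ_top (by omega)]
    have h : (if b * 64 ^ (L + 1) / 4 < z then b * 64 ^ (L + 1) else 0) ≤ b * 64 ^ (L + 1) := by
      split_ifs
      · exact le_rfl
      · positivity
    have h2 : b * 64 ^ (L + 1) = 64 * (b * 64 ^ L) := by ring
    linarith

/-- The part of a geometric sum below `4 z`. -/
theorem geo (b : ℝ) (hb : 0 < b) (z : ℝ) (hz : 0 ≤ z) (L : ℕ) :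
    ∑ i ∈ Icc 1 L, (if b * 64 ^ i / 4 < z then b * 64 ^ i else 0) ≤ 5 * z := by
  induction L with
  | zero =>
    rw [Icc_eq_empty (by omega), sum_empty]
    positivity
  | succ L ih =>
    by_cases h : b * 64 ^ (L + 1) / 4 < z
    · have h1 := geo_le b hb z (L + 1)
      linarith
    · rw [Finset.sum_Icc_succ_top (by omega), if_neg h]
      linarith

/-- A shifted sum. -/
theorem shift (g : ℕ → ℝ) (L d : ℕ) (h0 : ∀ i, 0 ≤ g i) (hL : ∀ i, L < i → g i = 0) :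
    ∑ i ∈ Icc 1 L, g (i + d) ≤ ∑ i ∈ Icc 1 L, g i := by
  have h1 : ∑ i ∈ Icc 1 L, g (i + d) = ∑ j ∈ (Icc 1 L).map (addRightEmbedding d), g j := by
    rw [Finset.sum_map]
    rfl
  have h2 : ∑ j ∈ (Icc 1 L).map (addRightEmbedding d), g j ≤
      ∑ j ∈ (Icc 1 L) ∪ (Icc 1 L).map (addRightEmbedding d), g j :=
    sum_le_sum_of_subset_of_nonneg subset_union_right fun _ _ _ => h0 _
  have h3 : ∑ j ∈ Icc 1 L, g j = ∑ j ∈ (Icc 1 L) ∪ (Icc 1 L).map (addRightEmbedding d), g j := by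
    refine Finset.sum_subset subset_union_left ?_
    intro j hj hj'
    rcases mem_union.1 hj with hj | hj
    · exact absurd hj hj'
    · obtain ⟨i, hi, rfl⟩ := mem_map.1 hj
      rw [mem_Icc] at hi hj'
      change ¬ (1 ≤ i + d ∧ i + d ≤ L) at hj'
      change g (i + d) = 0
      exact hL _ (by omega)
  rw [h1, h3]
  exact h2

/-- `F` is the running maximum. -/
theorem run {N : ℕ} {c : ℕ → ℝ} {D : ℕ} {b ε : ℝ} {L M : ℕ} {σ : ℕ → St} {v : ℕ → ℕ} {s : ℕ → ℝ}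
    (hR : Rn N c D b ε L M σ v s)
    (hA : ∀ t, t < M → AbS N c D b L (σ t) (v t) (s t) (σ (t + 1))) (k : ℕ) (x : ℝ) (hx : b < x) :
    ∀ t, t ≤ M → x ≤ (σ t).F k → ∃ t', t' ≤ t ∧ x ≤ |(σ t').f k| := by
  intro t
  induction t with
  | zero =>
    intro _ h
    rw [hR.ini] at h
    exact absurd h (not_le.2 hx)
  | succ t ih =>
    intro ht h
    rw [(hA t (by omega)).hF k] at h
    rcases le_max_iff.1 h with h | h
    · obtain ⟨t', h1, h2⟩ := ih (by omega) h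
      exact ⟨t', by omega, h2⟩
    · exact ⟨t + 1, le_rfl, h⟩

/-- The sum of a weighted indicator. -/
theorem sum_ind (N : ℕ) (P : ℕ → Prop) [DecidablePred P] (w : ℝ) :
    ∑ m ∈ Icc 1 N, (if P m then w else 0) = w * ((Icc 1 N).filter P).card := by
  rw [← Finset.sum_filter, Finset.sum_const, nsmul_eq_mul, mul_comm]

/-- The sum of the weights. -/
theorem sum_om (hTt : S_Tt) (N : ℕ) (b : ℝ) (L : ℕ) (F S : ℕ → ℝ) (i : ℕ) :
    ∑ m ∈ Icc 1 N, om N b L F S i m ≤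
      2 * (((Icc 1 N).filter fun k => b * 64 ^ (i + 1) ≤ F k).card : ℝ) +
      577 * ((((Icc 1 N).filter fun k => b * 64 ^ i / 4 < |S k|).card : ℝ) +
        8 * ((XX N b L F (i + 3)).card : ℝ)) := by
  classical
  have h1 : ∀ m, om N b L F S i m ≤ (if b * 64 ^ (i + 1) ≤ F m then 2 else 0) +
      ((if b * 64 ^ i / 4 < |S m| then 577 else 0) +
        (if m ∈ TT N (XX N b L F (i + 3)) then 577 else 0)) := by
    intro m
    unfold om
    by_cases ha : b * 64 ^ (i + 1) ≤ F m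
    · by_cases hb : b * 64 ^ i / 4 < |S m|
      · by_cases hc : m ∈ TT N (XX N b L F (i + 3))
        · simp [ha, hb, hc]
        · simp [ha, hb, hc]
      · by_cases hc : m ∈ TT N (XX N b L F (i + 3))
        · simp [ha, hb, hc]
        · simp [ha, hb, hc]
    · by_cases hb : b * 64 ^ i / 4 < |S m|
      · by_cases hc : m ∈ TT N (XX N b L F (i + 3))
        · simp [ha, hb, hc]
        · simp [ha, hb, hc]
      · by_cases hc : m ∈ TT N (XX N b L F (i + 3))
        · simp [ha, hb, hc]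
        · simp [ha, hb, hc]
  have h2 := Finset.sum_le_sum fun m (_ : m ∈ Icc 1 N) => h1 m
  rw [Finset.sum_add_distrib, Finset.sum_add_distrib, sum_ind, sum_ind, sum_ind] at h2
  have h3 : (((Icc 1 N).filter fun m => m ∈ TT N (XX N b L F (i + 3))).card : ℝ) ≤
      8 * ((XX N b L F (i + 3)).card : ℝ) := by
    have h4 : ((Icc 1 N).filter fun m => m ∈ TT N (XX N b L F (i + 3))).card ≤
        (TT N (XX N b L F (i + 3))).card := by
      refine Finset.card_le_card fun m hm => ?_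
      exact (Finset.mem_filter.1 hm).2
    have h5 := h4.trans (hTt.1 N (XX N b L F (i + 3)))
    exact_mod_cast h5
  linarith

theorem om_nonneg (N : ℕ) (b : ℝ) (L : ℕ) (F S : ℕ → ℝ) (i m : ℕ) : 0 ≤ om N b L F S i m := by
  unfold om
  have h1 : (0 : ℝ) ≤ 2 := by norm_num
  have h2 : (0 : ℝ) ≤ 577 := by norm_num
  refine add_nonneg ?_ ?_
  · split_ifs
    · exact h1
    · exact le_rfl
  · split_ifs
    · exact h2
    · exact le_rfl

/-- One level. -/
theorem level (hCov : S_Cov) (hIn : S_In) (hLs : S_Ls) {N : ℕ} {c : ℕ → ℝ} {D : ℕ} {b ε : ℝ}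
    {L M : ℕ} {σ : ℕ → St} {v : ℕ → ℕ} {s : ℕ → ℝ} {S : ℕ → ℝ} (hR : Rn N c D b ε L M σ v s)
    (hO : Off N c (σ M).r S) (i : ℕ) (hi : 1 ≤ i) :
    (((Icc 1 N).filter fun k => b * 64 ^ i ≤ (σ M).F k).card : ℝ) ≤
      2 * ∑ m ∈ Icc 1 N, om N b L (σ M).F S i m := by
  classical
  obtain ⟨-, hA, -⟩ := hIn.2 N c D b ε L M σ v s hR
  have hb := hR.hb
  have hbi : b < b * 64 ^ i := by
    have h1 : (1 : ℝ) < 64 ^ i := one_lt_pow₀ (by norm_num) (by omega)
    nlinarith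
  let Yp : Finset ℕ := (Icc 1 N).filter fun k => ∃ t, t ≤ M ∧ b * 64 ^ i ≤ (σ t).f k
  let Ym : Finset ℕ := (Icc 1 N).filter fun k => ∃ t, t ≤ M ∧ (σ t).f k ≤ -(b * 64 ^ i)
  have hsub : ((Icc 1 N).filter fun k => b * 64 ^ i ≤ (σ M).F k) ⊆ Yp ∪ Ym := by
    intro k hk
    obtain ⟨hk1, hk2⟩ := Finset.mem_filter.1 hk
    obtain ⟨t, ht, hx⟩ := run hR hA k _ hbi M le_rfl hk2
    rcases le_abs.1 hx with h | h
    · exact Finset.mem_union_left _ (Finset.mem_filter.2 ⟨hk1, t, ht, h⟩)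
    · exact Finset.mem_union_right _ (Finset.mem_filter.2 ⟨hk1, t, ht, by linarith⟩)
  have hp : (Yp.card : ℝ) ≤ ∑ m ∈ Icc 1 N, om N b L (σ M).F S i m := by
    refine (hCov N Yp (om N b L (σ M).F S i) (om_nonneg N b L _ S i)
      (Finset.filter_subset _ _)).1 ?_
    intro k hk
    obtain ⟨hk1, t, ht, hx⟩ := Finset.mem_filter.1 hk
    rw [mem_Icc] at hk1
    exact (hLs N c D b ε L M σ v s S hR hO t ht k hk1.1 hk1.2 i hi).1 hx
  have hm : (Ym.card : ℝ) ≤ ∑ m ∈ Icc 1 N, om N b L (σ M).F S i m := by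
    refine (hCov N Ym (om N b L (σ M).F S i) (om_nonneg N b L _ S i)
      (Finset.filter_subset _ _)).2 ?_
    intro k hk
    obtain ⟨hk1, t, ht, hx⟩ := Finset.mem_filter.1 hk
    rw [mem_Icc] at hk1
    exact (hLs N c D b ε L M σ v s S hR hO t ht k hk1.1 hk1.2 i hi).2 hx
  have hc : (((Icc 1 N).filter fun k => b * 64 ^ i ≤ (σ M).F k).card : ℝ) ≤
      (Yp.card : ℝ) + (Ym.card : ℝ) := by
    have h1 := (Finset.card_le_card hsub).trans (Finset.card_union_le _ _)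
    exact_mod_cast h1
  linarith

end BtM

open BtM in
/-- (Bt) The regularized capacity at the end. -/
theorem btP : S_Cov → S_Tt → S_Xx → S_Bb → S_In → S_Ls → S_Bt := by
  intro hCov hTt hXx hBb hIn hLs N c D b ε L M σ v s S hR hO
  have hb := hR.hb
  obtain ⟨hInv, hA, -⟩ := hIn.2 N c D b ε L M σ v s hR
  have hFb : ∀ k, b ≤ (σ M).F k := (hInv M le_rfl).Fb
  have hFt : ∀ k, (σ M).F k < b * 64 ^ L := hR.top M le_rfl
  obtain ⟨-, -, -, hsum⟩ := (hBb N b L hb).2.2 (σ M).F hFb hFt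
  obtain ⟨-, hXe, -, -, hXc⟩ := hXx N b L hb
  set F := (σ M).F with hF
  let y : ℕ → ℝ := fun i => b * 64 ^ i * (((Icc 1 N).filter fun k => b * 64 ^ i ≤ F k).card : ℝ)
  let x : ℕ → ℝ := fun i => b * 64 ^ i * ((XX N b L F i).card : ℝ)
  let a : ℕ → ℝ := fun i =>
    b * 64 ^ i * (((Icc 1 N).filter fun k => b * 64 ^ i / 4 < |S k|).card : ℝ)
  have hy0 : ∀ i, 0 ≤ y i := fun i => by positivity
  have hx0 : ∀ i, 0 ≤ x i := fun i => by positivity
  have hxL : ∀ i, L < i → x i = 0 := by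
    intro i hi
    change b * 64 ^ i * ((XX N b L F i).card : ℝ) = 0
    rw [hXe F i hi.le, Finset.card_empty, Nat.cast_zero, mul_zero]
  have hyL : ∀ i, L < i → y i = 0 := by
    intro i hi
    change b * 64 ^ i * (((Icc 1 N).filter fun k => b * 64 ^ i ≤ F k).card : ℝ) = 0
    have h1 : ((Icc 1 N).filter fun k => b * 64 ^ i ≤ F k) = ∅ := by
      refine Finset.filter_eq_empty_iff.2 fun k _ => not_le.2 ?_
      refine (hFt k).trans_le ?_
      have h2 : (64 : ℝ) ^ L ≤ 64 ^ i := pow_le_pow_right₀ (by norm_num) hi.le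
      exact mul_le_mul_of_nonneg_left h2 hb.le
    rw [h1, Finset.card_empty, Nat.cast_zero, mul_zero]
  have hxi : ∀ i, x i ≤ y i + 8 / 64 ^ 3 * x (i + 3) := by
    intro i
    have h1 := hXc F i
    have h2 := hTt.1 N (XX N b L F (i + 3))
    have h3 : ((XX N b L F i).card : ℝ) ≤
        (((Icc 1 N).filter fun k => b * 64 ^ i ≤ F k).card : ℝ) +
          8 * ((XX N b L F (i + 3)).card : ℝ) := by
      have h4 := h1.trans (Nat.add_le_add_left h2 _)
      exact_mod_cast h4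
    have h5 : b * 64 ^ i * ((XX N b L F i).card : ℝ) ≤ b * 64 ^ i *
        ((((Icc 1 N).filter fun k => b * 64 ^ i ≤ F k).card : ℝ) +
          8 * ((XX N b L F (i + 3)).card : ℝ)) := mul_le_mul_of_nonneg_left h3 (by positivity)
    have h6 : y i + 8 / 64 ^ 3 * x (i + 3) = b * 64 ^ i *
        ((((Icc 1 N).filter fun k => b * 64 ^ i ≤ F k).card : ℝ) +
          8 * ((XX N b L F (i + 3)).card : ℝ)) := by
      simp only [x, y]
      ring
    rw [h6]
    exact h5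
  have hyi : ∀ i, 1 ≤ i → y i ≤ 4 / 64 * y (i + 1) + 1154 * a i + 9232 / 64 ^ 3 * x (i + 3) := by
    intro i hi
    have h1 := level hCov hIn hLs hR hO i hi
    have h2 := sum_om hTt N b L F S i
    have h3 : (((Icc 1 N).filter fun k => b * 64 ^ i ≤ F k).card : ℝ) ≤
        4 * (((Icc 1 N).filter fun k => b * 64 ^ (i + 1) ≤ F k).card : ℝ) +
        1154 * ((((Icc 1 N).filter fun k => b * 64 ^ i / 4 < |S k|).card : ℝ) +
        8 * ((XX N b L F (i + 3)).card : ℝ)) := by linarith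
    have h5 := mul_le_mul_of_nonneg_left h3 (show 0 ≤ b * 64 ^ i by positivity)
    have h6 : 4 / 64 * y (i + 1) + 1154 * a i + 9232 / 64 ^ 3 * x (i + 3) = b * 64 ^ i *
        (4 * (((Icc 1 N).filter fun k => b * 64 ^ (i + 1) ≤ F k).card : ℝ) +
        1154 * ((((Icc 1 N).filter fun k => b * 64 ^ i / 4 < |S k|).card : ℝ) +
        8 * ((XX N b L F (i + 3)).card : ℝ))) := by
      simp only [x, y, a]
      ring
    rw [h6]
    exact h5
  have hX : ∑ i ∈ Icc 1 L, x i ≤ ∑ i ∈ Icc 1 L, y i + 8 / 64 ^ 3 * ∑ i ∈ Icc 1 L, x i := by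
    have h1 := Finset.sum_le_sum fun i (_ : i ∈ Icc 1 L) => hxi i
    rw [Finset.sum_add_distrib, ← Finset.mul_sum] at h1
    have h2 := shift x L 3 hx0 hxL
    linarith
  have hY : ∑ i ∈ Icc 1 L, y i ≤ 4 / 64 * ∑ i ∈ Icc 1 L, y i + 1154 * ∑ i ∈ Icc 1 L, a i +
      9232 / 64 ^ 3 * ∑ i ∈ Icc 1 L, x i := by
    have h1 := Finset.sum_le_sum fun i (hi : i ∈ Icc 1 L) => hyi i (mem_Icc.1 hi).1
    rw [Finset.sum_add_distrib, Finset.sum_add_distrib, ← Finset.mul_sum, ← Finset.mul_sum,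
      ← Finset.mul_sum] at h1
    have h2 := shift x L 3 hx0 hxL
    have h3 := shift y L 1 hy0 hyL
    linarith
  have hAs : ∑ i ∈ Icc 1 L, a i ≤ 5 * ∑ k ∈ Icc 1 N, |S k| := by
    have h1 : ∀ i, a i = ∑ k ∈ Icc 1 N, (if b * 64 ^ i / 4 < |S k| then b * 64 ^ i else 0) := by
      intro i
      rw [sum_ind]
    rw [Finset.sum_congr rfl fun i _ => h1 i, Finset.sum_comm, Finset.mul_sum]
    exact Finset.sum_le_sum fun k _ => geo b hb |S k| (abs_nonneg _) L
  have hy : 0 ≤ ∑ i ∈ Icc 1 L, y i := Finset.sum_nonneg fun i _ => hy0 i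
  have hx : 0 ≤ ∑ i ∈ Icc 1 L, x i := Finset.sum_nonneg fun i _ => hx0 i
  have hbN : 0 ≤ b * (N : ℝ) := by positivity
  have hS : 0 ≤ ∑ k ∈ Icc 1 N, |S k| := Finset.sum_nonneg fun k _ => abs_nonneg _
  have hsum' : ∑ k ∈ Icc 1 N, BB N b L F k ≤ 64 * (b * N + ∑ i ∈ Icc 1 L, x i) := hsum
  have hx2 : ∑ i ∈ Icc 1 L, x i ≤ 2 * ∑ i ∈ Icc 1 L, y i := by
    norm_num at hX
    linarith
  have hy2 : ∑ i ∈ Icc 1 L, y i ≤ 1400 * ∑ i ∈ Icc 1 L, a i := by
    norm_num at hY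
    linarith
  linarith

end Pool.Agent.MP_a4c1f4_lc.SQ
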