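import Pool.Agent.Lib.MP_a4c1f4_lc.SQ.Spec

set_option autoImplicit false

/-!
Online matching on the line, ratio `O(sqrt (log n))`: one edge, one step (`S_Ed`).
-/

namespace Pool.Agent.MP_a4c1f4_lc.SQ

namespace EdM

/-- the saturated case, current to the right -/
theorem sat_pos {B B' f f' g θ : ℝ} (hB : 0 < B) (hBB : B ≤ B') (hf : |f| ≤ B) (hf' : |f'| ≤ B')
    (hg : |g| ≤ 1 + θ) (hd : 0 < f' - f) (h1 : 1 ≤ g) :
    |f' - f| ≤ |B * g - f| - |B' * g - f'| + (1 + θ) * (B' - B) ∧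
      g * (f' - f) ≤ B' * g ^ 2 / 2 - B * g ^ 2 / 2 + (1 + θ) * |f' - f| := by
  have hg1 : g ≤ 1 + θ := (le_abs_self g).trans hg
  have hf1 : f ≤ B := (le_abs_self f).trans hf
  have hf1' : f' ≤ B' := (le_abs_self f').trans hf'
  have hB' : 0 < B' := hB.trans_le hBB
  have e1 : 0 ≤ B * g - f := by nlinarith
  have e2 : 0 ≤ B' * g - f' := by nlinarith
  rw [abs_of_pos hd, abs_of_nonneg e1, abs_of_nonneg e2]
  constructor
  · have h2 : 0 ≤ (1 + θ - g) * (B' - B) := mul_nonneg (by linarith) (by linarith)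
    nlinarith
  · have h2 : g * (f' - f) ≤ (1 + θ) * (f' - f) := mul_le_mul_of_nonneg_right hg1 hd.le
    have h3 : B * g ^ 2 ≤ B' * g ^ 2 := mul_le_mul_of_nonneg_right hBB (sq_nonneg g)
    linarith

end EdM

theorem edP : S_Ed := by
  intro B B' f f' g g' θ hB hBB _ _ hf hf' hg hg'
  refine ⟨?_, ?_⟩
  · rintro ⟨hs, rfl⟩
    rcases hs with ⟨hd, h1⟩ | ⟨hd, h1⟩
    · exact EdM.sat_pos hB hBB hf hf' hg hd h1
    · have key := EdM.sat_pos (f := -f) (f' := -f') (g := -g') hB hBB (by rwa [abs_neg])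
        (by rwa [abs_neg]) (by rwa [abs_neg]) (by linarith) (by linarith)
      have e1 : -f' - -f = -(f' - f) := by ring
      have e2 : B * -g' - -f = -(B * g' - f) := by ring
      have e3 : B' * -g' - -f' = -(B' * g' - f') := by ring
      rw [e1, e2, e3, abs_neg, abs_neg, abs_neg, neg_sq, neg_mul_neg] at key
      exact key
  · intro h
    have e1 : f' - f = B * (g' - g) := by
      rw [h]
      field_simp
      ring
    constructor
    · have e2 : B' * g' - f' = (B * g - f) + (B' - B) * g' := by linarith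
      have h2 : |B' * g' - f'| ≤ |B * g - f| + (1 + θ) * (B' - B) := by
        rw [e2]
        refine (abs_add_le _ _).trans ?_
        rw [abs_mul, abs_of_nonneg (sub_nonneg.2 hBB)]
        have h3 : (B' - B) * |g'| ≤ (B' - B) * (1 + θ) :=
          mul_le_mul_of_nonneg_left hg' (sub_nonneg.2 hBB)
        linarith
      linarith
    · rw [e1]
      have h2 : 0 ≤ B * (g' - g) ^ 2 := mul_nonneg hB.le (sq_nonneg _)
      have h3 : B * g' ^ 2 ≤ B' * g' ^ 2 := mul_le_mul_of_nonneg_right hBB (sq_nonneg g')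
      nlinarith

end Pool.Agent.MP_a4c1f4_lc.SQ
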