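import Pool.Agent.Lib.MP_a4c1f4_lc.SQ.Spec

set_option autoImplicit false

/-!
Online matching on the line, ratio `O(sqrt (log n))`: serving a request (`S_Ex`).
-/

namespace Pool.Agent.MP_a4c1f4_lc.SQ

open Finset

namespace ExM

open Classical in
/-- The number of nodes with free capacity. -/
noncomputable def fr (N : ℕ) (c : ℕ → ℝ) (σ : St) : ℕ :=
  ((range (N + 1)).filter fun x => us σ x < c x).card

theorem fr_le (N : ℕ) (c : ℕ → ℝ) (σ σ' : St) (h : ∀ x, x ≤ N → us σ x ≤ us σ' x) :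
    fr N c σ' ≤ fr N c σ := by
  classical
  unfold fr
  apply card_le_card
  intro x hx
  rw [mem_filter, mem_range] at hx ⊢
  exact ⟨hx.1, lt_of_le_of_lt (h x (by omega)) hx.2⟩

theorem fr_lt (N : ℕ) (c : ℕ → ℝ) (σ σ' : St) (h : ∀ x, x ≤ N → us σ x ≤ us σ' x)
    (x : ℕ) (hx : x ≤ N) (h1 : us σ x < c x) (h2 : us σ' x = c x) :
    fr N c σ' < fr N c σ := by
  classical
  unfold fr
  apply card_lt_card
  rw [ssubset_iff_of_subset]
  · refine ⟨x, ?_, ?_⟩
    · rw [mem_filter, mem_range]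
      exact ⟨by omega, h1⟩
    · rw [mem_filter, mem_range]
      rintro ⟨_, h3⟩
      linarith
  · intro y hy
    rw [mem_filter, mem_range] at hy ⊢
    exact ⟨hy.1, lt_of_le_of_lt (h y (by omega)) hy.2⟩

theorem main (hAb : S_Ab) (hIn : S_In) (hOn : S_On) (N : ℕ) (c : ℕ → ℝ) (D : ℕ) (b ε n0 : ℝ)
    (L : ℕ) (v : ℕ) (hb : 0 < b) (hε : 0 < ε) (hv : v ≤ N) (hD : 1 ≤ D)
    (hc : ∀ x, x + D ≤ N + 1 → n0 ≤ ∑ y ∈ Ico x (x + D), c y) :
    ∀ (n : ℕ) (σ : St) (τ : ℝ), fr N c σ + ⌈τ / ε⌉₊ ≤ n → 0 ≤ τ → Inv N c b ε σ →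
    ∑ x ∈ range (N + 1), σ.r x + τ ≤ n0 →
    ∑ x ∈ range (N + 1), σ.r x + τ ≤ ∑ x ∈ range (N + 1), c x →
    ∃ (M : ℕ) (σs : ℕ → St) (s : ℕ → ℝ), σs 0 = σ ∧ (∀ t, t < M → 0 ≤ s t ∧ s t ≤ ε ∧
      Stp N c D b L (σs t) v (s t) (σs (t + 1))) ∧ ∑ t ∈ range M, s t = τ := by
  intro n
  induction n with
  | zero =>
    intro σ τ hn hτ _ _ _
    have h1 : ⌈τ / ε⌉₊ = 0 := by omega
    rw [Nat.ceil_eq_zero] at h1
    have h2 : τ = 0 := by
      rcases hτ.eq_or_lt with h | h
      · exact h.symm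
      · exact absurd h1 (not_le.mpr (div_pos h hε))
    refine ⟨0, fun _ => σ, fun _ => 0, rfl, fun t ht => absurd ht (Nat.not_lt_zero t), ?_⟩
    rw [range_zero, sum_empty, h2]
  | succ n ih =>
    intro σ τ hn hτ hI h0 h1
    rcases hτ.eq_or_lt with h | h
    · refine ⟨0, fun _ => σ, fun _ => 0, rfl, fun t ht => absurd ht (Nat.not_lt_zero t), ?_⟩
      rw [range_zero, sum_empty, h]
    · obtain ⟨s, σ', hs0, hsε, hsτ, hst, hor⟩ := hOn N c D b ε n0 L σ v τ hb hε hv h hI hD hc h0 h1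
      have hA := hAb N c D b ε L σ v s σ' hb hs0.le hv hI hst
      have hI' := hIn.1 N c D b ε L σ v s σ' hb hs0.le hsε hv hI hst
      have hsum : ∑ x ∈ range (N + 1), σ'.r x = ∑ x ∈ range (N + 1), σ.r x + s := by
        simp_rw [hA.hr]
        rw [sum_add_distrib, sum_ite_eq', if_pos (mem_range.mpr (by omega))]
      have hdec : s ≠ τ → fr N c σ' + ⌈(τ - s) / ε⌉₊ ≤ n := by
        intro hne
        have hle := fr_le N c σ σ' hA.um
        rcases hor with h2 | h2 | ⟨x, hx, hx1, hx2⟩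
        · exact absurd h2 hne
        · have h3 : (τ - s) / ε = τ / ε - 1 := by
            rw [h2, sub_div, div_self hε.ne']
          rw [h3, Nat.ceil_sub_one]
          have h4 : 0 < ⌈τ / ε⌉₊ := Nat.ceil_pos.mpr (div_pos h hε)
          omega
        · have h3 := fr_lt N c σ σ' hA.um x hx hx1 hx2
          have h4 : ⌈(τ - s) / ε⌉₊ ≤ ⌈τ / ε⌉₊ := by
            apply Nat.ceil_mono
            apply div_le_div_of_nonneg_right _ hε.le
            linarith
          omega
      by_cases hne : s = τ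
      · refine ⟨1, fun t => if t = 0 then σ else σ', fun _ => s, by simp, ?_, ?_⟩
        · intro t ht
          have ht0 : t = 0 := by omega
          subst ht0
          refine ⟨hs0.le, hsε, ?_⟩
          simpa using hst
        · rw [sum_range_one, hne]
      · obtain ⟨M, σs, ss, e0, e1, e2⟩ := ih σ' (τ - s) (hdec hne) (by linarith) hI'
          (by rw [hsum]; linarith) (by rw [hsum]; linarith)
        refine ⟨M + 1, fun t => match t with
          | 0 => σ
          | t + 1 => σs t, fun t => match t with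
          | 0 => s
          | t + 1 => ss t, rfl, ?_, ?_⟩
        · intro t ht
          cases t with
          | zero =>
            refine ⟨hs0.le, hsε, ?_⟩
            show Stp N c D b L σ v s (σs 0)
            rw [e0]
            exact hst
          | succ t =>
            exact e1 t (by omega)
        · rw [sum_range_succ']
          show ∑ t ∈ range M, ss t + s = τ
          rw [e2]
          ring

end ExM

theorem exP : S_Ab → S_In → S_On → S_Ex := by
  intro hAb hIn hOn N c D b ε n0 L σ v τ hb hε hv hτ hI hD hc h0 h1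
  exact ExM.main hAb hIn hOn N c D b ε n0 L v hb hε hv hD hc _ σ τ le_rfl hτ hI h0 h1

end Pool.Agent.MP_a4c1f4_lc.SQ
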