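import Pool.Agent.Lib.MP_a4c1f4_lc.SQ.Spec

set_option autoImplicit false
set_option linter.all false

/-!
Online matching on the line, ratio `O(sqrt (log n))`: the invariants of a run (S_In).
-/

namespace Pool.Agent.MP_a4c1f4_lc.SQ

open Finset

namespace InM

/-- the slopes after a step -/
theorem slope {N : ℕ} {c : ℕ → ℝ} {D : ℕ} {b ε : ℝ} {L : ℕ} {σ : St} {v : ℕ} {s : ℝ} {σ' : St}
    (hB : S_Bb) (hb : 0 < b) (hs : s ≤ ε) (hI : Inv N c b ε σ) (hA : AbS N c D b L σ v s σ')
    (k : ℕ) (h1 : 1 ≤ k) (hk : k ≤ N) : |sl σ' k| ≤ 1 + ε / b := by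
  have h0 := hI.sl k h1 hk
  by_cases hS : Sat σ σ' k
  · rw [hA.sat k h1 hk hS]
    exact h0
  · have h2 := hA.uns k h1 hk hS
    have h3 : b ≤ BB N b L σ.F k := le_trans (hI.Fb k) ((hB N b L hb).1 σ.F k)
    have h4 : |σ'.f k - σ.f k| ≤ ε := le_trans (hA.fs k) hs
    have hBp : 0 < BB N b L σ.F k := lt_of_lt_of_le hb h3
    have hε : 0 ≤ ε := le_trans (abs_nonneg _) h4
    have h5 : |(σ'.f k - σ.f k) / BB N b L σ.F k| ≤ ε / b := by
      rw [abs_div, abs_of_pos hBp]
      exact div_le_div₀ hε h4 hb h3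
    have h6 : ¬ (0 < σ'.f k - σ.f k ∧ 1 ≤ sl σ k) := fun h => hS (Or.inl h)
    have h7 : ¬ (σ'.f k - σ.f k < 0 ∧ sl σ k ≤ -1) := fun h => hS (Or.inr h)
    rw [h2]
    rw [abs_le] at h0 h5 ⊢
    rcases lt_trichotomy (σ'.f k - σ.f k) 0 with hd | hd | hd
    · have h8 : -1 < sl σ k := by
        by_contra hcon
        exact h7 ⟨hd, not_lt.1 hcon⟩
      have h9 : (σ'.f k - σ.f k) / BB N b L σ.F k ≤ 0 := (div_neg_of_neg_of_pos hd hBp).le
      constructor
      · linarith [h5.1]
      · linarith [h0.2]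
    · rw [hd, zero_div, add_zero]
      exact h0
    · have h8 : sl σ k < 1 := by
        by_contra hcon
        exact h6 ⟨hd, not_lt.1 hcon⟩
      have h9 : 0 ≤ (σ'.f k - σ.f k) / BB N b L σ.F k := (div_pos hd hBp).le
      constructor
      · linarith [h0.1]
      · linarith [h5.2]

/-- one step -/
theorem one {N : ℕ} {c : ℕ → ℝ} {D : ℕ} {b ε : ℝ} {L : ℕ} {σ : St} {v : ℕ} {s : ℝ} {σ' : St}
    (hB : S_Bb) (hb : 0 < b) (hs0 : 0 ≤ s) (hs : s ≤ ε) (hI : Inv N c b ε σ)
    (hA : AbS N c D b L σ v s σ') : Inv N c b ε σ' where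
  f0 := by rw [hA.f0]; exact hI.f0
  fN := fun k hk => by rw [hA.fN k hk]; exact hI.fN k hk
  cap := hA.uc
  u0 := fun x hx => le_trans (hI.u0 x hx) (hA.um x hx)
  r0 := fun x => by
    rw [hA.hr x]
    have := hI.r0 x
    split_ifs
    · linarith
    · linarith
  p0 := fun x => le_trans (hI.p0 x) (hA.pm x)
  pf := fun x hx h => by
    have h1 := lt_of_le_of_lt (hA.um x hx) h
    rw [hA.pf x hx h1]
    exact hI.pf x hx h1
  sl := fun k h1 hk => slope hB hb hs hI hA k h1 hk
  Fb := fun k => by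
    rw [hA.hF k]
    exact le_trans (hI.Fb k) (le_max_left _ _)
  fF := fun k => by
    rw [hA.hF k]
    exact le_max_right _ _

/-- the initial state -/
theorem start {N : ℕ} {c : ℕ → ℝ} {b ε : ℝ} (hb : 0 < b) (hε : 0 < ε) (hc : ∀ x, 0 ≤ c x) :
    Inv N c b ε (SQ.ini b) where
  f0 := rfl
  fN := fun k hk => rfl
  cap := fun x hx => by
    simp only [us, SQ.ini]
    linarith [hc x]
  u0 := fun x hx => by
    simp only [us, SQ.ini]
    linarith
  r0 := fun x => le_refl _
  p0 := fun x => le_refl _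
  pf := fun x hx h => rfl
  sl := fun k h1 hk => by
    simp only [SQ.sl, SQ.ini, sub_zero, abs_zero]
    have := div_pos hε hb
    linarith
  Fb := fun k => le_refl _
  fF := fun k => by
    simp only [SQ.ini, abs_zero]
    exact hb.le

end InM

theorem inP : S_Tt → S_Xx → S_Bb → S_Ab → S_In := by
  intro hT hX hB hA
  refine ⟨?_, ?_⟩
  · intro N c D b ε L σ v s σ' hb hs0 hs hv hI hst
    exact InM.one hB hb hs0 hs hI (hA N c D b ε L σ v s σ' hb hs0 hv hI hst)
  · intro N c D b ε L M σ v s hR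
    have hInv : ∀ t, t ≤ M → Inv N c b ε (σ t) := by
      intro t
      induction t with
      | zero =>
        intro _
        rw [hR.ini]
        exact InM.start hR.hb hR.hε hR.c0
      | succ t ih =>
        intro ht
        have ht' : t < M := ht
        exact InM.one hB hR.hb (hR.hs t ht').1 (hR.hs t ht').2 (ih ht'.le)
          (hA N c D b ε L (σ t) (v t) (s t) (σ (t + 1)) hR.hb (hR.hs t ht').1 (hR.hv t ht') (ih ht'.le)
            (hR.step t ht'))
    have hAb : ∀ t, t < M → AbS N c D b L (σ t) (v t) (s t) (σ (t + 1)) := fun t ht =>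
      hA N c D b ε L (σ t) (v t) (s t) (σ (t + 1)) hR.hb (hR.hs t ht).1 (hR.hv t ht) (hInv t ht.le)
        (hR.step t ht)
    have hmono : ∀ t t', t ≤ t' → t' ≤ M → ∀ k, (σ t).F k ≤ (σ t').F k ∧ (σ t).p k ≤ (σ t').p k ∧
        (σ t).r k ≤ (σ t').r k := by
      intro t t' htt
      induction t', htt using Nat.le_induction with
      | base =>
        intro _ k
        exact ⟨le_refl _, le_refl _, le_refl _⟩
      | succ t' htt ih =>
        intro ht' k
        have h1 := ih (by omega) k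
        have h2 := hAb t' (by omega)
        refine ⟨?_, ?_, ?_⟩
        · rw [h2.hF k]
          exact le_trans h1.1 (le_max_left _ _)
        · exact le_trans h1.2.1 (h2.pm k)
        · rw [h2.hr k]
          have h3 := (hR.hs t' (by omega)).1
          split_ifs
          · linarith [h1.2.2]
          · linarith [h1.2.2]
    refine ⟨hInv, hAb, ?_⟩
    intro t t' htt ht' k
    have hF : ∀ k, (σ t).F k ≤ (σ t').F k := fun k => (hmono t t' htt ht' k).1
    have h := hmono t t' htt ht' k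
    refine ⟨h.1, h.2.1, h.2.2, (hB N b L hR.hb).2.1 _ _ hF k, ?_⟩
    intro i
    exact hT.2.1 N _ _ ((hX N b L hR.hb).2.2.1 _ _ hF i)

end Pool.Agent.MP_a4c1f4_lc.SQ
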