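import Pool.Agent.Lib.MP_a4c1f4_lc.SQ.Spec

set_option autoImplicit false

/-!
Online matching on the line, ratio `O(sqrt (log n))`: the labels (`S_Lb`).
-/

namespace Pool.Agent.MP_a4c1f4_lc.SQ

open Finset

namespace LbM

theorem blpos (i : ℕ) : 0 < bl i := Nat.succ_pos _

theorem blmul (i : ℕ) : 2 ^ i < 9 * 2 ^ 25 * bl i := by
  unfold bl
  exact Nat.lt_mul_div_succ _ (by norm_num)

theorem blle (i : ℕ) : (bl i - 1) * (9 * 2 ^ 25) ≤ 2 ^ i := by
  unfold bl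
  rw [Nat.add_sub_cancel]
  exact Nat.div_mul_le_self _ _

theorem lab_le (i v : ℕ) : lab i v ≤ v := Nat.div_mul_le_self _ _

theorem lt_lab (i v : ℕ) : v < lab i v + bl i := by
  unfold lab
  exact Nat.lt_div_mul_add (blpos i)

theorem two (i v x : ℕ) (h : lab i v = lab i x) : x * (9 * 2 ^ 25) ≤ v * (9 * 2 ^ 25) + 2 ^ i := by
  have h1 := lt_lab i x
  have h2 := lab_le i v
  have h3 : x ≤ v + (bl i - 1) := by
    have := blpos i
    omega
  calc x * (9 * 2 ^ 25) ≤ (v + (bl i - 1)) * (9 * 2 ^ 25) := Nat.mul_le_mul_right _ h3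
    _ = v * (9 * 2 ^ 25) + (bl i - 1) * (9 * 2 ^ 25) := by ring
    _ ≤ v * (9 * 2 ^ 25) + 2 ^ i := Nat.add_le_add_left (blle i) _

theorem cnt (N i k : ℕ) :
    (((range (N + 1)).image (lab i)).filter
      (fun x => k ≤ x + 2 * 2 ^ i ∧ x < k + 2 * 2 ^ i)).card ≤ 36 * 2 ^ 25 + 3 := by
  set m := bl i with hm
  have hmp : 0 < m := blpos i
  have hinj : Set.InjOn (fun x => x / m) ((((range (N + 1)).image (lab i)).filter
      (fun x => k ≤ x + 2 * 2 ^ i ∧ x < k + 2 * 2 ^ i) : Finset ℕ) : Set ℕ) := by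
    intro x hx y hy hxy
    rw [mem_coe, mem_filter, mem_image] at hx hy
    obtain ⟨⟨x', _, hx'⟩, _⟩ := hx
    obtain ⟨⟨y', _, hy'⟩, _⟩ := hy
    have e1 : x / m * m = x := by
      rw [← hx']
      unfold lab
      rw [← hm, Nat.mul_div_cancel _ hmp]
    have e2 : y / m * m = y := by
      rw [← hy']
      unfold lab
      rw [← hm, Nat.mul_div_cancel _ hmp]
    have hxy' : x / m = y / m := hxy
    rw [← e1, ← e2, hxy']
  have hmap : ∀ x ∈ (((range (N + 1)).image (lab i)).filter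
      (fun x => k ≤ x + 2 * 2 ^ i ∧ x < k + 2 * 2 ^ i)), (fun x => x / m) x ∈
      Icc ((k - 2 * 2 ^ i) / m) ((k - 2 * 2 ^ i + 4 * 2 ^ i) / m) := by
    intro x hx
    rw [mem_filter] at hx
    obtain ⟨_, h1, h2⟩ := hx
    rw [mem_Icc]
    constructor
    · exact Nat.div_le_div_right (by omega)
    · exact Nat.div_le_div_right (by omega)
  have h1 := card_le_card_of_injOn _ hmap hinj
  rw [Nat.card_Icc] at h1
  have h2 : (k - 2 * 2 ^ i + 4 * 2 ^ i) / m ≤ (k - 2 * 2 ^ i) / m + 4 * 2 ^ i / m + 1 := by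
    rw [Nat.add_div hmp]
    split_ifs <;> omega
  have h3 : 4 * 2 ^ i / m < 4 * (9 * 2 ^ 25) := by
    apply Nat.div_lt_of_lt_mul
    have := blmul i
    rw [← hm] at this
    calc 4 * 2 ^ i < 4 * (9 * 2 ^ 25 * m) := by omega
      _ = m * (4 * (9 * 2 ^ 25)) := by ring
  omega

theorem four (N i : ℕ) (B : ℕ → ℝ) (hB : ∀ k, 0 ≤ B k) :
    ∑ x ∈ (range (N + 1)).image (lab i), ∑ k ∈ nr N x (2 * 2 ^ i), B k ≤
      (36 * 2 ^ 25 + 3) * ∑ k ∈ Icc 1 N, B k := by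
  unfold nr
  simp_rw [sum_filter]
  rw [sum_comm, mul_sum]
  apply sum_le_sum
  intro k _
  rw [← sum_filter, sum_const, nsmul_eq_mul]
  have h := cnt N i k
  have h' : (((((range (N + 1)).image (lab i)).filter
      (fun x => k ≤ x + 2 * 2 ^ i ∧ x < k + 2 * 2 ^ i)).card : ℕ) : ℝ) ≤ 36 * 2 ^ 25 + 3 := by
    exact_mod_cast h
  exact mul_le_mul_of_nonneg_right h' (hB k)

end LbM

theorem lbP : S_Lb := by
  intro N i
  refine ⟨fun v => ⟨LbM.lab_le i v, ?_⟩, fun v x h => ⟨LbM.two i v x h, LbM.two i x v h.symm⟩,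
    fun v => ?_, fun B hB => LbM.four N i B hB⟩
  · unfold lab
    rw [Nat.mul_div_cancel _ (LbM.blpos i)]
  · intro k hk
    unfold nr at hk ⊢
    rw [mem_filter] at hk ⊢
    obtain ⟨h0, h1, h2⟩ := hk
    have h3 := LbM.lab_le i v
    have h4 := LbM.lt_lab i v
    have h5 : bl i ≤ 2 ^ i + 1 := by
      unfold bl
      exact Nat.add_le_add_right (Nat.div_le_self _ _) 1
    exact ⟨h0, by omega, by omega⟩

end Pool.Agent.MP_a4c1f4_lc.SQ
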