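import Pool.Agent.Lib.MP_a4c1f4_lc.SQ.Spec

set_option autoImplicit false
set_option linter.all false

/-!
Online matching on the line, project SQ: the level set argument, `S_Ls`.
-/

namespace Pool.Agent.MP_a4c1f4_lc.SQ.LsM

open Finset

/-- The walk to the left. -/
lemma down (N : ℕ) (c u Δ : ℕ → ℝ) (lam : ℝ) (hl : 0 < lam) (h0 : Δ 0 = 0)
    (hs : ∀ x, x ≤ N → ¬ u x < c x → Δ (x + 1) ≤ Δ x) :
    ∀ k, k ≤ N + 1 → lam ≤ Δ k →
      ∃ j, j < k ∧ u j < c j ∧ ∀ m, j + 1 ≤ m → m ≤ k → lam ≤ Δ m := by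
  intro k
  induction k with
  | zero =>
    intro _ h
    rw [h0] at h
    linarith
  | succ k ih =>
    intro hk h
    by_cases hf : u k < c k
    · refine ⟨k, by omega, hf, ?_⟩
      intro m h1 h2
      have : m = k + 1 := by omega
      rw [this]
      exact h
    · have h1 := hs k (by omega) hf
      obtain ⟨j, hj, hju, hjm⟩ := ih (by omega) (le_trans h h1)
      refine ⟨j, by omega, hju, ?_⟩
      intro m h3 h4
      by_cases h5 : m ≤ k
      · exact hjm m h3 h5
      · have : m = k + 1 := by omega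
        rw [this]
        exact h

/-- The walk to the right. -/
lemma up (N : ℕ) (c u Δ : ℕ → ℝ) (lam : ℝ) (hl : 0 < lam) (h0 : Δ (N + 1) = 0)
    (hs : ∀ x, x ≤ N → ¬ u x < c x → Δ (x + 1) ≤ Δ x) :
    ∀ d k, k + d = N + 1 → Δ k ≤ -lam →
      ∃ j, k ≤ j ∧ j ≤ N ∧ u j < c j ∧ ∀ m, k ≤ m → m ≤ j → Δ m ≤ -lam := by
  intro d
  induction d with
  | zero =>
    intro k hk h
    have : k = N + 1 := by omega
    rw [this, h0] at h
    linarith
  | succ d ih =>
    intro k hk h
    by_cases hf : u k < c k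
    · refine ⟨k, le_rfl, by omega, hf, ?_⟩
      intro m h1 h2
      have : m = k := by omega
      rw [this]
      exact h
    · have h1 := hs k (by omega) hf
      obtain ⟨j, hj, hjN, hju, hjm⟩ := ih (k + 1) (by omega) (le_trans h1 h)
      refine ⟨j, by omega, hjN, hju, ?_⟩
      intro m h3 h4
      by_cases h5 : k + 1 ≤ m
      · exact hjm m h5 h4
      · have : m = k := by omega
        rw [this]
        exact h

/-- The sum of the slopes over the edges `j + 1, …, k`. -/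
lemma tel (σ : St) (j k : ℕ) (h : j ≤ k) :
    ∑ m ∈ Icc (j + 1) k, sl σ m = σ.p j - σ.p k := by
  induction k, h using Nat.le_induction with
  | base => simp
  | succ k hk ih =>
    rw [Finset.sum_Icc_succ_top (by omega), ih]
    have : sl σ (k + 1) = σ.p k - σ.p (k + 1) := by
      unfold sl
      simp
    rw [this]
    ring

/-- The pointwise inequality for a flow to the right. -/
lemma ptR (lam F FM f S g θ o : ℝ) (A : Prop) (hlam : 0 < lam) (hθ0 : 0 ≤ θ) (hθ : θ ≤ 1 / 512)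
    (hF : |f| ≤ F) (hFM : F ≤ FM) (hD : lam / 2 ≤ f - S) (hg : |g| ≤ 1 + θ)
    (hA : A → 577 ≤ o) (hZ : 64 * lam ≤ FM → 2 ≤ o) (h0 : 0 ≤ o)
    (hS : ¬ A → |S| ≤ lam / 4 ∧ (lam / 4 ≤ F → |g - f / F| ≤ θ)) : 1 ≤ o + 512 * g := by
  have hg1 := (abs_le.mp hg).1
  by_cases a : A
  · have := hA a
    linarith
  · obtain ⟨h1, h2⟩ := hS a
    have h3 := (abs_le.mp h1).1
    have hf : lam / 4 ≤ f := by linarith
    have hFf : f ≤ F := le_trans (le_abs_self f) hF
    have h4 := (abs_le.mp (h2 (by linarith))).1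
    have hFp : 0 < F := by linarith
    by_cases z : 64 * lam ≤ FM
    · have h5 := hZ z
      have h6 : 0 ≤ f / F := div_nonneg (by linarith) hFp.le
      linarith
    · have h6 : 1 / 256 ≤ f / F := by
        rw [div_le_div_iff₀ (by norm_num) hFp]
        nlinarith
      linarith

/-- The pointwise inequality for a flow to the left. -/
lemma ptL (lam F FM f S g θ o : ℝ) (A : Prop) (hlam : 0 < lam) (hθ0 : 0 ≤ θ) (hθ : θ ≤ 1 / 512)
    (hF : |f| ≤ F) (hFM : F ≤ FM) (hD : f - S ≤ -(lam / 2)) (hg : |g| ≤ 1 + θ)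
    (hA : A → 577 ≤ o) (hZ : 64 * lam ≤ FM → 2 ≤ o) (h0 : 0 ≤ o)
    (hS : ¬ A → |S| ≤ lam / 4 ∧ (lam / 4 ≤ F → |g - f / F| ≤ θ)) : 1 ≤ o - 512 * g := by
  have h := ptR lam F FM (-f) (-S) (-g) θ o A hlam hθ0 hθ (by rw [abs_neg]; exact hF) hFM
    (by linarith) (by rw [abs_neg]; exact hg) hA hZ h0 (by
      intro a
      obtain ⟨h1, h2⟩ := hS a
      refine ⟨by rw [abs_neg]; exact h1, fun h3 => ?_⟩
      have h4 := h2 h3
      have : -g - -f / F = -(g - f / F) := by ring
      rw [this, abs_neg]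
      exact h4)
  linarith

end Pool.Agent.MP_a4c1f4_lc.SQ.LsM

namespace Pool.Agent.MP_a4c1f4_lc.SQ

open Finset LsM

theorem lsP : S_In → S_Sy → S_Ls := by
  intro hIn hSy N c D b ε L M σ v s S hR hO t ht k hk1 hkN i hi
  obtain ⟨hI, hA, hm⟩ := hIn.2 N c D b ε L M σ v s hR
  have hb := hR.hb
  have hIt := hI t ht
  have hmt := hm t M ht le_rfl
  have hθ0 : 0 ≤ ε / b := div_nonneg hR.hε.le hb.le
  have hθ : ε / b ≤ 1 / 512 := by
    rw [div_le_div_iff₀ hb (by norm_num)]
    have := hR.hε1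
    linarith
  have hlam : 0 < b * 64 ^ i := by positivity
  -- the weights
  have o0 : ∀ m, 0 ≤ om N b L (σ M).F S i m := by
    intro m
    unfold om
    split_ifs <;> norm_num
  have oA : ∀ m, (b * 64 ^ i / 4 < |S m| ∨ m ∈ TT N (XX N b L (σ M).F (i + 3))) →
      577 ≤ om N b L (σ M).F S i m := by
    intro m h
    unfold om
    rw [if_pos h]
    split_ifs <;> norm_num
  have oZ : ∀ m, 64 * (b * 64 ^ i) ≤ (σ M).F m → 2 ≤ om N b L (σ M).F S i m := by
    intro m h
    unfold om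
    have h' : b * 64 ^ (i + 1) ≤ (σ M).F m := by
      rw [pow_succ]
      linarith
    rw [if_pos h']
    split_ifs <;> norm_num
  have oS : ∀ m, 1 ≤ m → m ≤ N →
      ¬ (b * 64 ^ i / 4 < |S m| ∨ m ∈ TT N (XX N b L (σ M).F (i + 3))) →
      |S m| ≤ b * 64 ^ i / 4 ∧ (b * 64 ^ i / 4 ≤ (σ t).F m →
        |sl (σ t) m - (σ t).f m / (σ t).F m| ≤ ε / b) := by
    intro m h1 h2 h3
    rw [not_or, not_lt] at h3
    refine ⟨h3.1, fun h4 => ?_⟩
    refine hSy N c D b ε L M σ v s hR t ht m h1 h2 i hi h4 ?_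
    intro h5
    exact h3.2 ((hmt m).2.2.2.2 (i + 3) h5)
  -- the difference of the flows
  have hstep : ∀ x, x ≤ N → ¬ us (σ t) x < c x →
      (σ t).f (x + 1) - S (x + 1) ≤ (σ t).f x - S x := by
    intro x hx hu
    have h1 := hO.Sc x hx
    have h2 := (hmt x).2.2.1
    rw [not_lt] at hu
    have h3 : us (σ t) x = (σ t).r x + (σ t).f x - (σ t).f (x + 1) := rfl
    rw [h3] at hu
    linarith
  have one : ∀ m, b * 64 ^ i / 4 < |S m| → (1 : ℝ) ≤ om N b L (σ M).F S i m := by
    intro m h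
    have := oA m (Or.inl h)
    linarith
  constructor
  · intro hf
    by_cases hS : b * 64 ^ i / 4 < |S k|
    · refine ⟨k, hk1, le_rfl, ?_⟩
      have h1 := one k hS
      simpa using h1
    · rw [not_lt] at hS
      have hS' := (abs_le.mp hS).2
      have hD : b * 64 ^ i / 2 ≤ (σ t).f k - S k := by linarith
      obtain ⟨j, hj, hju, hjm⟩ := down N c (us (σ t)) (fun x => (σ t).f x - S x)
        (b * 64 ^ i / 2) (by linarith) (by simp only [hIt.f0, hO.S0]; ring) hstep k (by omega) hD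
      have hp := hIt.pf j (by omega) hju
      have ht1 := tel (σ t) j k (by omega)
      rw [hp] at ht1
      have hpk := hIt.p0 k
      refine ⟨j + 1, by omega, by omega, ?_⟩
      have hc : ((k + 1 - (j + 1) : ℕ) : ℝ) = ∑ m ∈ Icc (j + 1) k, (1 : ℝ) := by
        simp
      rw [hc]
      have hpt : ∀ m ∈ Icc (j + 1) k, (1 : ℝ) ≤ om N b L (σ M).F S i m + 512 * sl (σ t) m := by
        intro m hm'
        rw [mem_Icc] at hm'
        exact ptR (b * 64 ^ i) ((σ t).F m) ((σ M).F m) ((σ t).f m) (S m) (sl (σ t) m) (ε / b)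
          _ _ hlam hθ0 hθ (hIt.fF m) (hmt m).1 (hjm m hm'.1 hm'.2)
          (hIt.sl m (by omega) (by omega)) (oA m) (oZ m) (o0 m)
          (oS m (by omega) (by omega))
      have hs := Finset.sum_le_sum hpt
      rw [Finset.sum_add_distrib, ← Finset.mul_sum, ht1] at hs
      linarith
  · intro hf
    by_cases hS : b * 64 ^ i / 4 < |S k|
    · refine ⟨k, le_rfl, hkN, ?_⟩
      have h1 := one k hS
      simpa using h1
    · rw [not_lt] at hS
      have hS' := (abs_le.mp hS).1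
      have hD : (σ t).f k - S k ≤ -(b * 64 ^ i / 2) := by linarith
      obtain ⟨j, hj, hjN, hju, hjm⟩ := up N c (us (σ t)) (fun x => (σ t).f x - S x)
        (b * 64 ^ i / 2) (by linarith) (by simp only [hIt.fN (N + 1) (by omega), hO.SN]; ring)
        hstep (N + 1 - k) k (by omega) hD
      have hp := hIt.pf j hjN hju
      have ht1 := tel (σ t) (k - 1) j (by omega)
      rw [Nat.sub_add_cancel hk1, hp] at ht1
      have hpk := hIt.p0 (k - 1)
      refine ⟨j, hj, hjN, ?_⟩
      have hc : ((j + 1 - k : ℕ) : ℝ) = ∑ m ∈ Icc k j, (1 : ℝ) := by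
        simp
      rw [hc]
      have hpt : ∀ m ∈ Icc k j, (1 : ℝ) ≤ om N b L (σ M).F S i m - 512 * sl (σ t) m := by
        intro m hm'
        rw [mem_Icc] at hm'
        exact ptL (b * 64 ^ i) ((σ t).F m) ((σ M).F m) ((σ t).f m) (S m) (sl (σ t) m) (ε / b)
          _ _ hlam hθ0 hθ (hIt.fF m) (hmt m).1 (hjm m hm'.1 hm'.2)
          (hIt.sl m (by omega) (by omega)) (oA m) (oZ m) (o0 m)
          (oS m (by omega) (by omega))
      have hs := Finset.sum_le_sum hpt
      rw [Finset.sum_sub_distrib, ← Finset.mul_sum, ht1] at hs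
      linarith

end Pool.Agent.MP_a4c1f4_lc.SQ
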