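import Pool.Agent.Lib.MP_a4c1f4_lc.SQ.Spec

set_option autoImplicit false
set_option linter.all false

/-!
Online matching on the line, ratio `O(sqrt (log n))`: the movement is the cost (SQ, Mc).
-/

namespace Pool.Agent.MP_a4c1f4_lc.SQ

open Finset

namespace McM

theorem abel (d w : ℕ → ℝ) (h0 : d 0 = 0) (N : ℕ) :
    ∑ x ∈ range (N + 1), (d x - d (x + 1)) * w x =
      ∑ k ∈ Icc 1 N, d k * (w k - w (k - 1)) - d (N + 1) * w N := by
  induction N with
  | zero =>
    rw [Finset.sum_range_one, h0, Finset.Icc_eq_empty (by omega), Finset.sum_empty]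
    ring
  | succ N ih =>
    rw [Finset.sum_range_succ, ih, Finset.sum_Icc_succ_top (by omega), Nat.add_sub_cancel]
    ring

theorem single (N v : ℕ) (s : ℝ) (w : ℕ → ℝ) (hw : w v = 0) :
    ∑ x ∈ range (N + 1), (if x = v then s else 0) * w x = 0 := by
  refine Finset.sum_eq_zero fun x _ => ?_
  by_cases h : x = v
  · rw [h, hw, mul_zero]
  · rw [if_neg h, zero_mul]

end McM

open McM in
theorem mcP : S_Mc := by
  intro N c D b L σ v s σ' hs hv hst
  have hw : |((v : ℕ) : ℝ) - (v : ℝ)| = 0 := by rw [sub_self, abs_zero]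
  rcases hst with h | ⟨gl, gr, mL, mR, q, h⟩
  · have e1 : ∀ x, us σ' x - us σ x = if x = v then s else 0 := by
      intro x
      rw [us, us, h.hr, h.hf, h.hf]
      ring
    have e2 : mo N σ σ' = 0 := by
      rw [mo]
      refine Finset.sum_eq_zero fun k _ => ?_
      rw [h.hf, sub_self, abs_zero]
    rw [e2]
    simp only [e1]
    exact single N v s (fun x => |(x : ℝ) - (v : ℝ)|) hw
  · have hgl := h.hgl
    have hgr := h.hgr
    have hN := h.hN
    set d : ℕ → ℝ := fun k =>
      if gl < k ∧ k ≤ v then -(s * mL) else if v < k ∧ k ≤ gr then s * mR else 0 with hd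
    have hf : ∀ k, σ'.f k = σ.f k + d k := h.hf
    have e1 : ∀ x, us σ' x - us σ x = (if x = v then s else 0) + (d x - d (x + 1)) := by
      intro x
      rw [us, us, h.hr, hf, hf]
      ring
    have d0 : d 0 = 0 := by
      rw [hd]
      simp
    have dN : d (N + 1) = 0 := by
      rw [hd]
      simp only
      rw [if_neg (by omega), if_neg (by omega)]
    simp only [e1, add_mul]
    rw [Finset.sum_add_distrib, single N v s (fun x => |(x : ℝ) - (v : ℝ)|) hw, zero_add,
      abel d (fun x => |(x : ℝ) - (v : ℝ)|) d0 N, dN, zero_mul, sub_zero, mo]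
    refine Finset.sum_congr rfl fun k hk => ?_
    rw [Finset.mem_Icc] at hk
    have e3 : σ'.f k - σ.f k = d k := by
      rw [hf]
      ring
    rw [e3]
    have hk1 : ((k - 1 : ℕ) : ℝ) = (k : ℝ) - 1 := by
      rw [Nat.cast_sub hk.1, Nat.cast_one]
    have hL : 0 ≤ s * mL := mul_nonneg hs h.mL0
    have hR : 0 ≤ s * mR := mul_nonneg hs h.mR0
    rcases le_or_gt k v with hkv | hkv
    · have hkv' : (k : ℝ) ≤ v := by exact_mod_cast hkv
      have e4 : |(k : ℝ) - v| - |((k - 1 : ℕ) : ℝ) - v| = -1 := by
        rw [hk1, abs_of_nonpos (by linarith), abs_of_nonpos (by linarith)]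
        ring
      rw [e4]
      have e5 : d k ≤ 0 := by
        rw [hd]
        simp only
        split_ifs
        · linarith
        · omega
        · exact le_rfl
      rw [abs_of_nonpos e5]
      ring
    · have hkv' : (v : ℝ) + 1 ≤ k := by exact_mod_cast hkv
      have e4 : |(k : ℝ) - v| - |((k - 1 : ℕ) : ℝ) - v| = 1 := by
        rw [hk1, abs_of_nonneg (by linarith), abs_of_nonneg (by linarith)]
        ring
      rw [e4]
      have e5 : 0 ≤ d k := by
        rw [hd]
        simp only
        split_ifs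
        · omega
        · exact hR
        · exact le_rfl
      rw [abs_of_nonneg e5]
      ring

end Pool.Agent.MP_a4c1f4_lc.SQ
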