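import Pool.Agent.Lib.MP_a4c1f4_lc.SQ.Spec

set_option autoImplicit false
set_option linter.all false

/-!
Online matching on the line, ratio `O(sqrt (log n))`: the movement of a run.
-/

namespace Pool.Agent.MP_a4c1f4_lc.SQ

open Finset

namespace MnM

/-- The length of the nearest live side, `1 ≤ rh ≤ D`, and the edges next to `v`. -/
theorem rh_facts (N : ℕ) (c : ℕ → ℝ) (D : ℕ) (b : ℝ) (L : ℕ) (σ : St) (v : ℕ) (s : ℝ) (σ' : St)
    (gl gr : ℕ) (mL mR q : ℝ) (h : Move N c D b L σ v s σ' gl gr mL mR q) :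
    1 ≤ rh c σ v gl gr ∧ rh c σ v gl gr ≤ D ∧
      ∀ H, H ≤ rh c σ v gl gr → H ≤ (nr N v H).card := by
  have hgl := h.hgl
  have hgr := h.hgr
  have hN := h.hN
  have hdl := h.dl
  have hdr := h.dr
  have hleft : us σ gl < c gl → gl < v := by
    intro h1
    rcases Nat.lt_or_ge gl v with h2 | h2
    · exact h2
    · exfalso
      have h3 : gl = v := le_antisymm hgl h2
      rw [h3, h.hv] at h1
      exact lt_irrefl _ h1
  have hright : us σ gr < c gr → v < gr := by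
    intro h1
    rcases Nat.lt_or_ge v gr with h2 | h2
    · exact h2
    · exfalso
      have h3 : gr = v := le_antisymm h2 hgr
      rw [h3, h.hv] at h1
      exact lt_irrefl _ h1
  have hcardL : ∀ H, H ≤ v - gl → H ≤ (nr N v H).card := by
    intro H hH
    have h1 : Ioc (v - H) v ⊆ nr N v H := by
      intro k hk
      rw [mem_Ioc] at hk
      unfold nr
      rw [mem_filter, mem_Icc]
      omega
    have h2 := card_le_card h1
    rw [Nat.card_Ioc] at h2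
    omega
  have hcardR : ∀ H, H ≤ gr - v → H ≤ (nr N v H).card := by
    intro H hH
    have h1 : Ioc v (v + H) ⊆ nr N v H := by
      intro k hk
      rw [mem_Ioc] at hk
      unfold nr
      rw [mem_filter, mem_Icc]
      omega
    have h2 := card_le_card h1
    rw [Nat.card_Ioc] at h2
    omega
  unfold rh
  by_cases hl : us σ gl < c gl
  · have hl' := hleft hl
    rw [if_pos hl]
    by_cases hr : us σ gr < c gr
    · have hr' := hright hr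
      rw [if_pos hr]
      refine ⟨?_, ?_, ?_⟩
      · exact le_min (by omega) (by omega)
      · exact (min_le_left _ _).trans (by omega)
      · intro H hH
        exact hcardL H (hH.trans (min_le_left _ _))
    · rw [if_neg hr]
      exact ⟨by omega, by omega, hcardL⟩
  · rw [if_neg hl]
    have hmL : mL = 0 := by
      rcases h.left with h1 | h1
      · exact absurd h1.1 hl
      · exact h1.2.2
    have hr : us σ gr < c gr := by
      rcases h.right with h1 | h1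
      · exact h1.1
      · exfalso
        have h2 := h.hm
        rw [hmL, h1.2.2] at h2
        norm_num at h2
    have hr' := hright hr
    exact ⟨by omega, by omega, hcardR⟩

/-- The data of one step: `R` says that the step raises the price. -/
def Stq (N : ℕ) (c : ℕ → ℝ) (D K : ℕ) (b ε : ℝ) (L : ℕ) (E : ℕ → ℕ → ℝ) (σ : St) (v : ℕ) (s : ℝ)
    (σ' : St) (i x0 : ℕ) (R : Prop) : Prop :=
  (¬ R → mo N σ σ' ≤ (4 * 2 ^ 25 + 1) * (8 * 2 ^ 25 + 1) * YY N σ σ') ∧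
  (R → mo N σ σ' ≤ (4 * 2 ^ 25 + 1) * (2 * s * 2 ^ i + YY N σ σ') ∧ i < K + 1 ∧
    x0 ∈ (range (N + 1)).image (lab i) ∧ 0 < E i x0 ∧
    ε ≤ E i x0 / (Real.sqrt ((K + 1 : ℕ) : ℝ) * 2 ^ i)) ∧
  (R → x0 = lab i v ∧ ∀ x, x ≤ N → x * (9 * 2 ^ 25) ≤ v * (9 * 2 ^ 25) + 2 ^ i →
    v * (9 * 2 ^ 25) ≤ x * (9 * 2 ^ 25) + 2 ^ i →
    σ.p x + s * (3 / 16 * (2 ^ i) ^ 2 / E i x0) ≤ σ'.p x)

theorem YY_nonneg (N : ℕ) (σ σ' : St) : 0 ≤ YY N σ σ' := by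
  unfold YY
  refine sum_nonneg fun k _ => ?_
  split_ifs
  · exact abs_nonneg _
  · exact le_rfl

theorem step_data (hCa : S_Ca) (hRa : S_Ra) (hLb : S_Lb) (N : ℕ) (c : ℕ → ℝ) (D K : ℕ)
    (b ε : ℝ) (L : ℕ) (BM : ℕ → ℝ) (σ : St) (v : ℕ) (s : ℝ) (σ' : St)
    (hb : 0 < b) (hs : 0 ≤ s) (hv : v ≤ N) (hD : D ≤ 2 ^ K)
    (hε : ε ≤ b / Real.sqrt ((K + 1 : ℕ) : ℝ)) (hF : ∀ k, σ.F k < b * 64 ^ L)
    (hI : Inv N c b ε σ) (hBM : ∀ k, b ≤ BM k) (hBt : ∀ k, BB N b L σ.F k ≤ BM k)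
    (hS : Stp N c D b L σ v s σ') :
    ∃ (i x0 : ℕ) (R : Prop), Stq N c D K b ε L
      (fun i x => ∑ k ∈ nr N x (2 * 2 ^ i), BM k) σ v s σ' i x0 R := by
  have hBM0 : ∀ k, 0 ≤ BM k := fun k => hb.le.trans (hBM k)
  rcases hS with h | ⟨gl, gr, mL, mR, q, h⟩
  · refine ⟨0, 0, False, ?_, fun h => h.elim, fun h => h.elim⟩
    intro _
    have h0 : mo N σ σ' = 0 := by
      unfold mo
      refine sum_eq_zero fun k _ => ?_
      rw [h.hf k, sub_self, abs_zero]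
    rw [h0]
    have := YY_nonneg N σ σ'
    positivity
  · obtain ⟨h1, h2, h3⟩ := rh_facts N c D b L σ v s σ' gl gr mL mR q h
    set ρ := rh c σ v gl gr with hρ
    set i := Nat.log 2 ρ with hi
    have hρ0 : ρ ≠ 0 := by omega
    have hlo : 2 ^ i ≤ ρ := Nat.pow_log_le_self 2 hρ0
    have hhi : ρ < 2 * 2 ^ i := by
      have h4 := Nat.lt_pow_succ_log_self (b := 2) (by norm_num) ρ
      rw [← hi, pow_succ] at h4
      omega
    have hiK : i < K + 1 := by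
      have h4 : i ≤ Nat.log 2 (2 ^ K) := Nat.log_mono_right (h2.trans hD)
      rw [Nat.log_pow (by norm_num)] at h4
      omega
    obtain ⟨_, hLb2, hLb3, _⟩ := hLb N i
    have hsub := hLb3 v
    have hE1 : ∑ k ∈ nr N v (2 ^ i), BM k ≤ ∑ k ∈ nr N (lab i v) (2 * 2 ^ i), BM k :=
      sum_le_sum_of_subset_of_nonneg hsub fun k _ _ => hBM0 k
    have hE2 : b * (2 : ℝ) ^ i ≤ ∑ k ∈ nr N v (2 ^ i), BM k := by
      have h5 : ((2 ^ i : ℕ) : ℝ) ≤ ((nr N v (2 ^ i)).card : ℝ) := by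
        exact_mod_cast h3 (2 ^ i) hlo
      have h6 : ((nr N v (2 ^ i)).card : ℝ) * b ≤ ∑ k ∈ nr N v (2 ^ i), BM k := by
        have := card_nsmul_le_sum (nr N v (2 ^ i)) BM b fun k _ => hBM k
        rwa [nsmul_eq_mul] at this
      have h7 : ((2 : ℝ) ^ i) = ((2 ^ i : ℕ) : ℝ) := by push_cast; ring
      rw [h7]
      have h8 : ((2 ^ i : ℕ) : ℝ) * b ≤ ((nr N v (2 ^ i)).card : ℝ) * b :=
        mul_le_mul_of_nonneg_right h5 hb.le
      linarith [mul_comm b ((2 ^ i : ℕ) : ℝ)]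
    have hE3 : b * (2 : ℝ) ^ i ≤ ∑ k ∈ nr N (lab i v) (2 * 2 ^ i), BM k := hE2.trans hE1
    have hpow : (0 : ℝ) < 2 ^ i := by positivity
    have hE0 : 0 < ∑ k ∈ nr N (lab i v) (2 * 2 ^ i), BM k :=
      lt_of_lt_of_le (mul_pos hb hpow) hE3
    have hsq : 0 < Real.sqrt ((K + 1 : ℕ) : ℝ) := by
      apply Real.sqrt_pos.mpr
      have : 0 < K + 1 := by omega
      exact_mod_cast this
    have hBle : ∑ k ∈ nr N v (2 ^ i), BB N b L σ.F k ≤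
        ∑ k ∈ nr N (lab i v) (2 * 2 ^ i), BM k :=
      (sum_le_sum fun k _ => hBt k).trans hE1
    have hca := hCa N c D b ε L σ v s σ' gl gr mL mR q hb hs hF hI h
    have hra := hRa N c D b ε L σ v s σ' gl gr mL mR q (2 ^ i)
      (∑ k ∈ nr N (lab i v) (2 * 2 ^ i), BM k) hb hs hF hI h Nat.one_le_two_pow hlo hhi hBle hE0
    rcases hra with hr | hr
    · exact ⟨0, 0, False, fun _ => hr, fun h => h.elim, fun h => h.elim⟩
    · refine ⟨i, lab i v, True, fun h => (h trivial).elim, fun _ => ⟨?_, hiK, ?_, hE0, ?_⟩,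
        fun _ => ⟨rfl, ?_⟩⟩
      · refine hca.trans ?_
        have h9 : (ρ : ℝ) ≤ 2 * 2 ^ i := by
          have : ρ ≤ 2 * 2 ^ i := hhi.le
          exact_mod_cast this
        have h10 : s * (ρ : ℝ) ≤ 2 * s * 2 ^ i := by
          have := mul_le_mul_of_nonneg_left h9 hs
          linarith
        have h11 : s * (ρ : ℝ) + YY N σ σ' ≤ 2 * s * 2 ^ i + YY N σ σ' := by linarith
        exact mul_le_mul_of_nonneg_left h11 (by norm_num)
      · exact mem_image_of_mem _ (mem_range.mpr (by omega))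
      · rw [le_div_iff₀ (mul_pos hsq hpow)]
        have h12 : ε * Real.sqrt ((K + 1 : ℕ) : ℝ) ≤ b := by
          rwa [le_div_iff₀ hsq] at hε
        calc ε * (Real.sqrt ((K + 1 : ℕ) : ℝ) * 2 ^ i) =
            (ε * Real.sqrt ((K + 1 : ℕ) : ℝ)) * 2 ^ i := by ring
          _ ≤ b * 2 ^ i := mul_le_mul_of_nonneg_right h12 hpow.le
          _ ≤ _ := hE3
      · intro x hx hx1 hx2
        have := hr x hx hx1 hx2
        simpa only [Nat.cast_pow, Nat.cast_ofNat] using this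

end MnM

open MnM in
theorem mnP : S_Bb → S_In → S_Sp → S_Bt → S_Ca → S_Ra → S_Lb → S_Cnt → S_Mn := by
  intro hBb hIn hSp hBt hCa hRa hLb hCnt
  refine ⟨10 ^ 6 * (2 * ((4 * 2 ^ 25 + 1) + (4 * 2 ^ 25 + 1) * (8 * 2 ^ 25 + 1)) +
    12 * (4 * 2 ^ 25 + 1) + 4 * (4 * 2 ^ 25 + 1) * (1 / (3 / 16) + 1) * (36 * 2 ^ 25 + 3)),
    by positivity, ?_⟩
  intro N c D K b ε L M σ v s S hK hD hR hO hε
  obtain ⟨hInv, hAbs, hMono⟩ := hIn.2 N c D b ε L M σ v s hR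
  have hb := hR.hb
  obtain ⟨hBb1, hBb2, _⟩ := hBb N b L hb
  have hBM : ∀ k, b ≤ BB N b L (σ M).F k := fun k =>
    ((hInv M le_rfl).Fb k).trans (hBb1 (σ M).F k)
  have hBM0 : ∀ k, 0 ≤ BB N b L (σ M).F k := fun k => hb.le.trans (hBM k)
  set T := ∑ k ∈ Icc 1 N, BB N b L (σ M).F k with hT
  have hT0 : 0 ≤ T := sum_nonneg fun k _ => hBM0 k
  have hdata : ∀ t, ∃ (i x0 : ℕ) (R : Prop), t < M → Stq N c D K b ε L
      (fun i x => ∑ k ∈ nr N x (2 * 2 ^ i), BB N b L (σ M).F k) (σ t) (v t) (s t) (σ (t + 1))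
      i x0 R := by
    intro t
    by_cases ht : t < M
    · obtain ⟨i, x0, R, h⟩ := step_data hCa hRa hLb N c D K b ε L (BB N b L (σ M).F) (σ t) (v t)
        (s t) (σ (t + 1)) hb (hR.hs t ht).1 (hR.hv t ht) hD hε (hR.top t ht.le) (hInv t ht.le) hBM
        (fun k => (hMono t M ht.le le_rfl k).2.2.2.1) (hR.step t ht)
      exact ⟨i, x0, R, fun _ => h⟩
    · exact ⟨0, 0, False, fun h => absurd h ht⟩
  choose sc lb R hP using hdata
  have hcnt := hCnt M (K + 1) s (fun t => (σ t).p (v t)) (fun t => mo N (σ t) (σ (t + 1)))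
    (fun t => YY N (σ t) (σ (t + 1))) sc lb v (fun t x => (σ t).p x)
    (fun i x => ∑ k ∈ nr N x (2 * 2 ^ i), BB N b L (σ M).F k)
    (fun i => (range (N + 1)).image (lab i)) R ε (4 * 2 ^ 25 + 1)
    ((4 * 2 ^ 25 + 1) * (8 * 2 ^ 25 + 1)) (36 * 2 ^ 25 + 3) (3 / 16) T (by omega) (by norm_num)
    (by norm_num) (by norm_num) hT0 (by norm_num)
    (fun t ht => ⟨(hR.hs t ht).1, (hR.hs t ht).2, YY_nonneg _ _ _, rfl⟩)
    (fun t t' ht ht' => ⟨(hInv t ht.le).p0 _, (hMono t (t + 1) (by omega) (by omega) _).2.1⟩)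
    (fun t ht hn => (hP t ht).1 hn)
    (fun t ht hn => (hP t ht).2.1 hn)
    (by
      intro t t' htt ht' hRt hRt' hsc hlb
      have ht : t < M := by omega
      obtain ⟨h1, h2⟩ := (hP t ht).2.2 hRt
      obtain ⟨h3, _⟩ := (hP t' ht').2.2 hRt'
      have h4 : lab (sc t) (v t) = lab (sc t) (v t') := by
        rw [← h1, hlb, h3, hsc]
      obtain ⟨h5, h6⟩ := (hLb N (sc t)).2.1 (v t) (v t') h4
      exact h2 (v t') (hR.hv t' ht') h5 h6)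
    (fun i _ => (hLb N i).2.2.2 (BB N b L (σ M).F) hBM0)
    (fun i x _ _ => sum_nonneg fun k _ => hBM0 k)
  obtain ⟨hY, hPr⟩ := hSp N c D b ε L M σ v s hR
  have hBt' := hBt N c D b ε L M σ v s S hR hO
  rw [← hT] at hY hPr hBt'
  have hK1 : (1 : ℝ) ≤ K := by exact_mod_cast hK
  have hsK : 1 ≤ Real.sqrt K := by
    rw [show (1 : ℝ) = Real.sqrt 1 by rw [Real.sqrt_one]]
    exact Real.sqrt_le_sqrt hK1
  have hsK' : Real.sqrt ((K + 1 : ℕ) : ℝ) ≤ 2 * Real.sqrt K := by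
    have h1 : (2 : ℝ) * Real.sqrt K = Real.sqrt (4 * K) := by
      rw [Real.sqrt_mul (by norm_num)]
      congr 1
      rw [show (4 : ℝ) = 2 ^ 2 by norm_num, Real.sqrt_sq (by norm_num)]
    rw [h1]
    apply Real.sqrt_le_sqrt
    push_cast
    linarith
  have hsK0 : 0 ≤ Real.sqrt ((K + 1 : ℕ) : ℝ) := Real.sqrt_nonneg _
  set Q := Real.sqrt ((K + 1 : ℕ) : ℝ) with hQ
  set q := Real.sqrt (K : ℝ) with hq
  have hq0 : 0 ≤ q := by linarith
  set Z := ∑ k ∈ Icc 1 N, |S k| + b * N with hZ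
  have hZ0 : 0 ≤ Z := by
    rw [hZ]
    have : 0 ≤ ∑ k ∈ Icc 1 N, |S k| := sum_nonneg fun k _ => abs_nonneg _
    have : 0 ≤ b * N := by positivity
    linarith
  refine hcnt.trans ?_
  have e1 : ((4 * 2 ^ 25 + 1 : ℝ) + (4 * 2 ^ 25 + 1) * (8 * 2 ^ 25 + 1)) *
      ∑ t ∈ range M, YY N (σ t) (σ (t + 1)) ≤
      ((4 * 2 ^ 25 + 1 : ℝ) + (4 * 2 ^ 25 + 1) * (8 * 2 ^ 25 + 1)) * (2 * T) :=
    mul_le_mul_of_nonneg_left hY (by norm_num)
  have e2 : 2 * (4 * 2 ^ 25 + 1 : ℝ) * Q * ∑ t ∈ range M, s t * (σ t).p (v t) ≤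
      2 * (4 * 2 ^ 25 + 1 : ℝ) * Q * (3 * T) :=
    mul_le_mul_of_nonneg_left hPr (by positivity)
  have e3 : Q * T ≤ 2 * q * T := mul_le_mul_of_nonneg_right hsK' hT0
  have e4 : T ≤ q * T := by
    have := mul_le_mul_of_nonneg_right hsK hT0
    linarith
  have e5 : q * T ≤ q * (10 ^ 6 * Z) := mul_le_mul_of_nonneg_left hBt' hq0
  have e6 : ((4 * 2 ^ 25 + 1 : ℝ) + (4 * 2 ^ 25 + 1) * (8 * 2 ^ 25 + 1)) * (2 * T) ≤
      ((4 * 2 ^ 25 + 1 : ℝ) + (4 * 2 ^ 25 + 1) * (8 * 2 ^ 25 + 1)) * (2 * (q * T)) :=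
    mul_le_mul_of_nonneg_left (by linarith) (by norm_num)
  have e7 : 2 * (4 * 2 ^ 25 + 1 : ℝ) * Q * (3 * T) ≤ 2 * (4 * 2 ^ 25 + 1 : ℝ) * (3 * (2 * q * T)) := by
    have : 2 * (4 * 2 ^ 25 + 1 : ℝ) * Q * (3 * T) = 2 * (4 * 2 ^ 25 + 1 : ℝ) * (3 * (Q * T)) := by ring
    rw [this]
    exact mul_le_mul_of_nonneg_left (by linarith) (by norm_num)
  have e8 : 2 * (4 * 2 ^ 25 + 1 : ℝ) * (1 / (3 / 16) + 1) * (36 * 2 ^ 25 + 3) * Q * T ≤
      2 * (4 * 2 ^ 25 + 1 : ℝ) * (1 / (3 / 16) + 1) * (36 * 2 ^ 25 + 3) * (2 * q * T) := by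
    have : 2 * (4 * 2 ^ 25 + 1 : ℝ) * (1 / (3 / 16) + 1) * (36 * 2 ^ 25 + 3) * Q * T =
      2 * (4 * 2 ^ 25 + 1 : ℝ) * (1 / (3 / 16) + 1) * (36 * 2 ^ 25 + 3) * (Q * T) := by ring
    rw [this]
    exact mul_le_mul_of_nonneg_left e3 (by norm_num)
  have e9 : (2 * ((4 * 2 ^ 25 + 1 : ℝ) + (4 * 2 ^ 25 + 1) * (8 * 2 ^ 25 + 1)) +
    12 * (4 * 2 ^ 25 + 1) + 4 * (4 * 2 ^ 25 + 1) * (1 / (3 / 16) + 1) * (36 * 2 ^ 25 + 3)) *
    (q * T) ≤ (2 * ((4 * 2 ^ 25 + 1 : ℝ) + (4 * 2 ^ 25 + 1) * (8 * 2 ^ 25 + 1)) +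
    12 * (4 * 2 ^ 25 + 1) + 4 * (4 * 2 ^ 25 + 1) * (1 / (3 / 16) + 1) * (36 * 2 ^ 25 + 3)) *
    (q * (10 ^ 6 * Z)) := mul_le_mul_of_nonneg_left e5 (by norm_num)
  calc _ ≤ ((4 * 2 ^ 25 + 1 : ℝ) + (4 * 2 ^ 25 + 1) * (8 * 2 ^ 25 + 1)) * (2 * (q * T)) +
        2 * (4 * 2 ^ 25 + 1 : ℝ) * (3 * (2 * q * T)) +
        2 * (4 * 2 ^ 25 + 1 : ℝ) * (1 / (3 / 16) + 1) * (36 * 2 ^ 25 + 3) * (2 * q * T) :=
        add_le_add (add_le_add (e1.trans e6) (e2.trans e7)) e8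
    _ = (2 * ((4 * 2 ^ 25 + 1 : ℝ) + (4 * 2 ^ 25 + 1) * (8 * 2 ^ 25 + 1)) +
        12 * (4 * 2 ^ 25 + 1) + 4 * (4 * 2 ^ 25 + 1) * (1 / (3 / 16) + 1) * (36 * 2 ^ 25 + 3)) *
        (q * T) := by ring
    _ ≤ _ := e9
    _ = _ := by ring

end Pool.Agent.MP_a4c1f4_lc.SQ
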