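import Pool.Agent.Lib.MP_a4c1f4_lc.SQ.Spec

set_option autoImplicit false

/-!
Online matching on the line, ratio `O(sqrt (log n))`: existence of one step (`S_On`).
-/

namespace Pool.Agent.MP_a4c1f4_lc.SQ

open Finset

namespace OnM

theorem sum_us (N : ℕ) (σ : St) (h0 : σ.f 0 = 0) (hN : σ.f (N + 1) = 0) :
    ∑ x ∈ range (N + 1), us σ x = ∑ x ∈ range (N + 1), σ.r x := by
  have h : ∀ n : ℕ, ∑ x ∈ range n, us σ x = ∑ x ∈ range n, σ.r x + σ.f 0 - σ.f n := by
    intro n
    induction n with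
    | zero => simp
    | succ n ih =>
      rw [sum_range_succ, sum_range_succ, ih]
      unfold us
      ring
  rw [h, h0, hN]
  ring

/-- the masses and the price at `v`. -/
theorem ms (PL PR : Prop) (A B : ℝ) (hA : 0 ≤ A) (hB : 0 ≤ B) (h : PL ∨ PR) :
    ∃ mL mR q : ℝ, 0 ≤ mL ∧ 0 ≤ mR ∧ mL + mR = 1 ∧ (PL → q = mL * A) ∧ (¬ PL → mL = 0) ∧
      (PR → q = mR * B) ∧ (¬ PR → mR = 0) := by
  by_cases hL : PL
  · by_cases hR : PR
    · by_cases h0 : A + B = 0
      · have hA0 : A = 0 := by linarith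
        have hB0 : B = 0 := by linarith
        refine ⟨1 / 2, 1 / 2, 0, by norm_num, by norm_num, by norm_num, fun _ => ?_,
          fun h => absurd hL h, fun _ => ?_, fun h => absurd hR h⟩
        · rw [hA0, mul_zero]
        · rw [hB0, mul_zero]
      · have hp : 0 < A + B := lt_of_le_of_ne (by linarith) (Ne.symm h0)
        refine ⟨B / (A + B), A / (A + B), A * B / (A + B), div_nonneg hB hp.le,
          div_nonneg hA hp.le, ?_, fun _ => ?_, fun h => absurd hL h, fun _ => ?_,
          fun h => absurd hR h⟩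
        · rw [← add_div, add_comm B A, div_self h0]
        · ring
        · ring
    · exact ⟨1, 0, A, by norm_num, le_rfl, by norm_num, fun _ => by ring, fun h => absurd hL h,
        fun h => absurd h hR, fun _ => rfl⟩
  · rcases h with h | hR
    · exact absurd h hL
    · exact ⟨0, 1, B, le_rfl, by norm_num, by norm_num, fun h => absurd h hL, fun _ => rfl,
        fun _ => by ring, fun h => absurd hR h⟩

/-- the size of the step. -/
theorem sz (τ ε x y mL mR : ℝ) (hτ : 0 < τ) (hε : 0 < ε) (hx : 0 ≤ x) (hy : 0 ≤ y)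
    (hL : 0 ≤ mL) (hR : 0 ≤ mR) (h1 : mL ≠ 0 → 0 < x) (h2 : mR ≠ 0 → 0 < y) :
    ∃ s : ℝ, 0 < s ∧ s ≤ ε ∧ s ≤ τ ∧ s * mL ≤ x ∧ s * mR ≤ y ∧
      (s = τ ∨ s = ε ∨ (mL ≠ 0 ∧ s * mL = x) ∨ (mR ≠ 0 ∧ s * mR = y)) := by
  have key : ∀ (s0 z m : ℝ), 0 < s0 → 0 ≤ z → 0 ≤ m → (m ≠ 0 → 0 < z) →
      ∃ s : ℝ, 0 < s ∧ s ≤ s0 ∧ s * m ≤ z ∧ (s = s0 ∨ (m ≠ 0 ∧ s * m = z)) := by
    intro s0 z m hs0 hz hm h
    by_cases hm0 : m = 0
    · exact ⟨s0, hs0, le_rfl, by rw [hm0, mul_zero]; exact hz, Or.inl rfl⟩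
    · have hmp : 0 < m := lt_of_le_of_ne hm (Ne.symm hm0)
      by_cases hle : s0 * m ≤ z
      · exact ⟨s0, hs0, le_rfl, hle, Or.inl rfl⟩
      · refine ⟨z / m, div_pos (h hm0) hmp, ?_, ?_, Or.inr ⟨hm0, ?_⟩⟩
        · rw [div_le_iff₀ hmp]
          linarith
        · rw [div_mul_cancel₀ _ hm0]
        · rw [div_mul_cancel₀ _ hm0]
  obtain ⟨s1, p1, l1, c1, o1⟩ := key (min τ ε) x mL (lt_min hτ hε) hx hL h1
  obtain ⟨s2, p2, l2, c2, o2⟩ := key s1 y mR p1 hy hR h2
  refine ⟨s2, p2, l2.trans (l1.trans (min_le_right _ _)), l2.trans (l1.trans (min_le_left _ _)),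
    (mul_le_mul_of_nonneg_right l2 hL).trans c1, c2, ?_⟩
  rcases o2 with o2 | o2
  · rcases o1 with o1 | o1
    · rcases min_choice τ ε with h | h
      · left
        rw [o2, o1, h]
      · right; left
        rw [o2, o1, h]
    · right; right; left
      rw [o2]
      exact o1
  · right; right; right
    exact o2

/-- the nearest node to the left. -/
theorem lft (P : ℕ → Prop) (v : ℕ) : ∃ gl, gl ≤ v ∧ (P gl ∨ gl = 0) ∧
    ∀ x, gl < x → x ≤ v → ¬ P x := by
  classical
  refine ⟨Nat.findGreatest (fun x => P x ∨ x = 0) v, Nat.findGreatest_le v,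
    Nat.findGreatest_spec (P := fun x => P x ∨ x = 0) (Nat.zero_le v) (Or.inr rfl), ?_⟩
  intro x h1 h2 h3
  exact Nat.findGreatest_is_greatest h1 h2 (Or.inl h3)

/-- the nearest node to the right. -/
theorem rgt (P : ℕ → Prop) (N v : ℕ) (hv : v ≤ N) : ∃ gr, v ≤ gr ∧ gr ≤ N ∧ (P gr ∨ gr = N) ∧
    ∀ x, v ≤ x → x < gr → ¬ P x := by
  classical
  have hex : ∃ x, v ≤ x ∧ (P x ∨ x = N) := ⟨N, hv, Or.inr rfl⟩
  refine ⟨Nat.find hex, (Nat.find_spec hex).1, Nat.find_min' hex ⟨hv, Or.inr rfl⟩,
    (Nat.find_spec hex).2, ?_⟩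
  intro x h1 h2 h3
  exact Nat.find_min hex h2 ⟨h1, Or.inl h3⟩

/-- the state after a move. -/
noncomputable def nx (N : ℕ) (b : ℝ) (L : ℕ) (σ : St) (v gl gr : ℕ) (mL mR q s : ℝ) : St where
  r := fun x => σ.r x + if x = v then s else 0
  f := fun k => σ.f k + if gl < k ∧ k ≤ v then -(s * mL) else if v < k ∧ k ≤ gr then s * mR else 0
  p := fun x => σ.p x + s * qq N b L σ v gl gr mL mR q x
  F := fun k => max (σ.F k) |σ.f k + if gl < k ∧ k ≤ v then -(s * mL) else
    if v < k ∧ k ≤ gr then s * mR else 0|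

theorem us_gl (N : ℕ) (b : ℝ) (L : ℕ) (σ : St) (v gl gr : ℕ) (mL mR q s : ℝ) (h : gl < v) :
    us (nx N b L σ v gl gr mL mR q s) gl = us σ gl + s * mL := by
  unfold us nx
  simp only
  rw [if_neg (by omega), if_neg (by omega), if_neg (by omega), if_pos (by omega)]
  ring

theorem us_gr (N : ℕ) (b : ℝ) (L : ℕ) (σ : St) (v gl gr : ℕ) (mL mR q s : ℝ) (h : v < gr) :
    us (nx N b L σ v gl gr mL mR q s) gr = us σ gr + s * mR := by
  unfold us nx
  simp only
  rw [if_neg (by omega), if_neg (by omega), if_pos (by omega), if_neg (by omega),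
    if_neg (by omega)]
  ring

theorem selfCase (N : ℕ) (c : ℕ → ℝ) (D : ℕ) (b ε : ℝ) (L : ℕ) (σ : St) (v : ℕ) (τ : ℝ)
    (hε : 0 < ε) (hv : v ≤ N) (hτ : 0 < τ) (hf : us σ v < c v) :
    ∃ (s : ℝ) (σ' : St), 0 < s ∧ s ≤ ε ∧ s ≤ τ ∧ Stp N c D b L σ v s σ' ∧
    (s = τ ∨ s = ε ∨ ∃ x, x ≤ N ∧ us σ x < c x ∧ us σ' x = c x) := by
  have hp : 0 < c v - us σ v := by linarith
  refine ⟨min (min τ ε) (c v - us σ v), ⟨fun x => σ.r x + if x = v then
    min (min τ ε) (c v - us σ v) else 0, σ.f, σ.p, σ.F⟩, lt_min (lt_min hτ hε) hp,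
    (min_le_left _ _).trans (min_le_right _ _), (min_le_left _ _).trans (min_le_left _ _), ?_, ?_⟩
  · left
    refine ⟨?_, fun _ => rfl, fun _ => rfl, fun _ => rfl, fun _ => rfl⟩
    have := min_le_right (min τ ε) (c v - us σ v)
    linarith
  · rcases min_choice (min τ ε) (c v - us σ v) with h | h
    · rcases min_choice τ ε with h' | h'
      · left
        rw [h, h']
      · right; left
        rw [h, h']
    · right; right
      refine ⟨v, hv, hf, ?_⟩
      rw [h]
      unfold us
      simp only [if_true]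
      ring

end OnM

open OnM in
theorem onP : S_Bb → S_On := by
  intro hBb N c D b ε n0 L σ v τ hb hε hv hτ hI hD hc h0 h1
  rcases lt_or_ge (us σ v) (c v) with hf | hf
  · exact selfCase N c D b ε L σ v τ hε hv hτ hf
  have hvf : us σ v = c v := le_antisymm (hI.cap v hv) hf
  have hsu : ∑ x ∈ range (N + 1), us σ x = ∑ x ∈ range (N + 1), σ.r x :=
    sum_us N σ hI.f0 (hI.fN _ (Nat.lt_succ_self N))
  have hBp : ∀ k, 0 < BB N b L σ.F k := fun k =>
    lt_of_lt_of_le hb ((hI.Fb k).trans ((hBb N b L hb).1 σ.F k))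
  have huL : ∀ k, 0 ≤ uL N b L σ k := by
    intro k
    unfold uL
    split_ifs
    · exact le_rfl
    · exact (div_pos one_pos (hBp k)).le
  have huR : ∀ k, 0 ≤ uR N b L σ k := by
    intro k
    unfold uR
    split_ifs
    · exact le_rfl
    · exact (div_pos one_pos (hBp k)).le
  obtain ⟨gl, hgl, hglP, hglN⟩ := lft (fun x => us σ x < c x) v
  obtain ⟨gr, hgr, hgrN, hgrP, hgrL⟩ := rgt (fun x => us σ x < c x) N v hv
  have full : ∀ x, gl < x → x < gr → us σ x = c x := by
    intro x hx1 hx2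
    apply le_antisymm (hI.cap x (by omega))
    rcases le_total x v with h | h
    · exact not_lt.mp (hglN x hx1 h)
    · exact not_lt.mp (hgrL x h hx2)
  have blk : ∀ a, a + D ≤ N + 1 → (∀ x, a ≤ x → x < a + D → us σ x = c x) → False := by
    intro a ha hfl
    have h2 := hc a ha
    have h3 : ∑ y ∈ Ico a (a + D), c y = ∑ y ∈ Ico a (a + D), us σ y := by
      apply sum_congr rfl
      intro y hy
      rw [mem_Ico] at hy
      exact (hfl y hy.1 hy.2).symm
    have h4 : ∑ y ∈ Ico a (a + D), us σ y ≤ ∑ x ∈ range (N + 1), us σ x := by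
      apply sum_le_sum_of_subset_of_nonneg
      · intro y hy
        rw [mem_Ico] at hy
        rw [mem_range]
        omega
      · intro y hy _
        rw [mem_range] at hy
        exact hI.u0 y (by omega)
    linarith
  have hnd : us σ gl < c gl ∨ us σ gr < c gr := by
    by_contra hcon
    rw [not_or, not_lt, not_lt] at hcon
    obtain ⟨hl, hr⟩ := hcon
    have hgl0 : gl = 0 := hglP.resolve_left (not_lt.mpr hl)
    have hgrN' : gr = N := hgrP.resolve_left (not_lt.mpr hr)
    have hall : ∑ x ∈ range (N + 1), c x ≤ ∑ x ∈ range (N + 1), us σ x := by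
      apply sum_le_sum
      intro x hx
      rw [mem_range] at hx
      rcases Nat.eq_zero_or_pos x with h | h
      · rw [h, ← hgl0]
        exact hl
      · rcases (show x = N ∨ x < N by omega) with h' | h'
        · rw [h', ← hgrN']
          exact hr
        · exact (full x (by omega) (by omega)).ge
    linarith
  obtain ⟨mL, mR, q, hL0, hR0, hm, q1, q2, q3, q4⟩ := ms (us σ gl < c gl) (us σ gr < c gr)
    (∑ k ∈ Ioc gl v, uL N b L σ k) (∑ k ∈ Ioc v gr, uR N b L σ k)
    (sum_nonneg fun k _ => huL k) (sum_nonneg fun k _ => huR k) hnd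
  obtain ⟨s, hs0, hsε, hsτ, hsL, hsR, hor⟩ := sz τ ε (c gl - us σ gl) (c gr - us σ gr) mL mR hτ hε
    (by linarith [hI.cap gl (hgl.trans hv)]) (by linarith [hI.cap gr hgrN]) hL0 hR0
    (fun h => by
      have : us σ gl < c gl := by
        by_contra hn
        exact h (q2 hn)
      linarith)
    (fun h => by
      have : us σ gr < c gr := by
        by_contra hn
        exact h (q4 hn)
      linarith)
  refine ⟨s, nx N b L σ v gl gr mL mR q s, hs0, hsε, hsτ, ?_, ?_⟩
  · right
    refine ⟨gl, gr, mL, mR, q, ?_⟩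
    exact
      { hgl := hgl
        hgr := hgr
        hN := hgrN
        dl := by
          by_contra hn
          exact blk (gl + 1) (by omega) (fun x hx1 hx2 => full x (by omega) (by omega))
        dr := by
          by_contra hn
          refine blk v (by omega) (fun x hx1 hx2 => ?_)
          rcases Nat.eq_or_lt_of_le hx1 with h | h
          · rw [← h]
            exact hvf
          · exact full x (by omega) (by omega)
        full := full
        hv := hvf
        mL0 := hL0
        mR0 := hR0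
        hm := hm
        left := by
          by_cases h : us σ gl < c gl
          · exact Or.inl ⟨h, q1 h⟩
          · exact Or.inr ⟨hglP.resolve_left h, le_antisymm (hI.cap gl (hgl.trans hv))
              (not_lt.mp h), q2 h⟩
        right := by
          by_cases h : us σ gr < c gr
          · exact Or.inl ⟨h, q3 h⟩
          · exact Or.inr ⟨hgrP.resolve_left h, le_antisymm (hI.cap gr hgrN)
              (not_lt.mp h), q4 h⟩
        capL := by linarith
        capR := by linarith
        hr := fun _ => rfl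
        hf := fun _ => rfl
        hp := fun _ => rfl
        hF := fun _ => rfl }
  · rcases hor with h | h | ⟨hne, h⟩ | ⟨hne, h⟩
    · exact Or.inl h
    · exact Or.inr (Or.inl h)
    · right; right
      have hlt : us σ gl < c gl := by
        by_contra hn
        exact hne (q2 hn)
      have hglv : gl < v := by
        rcases Nat.eq_or_lt_of_le hgl with h' | h'
        · rw [h', hvf] at hlt
          exact absurd hlt (lt_irrefl _)
        · exact h'
      refine ⟨gl, hgl.trans hv, hlt, ?_⟩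
      rw [us_gl N b L σ v gl gr mL mR q s hglv, h]
      ring
    · right; right
      have hlt : us σ gr < c gr := by
        by_contra hn
        exact hne (q4 hn)
      have hgrv : v < gr := by
        rcases Nat.eq_or_lt_of_le hgr with h' | h'
        · rw [← h', hvf] at hlt
          exact absurd hlt (lt_irrefl _)
        · exact h'
      refine ⟨gr, hgrN, hlt, ?_⟩
      rw [us_gr N b L σ v gl gr mL mR q s hgrv, h]
      ring

end Pool.Agent.MP_a4c1f4_lc.SQ
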