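import Pool.Agent.Lib.MP_a4c1f4_lc.SQ.Spec

set_option autoImplicit false

/-!
MP_a4c1f4_lc, project SQ, module Py: the price of a step.
-/

namespace Pool.Agent.MP_a4c1f4_lc.SQ

open Finset

namespace PyM

/-- Summation by parts. -/
theorem abel (p d : ℕ → ℝ) (N : ℕ) :
    ∑ k ∈ Icc 1 N, (p (k - 1) - p k) * d k =
      ∑ x ∈ range (N + 1), p x * (d (x + 1) - d x) + p 0 * d 0 - p N * d (N + 1) := by
  induction N with
  | zero =>
    simp
    ring
  | succ N ih =>
    rw [Finset.sum_Icc_succ_top (by omega), ih, Finset.sum_range_succ _ (N + 1)]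
    have h : N + 1 - 1 = N := by omega
    rw [h]
    ring

end PyM

open PyM in
theorem pyP : S_Py := by
  intro N c D b ε L σ v s σ' hv hI hA
  have h0 : σ'.f 0 - σ.f 0 = 0 := by rw [hA.f0, sub_self]
  have hN : σ'.f (N + 1) - σ.f (N + 1) = 0 := by rw [hA.fN (N + 1) (by omega), sub_self]
  have h1 := abel σ.p (fun k => σ'.f k - σ.f k) N
  simp only [h0, hN, mul_zero, add_zero, sub_zero] at h1
  have h2 : ∑ k ∈ Icc 1 N, SQ.sl σ k * (σ'.f k - σ.f k) =
      ∑ k ∈ Icc 1 N, (σ.p (k - 1) - σ.p k) * (σ'.f k - σ.f k) := rfl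
  rw [h2, h1]
  have h3 : ∀ x ∈ range (N + 1), σ.p x * (σ'.f (x + 1) - σ.f (x + 1) - (σ'.f x - σ.f x)) =
      if x = v then σ.p x * s else 0 := by
    intro x hx
    have hxN : x ≤ N := by
      have := Finset.mem_range.1 hx
      omega
    have e1 : σ'.f (x + 1) - σ.f (x + 1) - (σ'.f x - σ.f x) =
        (σ'.r x - σ.r x) - (us σ' x - us σ x) := by
      unfold us
      ring
    have e2 : σ.p x * (us σ' x - us σ x) = 0 := by
      by_cases h : us σ' x = us σ x
      · rw [h, sub_self, mul_zero]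
      · rw [hI.pf x hxN (hA.ua x hxN h), zero_mul]
    rw [e1, mul_sub, e2, sub_zero, hA.hr x, add_sub_cancel_left]
    split_ifs
    · rfl
    · rw [mul_zero]
  rw [Finset.sum_congr rfl h3, Finset.sum_ite_eq' (range (N + 1)) v (fun x => σ.p x * s),
    if_pos (Finset.mem_range.2 (by omega)), mul_comm]

end Pool.Agent.MP_a4c1f4_lc.SQ
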