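import Pool.Agent.Lib.MP_a4c1f4_lc.SQ.Spec

/-! # SQ, module Qs (helper58): synchronization, one step -/

set_option autoImplicit false

namespace Pool.Agent.MP_a4c1f4_lc.SQ

namespace QsM

/-- the case of a current to the right -/
theorem pos (F F' f f' g g' θ : ℝ) (hF : 0 < F) (hF' : F' = max F |f'|) (hf : |f| ≤ F) (hθ : 0 ≤ θ)
    (hg : |g| ≤ 1 + θ) (hd : |f' - f| ≤ θ * F) (h0 : 0 ≤ f' - f)
    (hs : (0 < f' - f ∧ 1 ≤ g) → g' = g) (hu : ¬ (0 < f' - f ∧ 1 ≤ g) → g' = g + (f' - f) / F) :
    max (|g' - f' / F'| - θ) 0 ≤ max (max (|g - f / F| - θ) 0 - (F' / F - 1)) 0 := by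
  have hf1 : -F ≤ f := (abs_le.1 hf).1
  have hg1 : g ≤ 1 + θ := (abs_le.1 hg).2
  rcases eq_or_lt_of_le h0 with h1 | h1
  · have h2 : f' = f := by linarith
    have h3 : g' = g := by
      rw [hu (fun h => by linarith [h.1]), h2, sub_self, zero_div, add_zero]
    have h4 : F' = F := by rw [hF', h2, max_eq_left hf]
    rw [h2, h3, h4, div_self hF.ne', sub_self, sub_zero]
    exact le_max_left _ _
  · have hff : f / F ≤ f' / F := div_le_div_of_nonneg_right (by linarith) hF.le
    rcases le_or_gt f' F with h2 | h2
    · have h4 : F' = F := by rw [hF', max_eq_left (abs_le.2 ⟨by linarith, h2⟩)]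
      have h5 : f' / F ≤ 1 := by rw [div_le_one hF]; exact h2
      rw [h4, div_self hF.ne', sub_self, sub_zero]
      refine le_trans ?_ (le_max_left _ _)
      rcases le_or_gt 1 g with h3 | h3
      · rw [hs ⟨h1, h3⟩, abs_of_nonneg (by linarith : 0 ≤ g - f' / F),
          abs_of_nonneg (by linarith : 0 ≤ g - f / F)]
        exact max_le_max_right _ (by linarith)
      · rw [hu (fun h => by linarith [h.2])]
        have h6 : g + (f' - f) / F - f' / F = g - f / F := by rw [sub_div]; ring
        rw [h6]
    · have hf'0 : 0 < f' := hF.trans h2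
      have h4 : F' = f' := by rw [hF', abs_of_pos hf'0, max_eq_right h2.le]
      have h5 : 1 < f' / F := by rw [one_lt_div hF]; exact h2
      rw [h4, div_self hf'0.ne']
      rcases le_or_gt 1 g with h3 | h3
      · rw [hs ⟨h1, h3⟩, abs_of_nonneg (by linarith : 0 ≤ g - 1)]
        refine max_le ?_ (le_max_right _ _)
        refine le_trans ?_ (le_max_right _ _)
        linarith
      · have h7 : (f' - f) / F ≤ θ := by
          rw [div_le_iff₀ hF]
          exact (le_abs_self _).trans hd
        rw [hu (fun h => by linarith [h.2])]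
        have h6 : (f' - f) / F = f' / F - f / F := sub_div _ _ _
        rcases le_or_gt (-θ) (g + (f' - f) / F - 1) with h8 | h8
        · refine max_le ?_ (le_max_right _ _)
          refine le_trans ?_ (le_max_right _ _)
          have : |g + (f' - f) / F - 1| ≤ θ := abs_le.2 ⟨h8, by linarith⟩
          linarith
        · refine max_le ?_ (le_max_right _ _)
          refine le_trans ?_ (le_max_left _ _)
          have h9 : |g + (f' - f) / F - 1| = -(g + (f' - f) / F - 1) := abs_of_neg (by linarith)
          have h10 : |g - f / F| = -(g - f / F) := abs_of_neg (by rw [h6] at h8; linarith)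
          have h11 : |g - f / F| - θ ≤ max (|g - f / F| - θ) 0 := le_max_left _ _
          rw [h9]
          rw [h10] at h11 ⊢
          rw [h6]
          linarith

end QsM

theorem qsP : S_Qs := by
  intro F F' f f' g g' θ hF hF' hf hθ hg hd hs hu
  rcases le_total 0 (f' - f) with h0 | h0
  · refine QsM.pos F F' f f' g g' θ hF hF' hf hθ hg hd h0 (fun h => hs (Or.inl h)) (fun h => hu ?_)
    rintro (h1 | h1)
    · exact h h1
    · linarith [h1.1]
  · have h := QsM.pos F F' (-f) (-f') (-g) (-g') θ hF (by rw [abs_neg]; exact hF') (by rw [abs_neg]; exact hf) hθ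
      (by rw [abs_neg]; exact hg) (by rw [show -f' - -f = -(f' - f) by ring, abs_neg]; exact hd) (by linarith)
      (fun h => by rw [hs (Or.inr ⟨by linarith [h.1], by linarith [h.2]⟩)])
      (fun h => by
        rw [hu (fun h1 => ?_)]
        · ring
        · rcases h1 with h1 | h1
          · linarith [h1.1]
          · exact h ⟨by linarith [h1.1], by linarith [h1.2]⟩)
    have e1 : -g' - -f' / F' = -(g' - f' / F') := by ring
    have e2 : -g - -f / F = -(g - f / F) := by ring
    rw [e1, e2, abs_neg, abs_neg] at h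
    exact h

end Pool.Agent.MP_a4c1f4_lc.SQ
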