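import Pool.Agent.Lib.MP_a4c1f4_lc.SQ.Spec

/-!
# Project SQ, module Sp: price and saturated current
-/

set_option autoImplicit false

namespace Pool.Agent.MP_a4c1f4_lc.SQ

open Finset

namespace SpM

open Classical in
/-- one edge, all steps -/
theorem edge (hEd : S_Ed) (M : ℕ) (B f g : ℕ → ℝ) (sat : ℕ → Prop) (θ : ℝ) (hθ : 0 ≤ θ)
    (hθ1 : θ ≤ 1 / 512) (hB : ∀ t, t ≤ M → 0 < B t) (hBm : ∀ t, t < M → B t ≤ B (t + 1))
    (hf : ∀ t, t ≤ M → |f t| ≤ B t) (hg : ∀ t, t ≤ M → |g t| ≤ 1 + θ) (f0 : f 0 = 0) (g0 : g 0 = 0)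
    (hsat : ∀ t, t < M → (sat t ↔ ((0 < f (t + 1) - f t ∧ 1 ≤ g t) ∨ (f (t + 1) - f t < 0 ∧ g t ≤ -1))))
    (h1 : ∀ t, t < M → sat t → g (t + 1) = g t)
    (h2 : ∀ t, t < M → ¬ sat t → g (t + 1) = g t + (f (t + 1) - f t) / B t) :
    ∑ t ∈ range M, (if sat t then |f (t + 1) - f t| else 0) ≤ 2 * B M ∧
    ∑ t ∈ range M, g t * (f (t + 1) - f t) ≤ 3 * B M := by
  have key : ∀ m, m ≤ M →
      ∑ t ∈ range m, (if sat t then |f (t + 1) - f t| else 0) ≤
        -|B m * g m - f m| + (1 + θ) * (B m - B 0) ∧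
      ∑ t ∈ range m, g t * (f (t + 1) - f t) ≤ B m * g m ^ 2 / 2 +
        (1 + θ) * ∑ t ∈ range m, (if sat t then |f (t + 1) - f t| else 0) := by
    intro m
    induction m with
    | zero =>
      intro _
      simp [f0, g0]
    | succ m ih =>
      intro hm
      have hm' : m < M := by omega
      obtain ⟨i1, i2⟩ := ih (by omega)
      rw [sum_range_succ, sum_range_succ (fun t => g t * (f (t + 1) - f t))]
      have e := hEd (B m) (B (m + 1)) (f m) (f (m + 1)) (g m) (g (m + 1)) θ (hB m (by omega))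
        (hBm m hm') hθ hθ1 (hf m (by omega)) (hf (m + 1) hm) (hg m (by omega)) (hg (m + 1) hm)
      by_cases hs : sat m
      · obtain ⟨e1, e2⟩ := e.1 ⟨(hsat m hm').1 hs, h1 m hm' hs⟩
        rw [if_pos hs]
        constructor
        · linarith
        · linarith
      · obtain ⟨e1, e2⟩ := e.2 (h2 m hm' hs)
        rw [if_neg hs]
        constructor
        · linarith
        · linarith
  obtain ⟨k1, k2⟩ := key M le_rfl
  have hBM := hB M le_rfl
  have hB0 := hB 0 (Nat.zero_le _)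
  have ha := abs_nonneg (B M * g M - f M)
  have s1 : ∑ t ∈ range M, (if sat t then |f (t + 1) - f t| else 0) ≤ (1 + θ) * B M := by
    have : 0 ≤ (1 + θ) * B 0 := by positivity
    linarith
  constructor
  · have : (1 + θ) * B M ≤ 2 * B M := mul_le_mul_of_nonneg_right (by linarith) hBM.le
    linarith
  · have hgM : g M ^ 2 ≤ (1 + θ) ^ 2 := by
      rw [← sq_abs (g M)]
      exact pow_le_pow_left₀ (abs_nonneg _) (hg M le_rfl) 2
    have hq : (1 + θ) ^ 2 ≤ 2 := by nlinarith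
    have t1 : B M * g M ^ 2 ≤ B M * 2 := mul_le_mul_of_nonneg_left (hgM.trans hq) hBM.le
    have t2 : (1 + θ) * ∑ t ∈ range M, (if sat t then |f (t + 1) - f t| else 0) ≤
        (1 + θ) * ((1 + θ) * B M) := mul_le_mul_of_nonneg_left s1 (by linarith)
    have t3 : (1 + θ) * ((1 + θ) * B M) ≤ 2 * B M := by
      have := mul_le_mul_of_nonneg_right hq hBM.le
      nlinarith
    linarith

end SpM

theorem spP : S_Bb → S_In → S_Py → S_Ed → S_Sp := by
  classical
  intro hBb hIn hPy hEd N c D b ε L M σ v s R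
  obtain ⟨I, A, Mo⟩ := hIn.2 N c D b ε L M σ v s R
  obtain ⟨bF, -, -⟩ := hBb N b L R.hb
  have hθ : 0 ≤ ε / b := div_nonneg R.hε.le R.hb.le
  have hθ1 : ε / b ≤ 1 / 512 := by
    rw [div_le_iff₀ R.hb]
    have := R.hε1
    linarith
  have main : ∀ k ∈ Icc 1 N,
      ∑ t ∈ range M, (if Sat (σ t) (σ (t + 1)) k then |(σ (t + 1)).f k - (σ t).f k| else 0) ≤
        2 * BB N b L (σ M).F k ∧
      ∑ t ∈ range M, sl (σ t) k * ((σ (t + 1)).f k - (σ t).f k) ≤ 3 * BB N b L (σ M).F k := by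
    intro k hk
    rw [mem_Icc] at hk
    refine SpM.edge hEd M (fun t => BB N b L (σ t).F k) (fun t => (σ t).f k) (fun t => sl (σ t) k)
      (fun t => Sat (σ t) (σ (t + 1)) k) (ε / b) hθ hθ1 ?_ ?_ ?_ ?_ ?_ ?_ ?_ ?_ ?_
    · intro t ht
      exact lt_of_lt_of_le R.hb (((I t ht).Fb k).trans (bF _ k))
    · intro t ht
      exact (Mo t (t + 1) (by omega) (by omega) k).2.2.2.1
    · intro t ht
      exact ((I t ht).fF k).trans (bF _ k)
    · intro t ht
      exact (I t ht).sl k hk.1 hk.2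
    · simp only [R.ini, ini]
    · simp only [R.ini, ini, sl, sub_self]
    · intro t ht
      exact Iff.rfl
    · intro t ht hs
      exact (A t ht).sat k hk.1 hk.2 hs
    · intro t ht hs
      exact (A t ht).uns k hk.1 hk.2 hs
  constructor
  · have e : ∑ t ∈ range M, YY N (σ t) (σ (t + 1)) = ∑ k ∈ Icc 1 N, ∑ t ∈ range M,
        (if Sat (σ t) (σ (t + 1)) k then |(σ (t + 1)).f k - (σ t).f k| else 0) := by
      rw [sum_comm]
      apply sum_congr rfl
      intro t _
      unfold YY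
      apply sum_congr rfl
      intro k _
      by_cases hs : Sat (σ t) (σ (t + 1)) k
      · simp only [if_pos hs]
      · simp only [if_neg hs]
    rw [e, mul_sum]
    exact sum_le_sum fun k hk => (main k hk).1
  · have e : ∑ t ∈ range M, s t * (σ t).p (v t) = ∑ k ∈ Icc 1 N, ∑ t ∈ range M,
        sl (σ t) k * ((σ (t + 1)).f k - (σ t).f k) := by
      rw [sum_comm]
      apply sum_congr rfl
      intro t ht
      rw [mem_range] at ht
      exact hPy N c D b ε L (σ t) (v t) (s t) (σ (t + 1)) (R.hv t ht) (I t (by omega)) (A t ht)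
    rw [e, mul_sum]
    exact sum_le_sum fun k hk => (main k hk).2

end Pool.Agent.MP_a4c1f4_lc.SQ
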