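import Pool.Agent.Lib.MP_a4c1f4_lc.SQ.Spec

set_option autoImplicit false
set_option linter.all false

/-!
SQ, Tt: the dense neighbourhood of a set of edges.
-/

namespace Pool.Agent.MP_a4c1f4_lc.SQ

open Finset

namespace TtM

theorem mem_TT {N : ℕ} {X : Finset ℕ} {k : ℕ} : k ∈ TT N X ↔ (1 ≤ k ∧ k ≤ N) ∧
    ((∃ i, 1 ≤ i ∧ i ≤ k ∧ k + 1 - i ≤ 4 * (X ∩ Icc i k).card) ∨
    (∃ j, k ≤ j ∧ j ≤ N ∧ j + 1 - k ≤ 4 * (X ∩ Icc k j).card)) := by
  classical
  unfold TT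
  rw [Finset.mem_filter, Finset.mem_Icc]

theorem TT_mono (N : ℕ) {X Y : Finset ℕ} (h : X ⊆ Y) : TT N X ⊆ TT N Y := by
  intro k hk
  rw [mem_TT] at hk ⊢
  refine ⟨hk.1, ?_⟩
  rcases hk.2 with ⟨i, hi0, hi, h1⟩ | ⟨j, hj, hjE, h1⟩
  · left
    refine ⟨i, hi0, hi, h1.trans ?_⟩
    have := Finset.card_le_card (Finset.inter_subset_inter_right (u := Finset.Icc i k) h)
    omega
  · right
    refine ⟨j, hj, hjE, h1.trans ?_⟩
    have := Finset.card_le_card (Finset.inter_subset_inter_right (u := Finset.Icc k j) h)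
    omega

theorem TT_sub (N : ℕ) (X : Finset ℕ) : TT N X ⊆ Icc 1 N := by
  intro k hk
  rw [mem_TT] at hk
  exact Finset.mem_Icc.2 hk.1

theorem TT_empty (N : ℕ) : TT N ∅ = ∅ := by
  rw [Finset.eq_empty_iff_forall_notMem]
  intro k hk
  rw [mem_TT] at hk
  rcases hk.2 with ⟨i, hi0, hi, h1⟩ | ⟨j, hj, hjE, h1⟩
  · rw [Finset.empty_inter, Finset.card_empty] at h1
    omega
  · rw [Finset.empty_inter, Finset.card_empty] at h1
    omega

theorem sum_ind (X I : Finset ℕ) [DecidablePred (· ∈ X)] :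
    ∑ j ∈ I, (if j ∈ X then (4 : ℝ) else 0) = 4 * ((X ∩ I).card : ℝ) := by
  classical
  rw [← Finset.sum_filter, Finset.sum_const, nsmul_eq_mul, mul_comm]
  congr 2
  rw [Finset.inter_comm, Finset.filter_mem_eq_inter]

theorem card_TT (hC : S_Cov) (N : ℕ) (X : Finset ℕ) : (TT N X).card ≤ 8 * X.card := by
  classical
  set w : ℕ → ℝ := fun j => if j ∈ X then (4 : ℝ) else 0 with hw
  have hw0 : ∀ j, 0 ≤ w j := by
    intro j
    simp only [hw]
    split_ifs <;> norm_num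
  set PL := (Icc 1 N).filter
    (fun k => ∃ i, 1 ≤ i ∧ i ≤ k ∧ k + 1 - i ≤ 4 * (X ∩ Icc i k).card) with hPL
  set PR := (Icc 1 N).filter
    (fun k => ∃ j, k ≤ j ∧ j ≤ N ∧ j + 1 - k ≤ 4 * (X ∩ Icc k j).card) with hPR
  have hT : TT N X ⊆ PL ∪ PR := by
    intro k hk
    rw [mem_TT] at hk
    rw [Finset.mem_union, Finset.mem_filter, Finset.mem_filter, Finset.mem_Icc]
    rcases hk.2 with h | h
    · exact Or.inl ⟨hk.1, h⟩
    · exact Or.inr ⟨hk.1, h⟩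
  have hE : ∑ j ∈ Icc 1 N, w j ≤ 4 * (X.card : ℝ) := by
    rw [hw, sum_ind]
    have := Finset.card_le_card (Finset.inter_subset_left (s₁ := X) (s₂ := Icc 1 N))
    have : ((X ∩ Icc 1 N).card : ℝ) ≤ X.card := by exact_mod_cast this
    linarith
  have hL : (PL.card : ℝ) ≤ ∑ j ∈ Icc 1 N, w j := by
    refine (hC N PL w hw0 (Finset.filter_subset _ _)).1 ?_
    intro k hk
    obtain ⟨i, h1, h2, h3⟩ := (Finset.mem_filter.1 hk).2
    refine ⟨i, h1, h2, ?_⟩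
    rw [hw, sum_ind]
    exact_mod_cast h3
  have hR : (PR.card : ℝ) ≤ ∑ j ∈ Icc 1 N, w j := by
    refine (hC N PR w hw0 (Finset.filter_subset _ _)).2 ?_
    intro k hk
    obtain ⟨i, h1, h2, h3⟩ := (Finset.mem_filter.1 hk).2
    refine ⟨i, h1, h2, ?_⟩
    rw [hw, sum_ind]
    exact_mod_cast h3
  have h1 : ((TT N X).card : ℝ) ≤ PL.card + PR.card := by
    exact_mod_cast (Finset.card_le_card hT).trans (Finset.card_union_le _ _)
  have h2 : ((TT N X).card : ℝ) ≤ 8 * X.card := by linarith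
  exact_mod_cast h2

end TtM

theorem ttP : S_Cov → S_Tt := by
  intro hC
  exact ⟨TtM.card_TT hC, fun N X X' h => TtM.TT_mono N h, TtM.TT_empty⟩

end Pool.Agent.MP_a4c1f4_lc.SQ
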