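import Pool.Agent.Lib.MP_a4c1f4_lc.SQ.Spec

set_option autoImplicit false
set_option linter.all false

/-!
SQ, Xx: the level sets of the regularized capacity.
-/

namespace Pool.Agent.MP_a4c1f4_lc.SQ

open Finset

namespace XxM

theorem mem_TT {N : ℕ} {X : Finset ℕ} {k : ℕ} : k ∈ TT N X ↔ (1 ≤ k ∧ k ≤ N) ∧
    ((∃ i, 1 ≤ i ∧ i ≤ k ∧ k + 1 - i ≤ 4 * (X ∩ Icc i k).card) ∨
    (∃ j, k ≤ j ∧ j ≤ N ∧ j + 1 - k ≤ 4 * (X ∩ Icc k j).card)) := by
  classical
  unfold TT
  rw [Finset.mem_filter, Finset.mem_Icc]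

theorem TT_sub (N : ℕ) (X : Finset ℕ) : TT N X ⊆ Icc 1 N := by
  intro k hk
  rw [mem_TT] at hk
  exact Finset.mem_Icc.2 hk.1

theorem XX_of_le {N : ℕ} {b : ℝ} {L : ℕ} {F : ℕ → ℝ} {i : ℕ} (h : L ≤ i) :
    XX N b L F i = ∅ := by
  rw [XX, if_pos h]

theorem mem_XX {N : ℕ} {b : ℝ} {L : ℕ} {F : ℕ → ℝ} {i k : ℕ} (h : i < L) :
    k ∈ XX N b L F i ↔ ((1 ≤ k ∧ k ≤ N) ∧ b * 64 ^ i ≤ F k) ∨
      k ∈ TT N (XX N b L F (i + 3)) := by
  rw [XX, if_neg (not_le.2 h), Finset.mem_union, Finset.mem_filter, Finset.mem_Icc]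

theorem XX_sub (N : ℕ) (b : ℝ) (L : ℕ) (F : ℕ → ℝ) (i : ℕ) : XX N b L F i ⊆ Icc 1 N := by
  rcases Nat.lt_or_ge i L with h | h
  · intro k hk
    rw [mem_XX h] at hk
    rcases hk with hk | hk
    · exact Finset.mem_Icc.2 hk.1
    · exact TT_sub _ _ hk
  · rw [XX_of_le h]; exact Finset.empty_subset _

theorem pw_mono {b : ℝ} (hb : 0 < b) {i j : ℕ} (h : i ≤ j) : b * 64 ^ i ≤ b * 64 ^ j :=
  mul_le_mul_of_nonneg_left (pow_le_pow_right₀ (by norm_num) h) hb.le

theorem XX_succ_sub (hT : S_Tt) {N : ℕ} {b : ℝ} (hb : 0 < b) (L : ℕ) (F : ℕ → ℝ) :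
    ∀ (n i : ℕ), L ≤ i + n → XX N b L F (i + 1) ⊆ XX N b L F i := by
  intro n
  induction n using Nat.strong_induction_on with
  | _ n ih =>
    intro i hi
    rcases Nat.lt_or_ge (i + 1) L with h | h
    · intro k hk
      rw [mem_XX h] at hk
      rw [mem_XX (by omega : i < L)]
      rcases hk with hk | hk
      · exact Or.inl ⟨hk.1, (pw_mono hb (by omega)).trans hk.2⟩
      · right
        refine hT.2.1 N _ _ ?_ hk
        rw [show i + 1 + 3 = (i + 3) + 1 by omega]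
        rcases Nat.lt_or_ge n 3 with h3 | h3
        · rw [XX_of_le (by omega)]; exact Finset.empty_subset _
        · exact ih (n - 3) (by omega) (i + 3) (by omega)
    · rw [XX_of_le h]; exact Finset.empty_subset _

theorem XX_anti (hT : S_Tt) {N : ℕ} {b : ℝ} (hb : 0 < b) (L : ℕ) (F : ℕ → ℝ) {i j : ℕ}
    (h : i ≤ j) : XX N b L F j ⊆ XX N b L F i := by
  induction j, h using Nat.le_induction with
  | base => exact Finset.Subset.refl _
  | succ j hj ih => exact (XX_succ_sub hT hb L F L j (by omega)).trans ih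

theorem XX_mono (hT : S_Tt) {N : ℕ} {b : ℝ} (L : ℕ) {F F' : ℕ → ℝ} (hF : ∀ k, F k ≤ F' k) :
    ∀ (n i : ℕ), L ≤ i + n → XX N b L F i ⊆ XX N b L F' i := by
  intro n
  induction n using Nat.strong_induction_on with
  | _ n ih =>
    intro i hi
    rcases Nat.lt_or_ge i L with h | h
    · intro k hk
      rw [mem_XX h] at hk ⊢
      rcases hk with hk | hk
      · exact Or.inl ⟨hk.1, hk.2.trans (hF k)⟩
      · right
        refine hT.2.1 N _ _ ?_ hk
        rcases Nat.lt_or_ge n 3 with h3 | h3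
        · rw [XX_of_le (by omega)]; exact Finset.empty_subset _
        · exact ih (n - 3) (by omega) (i + 3) (by omega)
    · rw [XX_of_le h]; exact Finset.empty_subset _

end XxM

theorem xxP : S_Tt → S_Xx := by
  classical
  intro hT N b L hb
  refine ⟨XxM.XX_sub N b L, fun F i h => XxM.XX_of_le h,
    fun F F' h i => XxM.XX_mono hT L h L i (by omega),
    fun F i j h => XxM.XX_anti hT hb L F h, ?_⟩
  intro F i
  have h1 : XX N b L F i ⊆ (Icc 1 N).filter (fun k => b * 64 ^ i ≤ F k) ∪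
      TT N (XX N b L F (i + 3)) := by
    rcases Nat.lt_or_ge i L with h | h
    · intro k hk
      rw [XxM.mem_XX h] at hk
      rw [Finset.mem_union, Finset.mem_filter, Finset.mem_Icc]
      exact hk
    · rw [XxM.XX_of_le h]; exact Finset.empty_subset _
  convert (Finset.card_le_card h1).trans (Finset.card_union_le _ _)

end Pool.Agent.MP_a4c1f4_lc.SQ
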