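import Pool.Agent.Lib.MP_a4c1f4_lc.SQ.Cov
import Pool.Agent.Lib.MP_a4c1f4_lc.SQ.Tt
import Pool.Agent.Lib.MP_a4c1f4_lc.SQ.Xx
import Pool.Agent.Lib.MP_a4c1f4_lc.SQ.Bb
import Pool.Agent.Lib.MP_a4c1f4_lc.SQ.Ab
import Pool.Agent.Lib.MP_a4c1f4_lc.SQ.In
import Pool.Agent.Lib.MP_a4c1f4_lc.SQ.Py
import Pool.Agent.Lib.MP_a4c1f4_lc.SQ.Ed
import Pool.Agent.Lib.MP_a4c1f4_lc.SQ.Sp
import Pool.Agent.Lib.MP_a4c1f4_lc.SQ.Qs
import Pool.Agent.Lib.MP_a4c1f4_lc.SQ.Sy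
import Pool.Agent.Lib.MP_a4c1f4_lc.SQ.Ls
import Pool.Agent.Lib.MP_a4c1f4_lc.SQ.Bt
import Pool.Agent.Lib.MP_a4c1f4_lc.SQ.Ca
import Pool.Agent.Lib.MP_a4c1f4_lc.SQ.Ra
import Pool.Agent.Lib.MP_a4c1f4_lc.SQ.Cnt
import Pool.Agent.Lib.MP_a4c1f4_lc.SQ.Lb
import Pool.Agent.Lib.MP_a4c1f4_lc.SQ.Mn
import Pool.Agent.Lib.MP_a4c1f4_lc.SQ.Mc
import Pool.Agent.Lib.MP_a4c1f4_lc.SQ.On
import Pool.Agent.Lib.MP_a4c1f4_lc.SQ.Ex
import Pool.Agent.Lib.MP_a4c1f4_lc.SQ.Co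

set_option linter.all false

/-!
Online matching on the line, ratio `O(sqrt (log n))`: the core, assembled.
-/

namespace Pool.Agent.MP_a4c1f4_lc.SQ

theorem coreP : SO.Core := by
  have hTt := ttP covP
  have hXx := xxP hTt
  have hBb := bbP hTt hXx
  have hAb := abP hBb
  have hIn := inP hTt hXx hBb hAb
  have hSp := spP hBb hIn pyP edP
  have hSy := syP hBb hIn qsP
  have hLs := lsP hIn hSy
  have hBt := btP covP hTt hXx hBb hIn hLs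
  have hCa := caP hBb
  have hRa := raP hBb hCa
  have hMn := mnP hBb hIn hSp hBt hCa hRa lbP cntP
  exact coP hAb hIn hMn mcP (exP hAb hIn (onP hBb))

end Pool.Agent.MP_a4c1f4_lc.SQ
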