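import Pool.Agent.Lib.MP_a4c1f4_lc.SQ.Spec

set_option autoImplicit false
set_option linter.all false

/-!
SQ, Cov: covering with one sided intervals.
-/

namespace Pool.Agent.MP_a4c1f4_lc.SQ

open Finset

namespace CovM

/-- Greedy cover by intervals to the left. -/
theorem greedy_left (w : ℕ → ℝ) (hw : ∀ j, 0 ≤ w j) (lo : ℕ → ℕ) :
    ∀ (E : ℕ) (P : Finset ℕ), (∀ k ∈ P, k ≤ E) → (∀ k ∈ P, 1 ≤ lo k ∧ lo k ≤ k) →
    (∀ k ∈ P, ((k + 1 - lo k : ℕ) : ℝ) ≤ ∑ j ∈ Finset.Icc (lo k) k, w j) →
    (P.card : ℝ) ≤ ∑ j ∈ Finset.Icc 1 E, w j := by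
  intro E
  induction E using Nat.strong_induction_on with
  | _ E ih =>
    intro P hP hlo h
    rcases P.eq_empty_or_nonempty with rfl | hne
    · simpa using Finset.sum_nonneg (fun j _ => hw j)
    · obtain ⟨k, hk, hmax⟩ := P.exists_max_image id hne
      simp only [id] at hmax
      have hkE := hP k hk
      have hlk := hlo k hk
      have h1 := ih (lo k - 1) (by omega) (P.filter (fun j => j < lo k))
        (by intro j hj; have := (Finset.mem_filter.1 hj).2; omega)
        (by intro j hj; exact hlo j (Finset.mem_filter.1 hj).1)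
        (by intro j hj; exact h j (Finset.mem_filter.1 hj).1)
      have h2 := h k hk
      have h3 : P.card ≤ (P.filter (fun j => j < lo k)).card + (Finset.Icc (lo k) k).card := by
        have : P ⊆ P.filter (fun j => j < lo k) ∪ Finset.Icc (lo k) k := by
          intro j hj
          rw [Finset.mem_union, Finset.mem_filter, Finset.mem_Icc]
          by_cases hc : j < lo k
          · exact Or.inl ⟨hj, hc⟩
          · exact Or.inr ⟨by omega, hmax j hj⟩
        exact (Finset.card_le_card this).trans (Finset.card_union_le _ _)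
      rw [Nat.card_Icc] at h3
      have h3' : (P.card : ℝ) ≤ ((P.filter (fun j => j < lo k)).card : ℝ)
          + ((k + 1 - lo k : ℕ) : ℝ) := by exact_mod_cast h3
      have h4 : ∑ j ∈ Finset.Icc 1 (lo k - 1), w j + ∑ j ∈ Finset.Icc (lo k) k, w j
          ≤ ∑ j ∈ Finset.Icc 1 E, w j := by
        rw [← Finset.sum_union]
        · refine Finset.sum_le_sum_of_subset_of_nonneg ?_ (fun j _ _ => hw j)
          intro j hj
          rw [Finset.mem_union, Finset.mem_Icc, Finset.mem_Icc] at hj
          rw [Finset.mem_Icc]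
          omega
        · rw [Finset.disjoint_left]
          intro j hj hj'
          rw [Finset.mem_Icc] at hj
          rw [Finset.mem_Icc] at hj'
          omega
      linarith

/-- Greedy cover by intervals to the right. -/
theorem greedy_right (w : ℕ → ℝ) (hw : ∀ j, 0 ≤ w j) (hi : ℕ → ℕ) (N : ℕ) :
    ∀ (n a : ℕ), N < a + n → ∀ (P : Finset ℕ), (∀ k ∈ P, a ≤ k) → (∀ k ∈ P, k ≤ hi k ∧ hi k ≤ N) →
    (∀ k ∈ P, ((hi k + 1 - k : ℕ) : ℝ) ≤ ∑ j ∈ Finset.Icc k (hi k), w j) →
    (P.card : ℝ) ≤ ∑ j ∈ Finset.Icc a N, w j := by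
  intro n
  induction n using Nat.strong_induction_on with
  | _ n ih =>
    intro a ha P hP hhi h
    rcases P.eq_empty_or_nonempty with rfl | hne
    · simpa using Finset.sum_nonneg (fun j _ => hw j)
    · obtain ⟨k, hk, hmin⟩ := P.exists_min_image id hne
      simp only [id] at hmin
      have hka := hP k hk
      have hkk := hhi k hk
      have h1 := ih (n - 1) (by omega) (hi k + 1) (by omega)
        (P.filter (fun j => hi k < j))
        (by intro j hj; have := (Finset.mem_filter.1 hj).2; omega)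
        (by intro j hj; exact hhi j (Finset.mem_filter.1 hj).1)
        (by intro j hj; exact h j (Finset.mem_filter.1 hj).1)
      have h2 := h k hk
      have h3 : P.card ≤ (P.filter (fun j => hi k < j)).card + (Finset.Icc k (hi k)).card := by
        have : P ⊆ P.filter (fun j => hi k < j) ∪ Finset.Icc k (hi k) := by
          intro j hj
          rw [Finset.mem_union, Finset.mem_filter, Finset.mem_Icc]
          by_cases hc : hi k < j
          · exact Or.inl ⟨hj, hc⟩
          · exact Or.inr ⟨hmin j hj, by omega⟩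
        exact (Finset.card_le_card this).trans (Finset.card_union_le _ _)
      rw [Nat.card_Icc] at h3
      have h3' : (P.card : ℝ) ≤ ((P.filter (fun j => hi k < j)).card : ℝ)
          + ((hi k + 1 - k : ℕ) : ℝ) := by exact_mod_cast h3
      have h4 : ∑ j ∈ Finset.Icc k (hi k), w j + ∑ j ∈ Finset.Icc (hi k + 1) N, w j
          ≤ ∑ j ∈ Finset.Icc a N, w j := by
        rw [← Finset.sum_union]
        · refine Finset.sum_le_sum_of_subset_of_nonneg ?_ (fun j _ _ => hw j)
          intro j hj
          rw [Finset.mem_union, Finset.mem_Icc, Finset.mem_Icc] at hj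
          rw [Finset.mem_Icc]
          omega
        · rw [Finset.disjoint_left]
          intro j hj hj'
          rw [Finset.mem_Icc] at hj
          rw [Finset.mem_Icc] at hj'
          omega
      linarith

end CovM

theorem covP : S_Cov := by
  classical
  intro N Y ω hω hY
  constructor
  · intro h
    have hex : ∀ k, ∃ i, k ∈ Y → 1 ≤ i ∧ i ≤ k ∧ ((k + 1 - i : ℕ) : ℝ) ≤ ∑ m ∈ Icc i k, ω m := by
      intro k
      by_cases hk : k ∈ Y
      · obtain ⟨i, hi⟩ := h k hk
        exact ⟨i, fun _ => hi⟩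
      · exact ⟨0, fun h => absurd h hk⟩
    choose lo hlo using hex
    exact CovM.greedy_left ω hω lo N Y (fun k hk => (Finset.mem_Icc.1 (hY hk)).2)
      (fun k hk => ⟨(hlo k hk).1, (hlo k hk).2.1⟩) (fun k hk => (hlo k hk).2.2)
  · intro h
    have hex : ∀ k, ∃ j, k ∈ Y → k ≤ j ∧ j ≤ N ∧ ((j + 1 - k : ℕ) : ℝ) ≤ ∑ m ∈ Icc k j, ω m := by
      intro k
      by_cases hk : k ∈ Y
      · obtain ⟨i, hi⟩ := h k hk
        exact ⟨i, fun _ => hi⟩
      · exact ⟨0, fun h => absurd h hk⟩
    choose hi hhi using hex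
    exact CovM.greedy_right ω hω hi N N 1 (by omega) Y (fun k hk => (Finset.mem_Icc.1 (hY hk)).1)
      (fun k hk => ⟨(hhi k hk).1, (hhi k hk).2.1⟩) (fun k hk => (hhi k hk).2.2)

end Pool.Agent.MP_a4c1f4_lc.SQ
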