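import Mathlib
import Pool.Agent.Lib.MP_a4c1f4_lc.SO.Defs

set_option autoImplicit false
set_option linter.all false

/-!
Online matching on the line, ratio `O(sqrt (log n))`: definitions of the core (note 5105).
Nodes `0, …, N`, edges `1, …, N`, the edge `k` joins the nodes `k - 1` and `k`. `f k` is the flow over
the edge `k` to the right, `f 0 = f (N + 1) = 0`, `f (x + 1) = f x + r x - (used mass of x)`.
`D` bounds all distances.
-/

namespace Pool.Agent.MP_a4c1f4_lc.SQ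

open Finset

/-- The state: released mass, flow, price, record of the flow. -/
structure St where
  r : ℕ → ℝ
  f : ℕ → ℝ
  p : ℕ → ℝ
  F : ℕ → ℝ

/-- The used mass of the node `x`. -/
noncomputable def us (σ : St) (x : ℕ) : ℝ := σ.r x + σ.f x - σ.f (x + 1)

/-- The slope of the price on the edge `k ≥ 1`. -/
noncomputable def sl (σ : St) (k : ℕ) : ℝ := σ.p (k - 1) - σ.p k

open Classical in
/-- The edges with a one sided interval in which `X` has density at least `1/4`. -/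
noncomputable def TT (N : ℕ) (X : Finset ℕ) : Finset ℕ :=
  (Icc 1 N).filter fun k => (∃ i, 1 ≤ i ∧ i ≤ k ∧ k + 1 - i ≤ 4 * (X ∩ Icc i k).card) ∨
    ∃ j, k ≤ j ∧ j ≤ N ∧ j + 1 - k ≤ 4 * (X ∩ Icc k j).card

open Classical in
/-- The level sets of the regularized capacity. -/
noncomputable def XX (N : ℕ) (b : ℝ) (L : ℕ) (F : ℕ → ℝ) (i : ℕ) : Finset ℕ :=
  if L ≤ i then ∅ else (Icc 1 N).filter (fun k => b * 64 ^ i ≤ F k) ∪ TT N (XX N b L F (i + 3))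
termination_by L - i
decreasing_by omega

open Classical in
/-- The regularized capacity. -/
noncomputable def BB (N : ℕ) (b : ℝ) (L : ℕ) (F : ℕ → ℝ) (k : ℕ) : ℝ :=
  max (F k) (b * 64 ^ (Nat.findGreatest (fun i => k ∈ TT N (XX N b L F (i + 3))) L))

open Classical in
/-- Resistance of the edge `k` for a current to the left. -/
noncomputable def uL (N : ℕ) (b : ℝ) (L : ℕ) (σ : St) (k : ℕ) : ℝ :=
  if sl σ k ≤ -1 then 0 else 1 / BB N b L σ.F k

open Classical in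
/-- Resistance of the edge `k` for a current to the right. -/
noncomputable def uR (N : ℕ) (b : ℝ) (L : ℕ) (σ : St) (k : ℕ) : ℝ :=
  if 1 ≤ sl σ k then 0 else 1 / BB N b L σ.F k

open Classical in
/-- The increase of the price (per unit of mass). -/
noncomputable def qq (N : ℕ) (b : ℝ) (L : ℕ) (σ : St) (v gl gr : ℕ) (mL mR q : ℝ) (x : ℕ) : ℝ :=
  if gl ≤ x ∧ x ≤ v then q - mL * ∑ k ∈ Ioc x v, uL N b L σ k
  else if v < x ∧ x ≤ gr then q - mR * ∑ k ∈ Ioc v x, uR N b L σ k else 0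

open Classical in
/-- A step of mass `s` from the full node `v`: the mass `s * mL` goes to `gl`, `s * mR` to `gr`. A side is
live (ends at a node with free capacity) or dead (ends at the end of the path). -/
structure Move (N : ℕ) (c : ℕ → ℝ) (D : ℕ) (b : ℝ) (L : ℕ) (σ : St) (v : ℕ) (s : ℝ) (σ' : St)
    (gl gr : ℕ) (mL mR q : ℝ) : Prop where
  hgl : gl ≤ v
  hgr : v ≤ gr
  hN : gr ≤ N
  dl : v ≤ gl + D
  dr : gr ≤ v + D
  full : ∀ x, gl < x → x < gr → us σ x = c x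
  hv : us σ v = c v
  mL0 : 0 ≤ mL
  mR0 : 0 ≤ mR
  hm : mL + mR = 1
  left : (us σ gl < c gl ∧ q = mL * ∑ k ∈ Ioc gl v, uL N b L σ k) ∨
    (gl = 0 ∧ us σ gl = c gl ∧ mL = 0)
  right : (us σ gr < c gr ∧ q = mR * ∑ k ∈ Ioc v gr, uR N b L σ k) ∨
    (gr = N ∧ us σ gr = c gr ∧ mR = 0)
  capL : us σ gl + s * mL ≤ c gl
  capR : us σ gr + s * mR ≤ c gr
  hr : ∀ x, σ'.r x = σ.r x + if x = v then s else 0
  hf : ∀ k, σ'.f k = σ.f k + if gl < k ∧ k ≤ v then -(s * mL) else if v < k ∧ k ≤ gr then s * mR else 0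
  hp : ∀ x, σ'.p x = σ.p x + s * qq N b L σ v gl gr mL mR q x
  hF : ∀ k, σ'.F k = max (σ.F k) |σ'.f k|

/-- A step served at its own node. -/
structure Self (c : ℕ → ℝ) (σ : St) (v : ℕ) (s : ℝ) (σ' : St) : Prop where
  cap : us σ v + s ≤ c v
  hr : ∀ x, σ'.r x = σ.r x + if x = v then s else 0
  hf : ∀ k, σ'.f k = σ.f k
  hp : ∀ x, σ'.p x = σ.p x
  hF : ∀ k, σ'.F k = σ.F k

/-- A step. -/
def Stp (N : ℕ) (c : ℕ → ℝ) (D : ℕ) (b : ℝ) (L : ℕ) (σ : St) (v : ℕ) (s : ℝ) (σ' : St) : Prop :=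
  Self c σ v s σ' ∨ ∃ gl gr mL mR q, Move N c D b L σ v s σ' gl gr mL mR q

/-- The initial state. -/
def ini (b : ℝ) : St := ⟨fun _ => 0, fun _ => 0, fun _ => 0, fun _ => b⟩

/-- The invariants. -/
structure Inv (N : ℕ) (c : ℕ → ℝ) (b ε : ℝ) (σ : St) : Prop where
  f0 : σ.f 0 = 0
  fN : ∀ k, N < k → σ.f k = 0
  cap : ∀ x, x ≤ N → us σ x ≤ c x
  u0 : ∀ x, x ≤ N → 0 ≤ us σ x
  r0 : ∀ x, 0 ≤ σ.r x
  p0 : ∀ x, 0 ≤ σ.p x
  pf : ∀ x, x ≤ N → us σ x < c x → σ.p x = 0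
  sl : ∀ k, 1 ≤ k → k ≤ N → |SQ.sl σ k| ≤ 1 + ε / b
  Fb : ∀ k, b ≤ σ.F k
  fF : ∀ k, |σ.f k| ≤ σ.F k

/-- The edge `k` is saturated in the direction of the current of the step `σ → σ'`. -/
def Sat (σ σ' : St) (k : ℕ) : Prop :=
  (0 < σ'.f k - σ.f k ∧ 1 ≤ sl σ k) ∨ (σ'.f k - σ.f k < 0 ∧ sl σ k ≤ -1)

/-- What is used of a step in most places. -/
structure AbS (N : ℕ) (c : ℕ → ℝ) (D : ℕ) (b : ℝ) (L : ℕ) (σ : St) (v : ℕ) (s : ℝ) (σ' : St) :
    Prop where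
  hr : ∀ x, σ'.r x = σ.r x + if x = v then s else 0
  f0 : σ'.f 0 = σ.f 0
  fN : ∀ k, N < k → σ'.f k = σ.f k
  um : ∀ x, x ≤ N → us σ x ≤ us σ' x
  uc : ∀ x, x ≤ N → us σ' x ≤ c x
  ua : ∀ x, x ≤ N → us σ' x ≠ us σ x → us σ x < c x
  pm : ∀ x, σ.p x ≤ σ'.p x
  pf : ∀ x, x ≤ N → us σ x < c x → σ'.p x = σ.p x
  fs : ∀ k, |σ'.f k - σ.f k| ≤ s
  loc : ∀ k, σ'.f k ≠ σ.f k → k ≤ v + D ∧ v < k + D
  sat : ∀ k, 1 ≤ k → k ≤ N → Sat σ σ' k → sl σ' k = sl σ k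
  uns : ∀ k, 1 ≤ k → k ≤ N → ¬ Sat σ σ' k →
    sl σ' k = sl σ k + (σ'.f k - σ.f k) / BB N b L σ.F k
  hF : ∀ k, σ'.F k = max (σ.F k) |σ'.f k|

/-- A run of `M` steps of mass at most `ε`. -/
structure Rn (N : ℕ) (c : ℕ → ℝ) (D : ℕ) (b ε : ℝ) (L M : ℕ) (σ : ℕ → St) (v : ℕ → ℕ)
    (s : ℕ → ℝ) : Prop where
  hb : 0 < b
  hε : 0 < ε
  hε1 : ε ≤ b / 512
  c0 : ∀ x, 0 ≤ c x
  ini : σ 0 = SQ.ini b
  hs : ∀ t, t < M → 0 ≤ s t ∧ s t ≤ ε
  hv : ∀ t, t < M → v t ≤ N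
  step : ∀ t, t < M → Stp N c D b L (σ t) (v t) (s t) (σ (t + 1))
  top : ∀ t, t ≤ M → ∀ k, (σ t).F k < b * 64 ^ L

open Classical in
/-- The saturated current of the step `σ → σ'`. -/
noncomputable def YY (N : ℕ) (σ σ' : St) : ℝ :=
  ∑ k ∈ Icc 1 N, if Sat σ σ' k then |σ'.f k - σ.f k| else 0

/-- The movement of the step `σ → σ'`. -/
noncomputable def mo (N : ℕ) (σ σ' : St) : ℝ := ∑ k ∈ Icc 1 N, |σ'.f k - σ.f k|

/-- `S` is an offline flow for the released masses `r`. -/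
structure Off (N : ℕ) (c : ℕ → ℝ) (r S : ℕ → ℝ) : Prop where
  S0 : S 0 = 0
  SN : S (N + 1) = 0
  Sc : ∀ x, x ≤ N → r x - c x ≤ S (x + 1) - S x

open Classical in
/-- The weights of the level set argument at the level `i`, `F` = the records at the end. -/
noncomputable def om (N : ℕ) (b : ℝ) (L : ℕ) (F S : ℕ → ℝ) (i m : ℕ) : ℝ :=
  (if b * 64 ^ (i + 1) ≤ F m then 2 else 0) +
    if b * 64 ^ i / 4 < |S m| ∨ m ∈ TT N (XX N b L F (i + 3)) then 577 else 0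

open Classical in
/-- The distance of `v` to the nearest live end. -/
noncomputable def rh (c : ℕ → ℝ) (σ : St) (v gl gr : ℕ) : ℕ :=
  if us σ gl < c gl then (if us σ gr < c gr then min (v - gl) (gr - v) else v - gl) else gr - v

/-- The edges within distance `H` of the node `x`. -/
def nr (N x H : ℕ) : Finset ℕ := (Icc 1 N).filter fun k => k ≤ x + H ∧ x < k + H

/-- The length of the blocks at the scale `2 ^ i`. -/
def bl (i : ℕ) : ℕ := 2 ^ i / (9 * 2 ^ 25) + 1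

/-- The label of the node `v` at the scale `2 ^ i`: the first node of its block. -/
def lab (i v : ℕ) : ℕ := v / bl i * bl i

end Pool.Agent.MP_a4c1f4_lc.SQ
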