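import Pool.Agent.Lib.MP_a4c1f4_lc.SQ.Spec

set_option autoImplicit false
set_option linter.all false

/-!
Online matching on the line, ratio `O(sqrt (log n))`: synchronization (`S_Sy`).
-/

namespace Pool.Agent.MP_a4c1f4_lc.SQ

open Finset

namespace SyM

/-- The defect of the synchronization. -/
noncomputable def qd (σ : St) (k : ℕ) (θ : ℝ) : ℝ := max (|sl σ k - σ.f k / σ.F k| - θ) 0

/-- Iteration of the one step inequality. -/
theorem iter (F q : ℕ → ℝ) (t0 t : ℕ) (h0 : 0 < F t0) (ht : t0 ≤ t)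
    (hF : ∀ u, t0 ≤ u → u < t → F u ≤ F (u + 1))
    (hq : ∀ u, t0 ≤ u → u < t → q (u + 1) ≤ max (q u - (F (u + 1) / F u - 1)) 0)
    (hq0 : 0 ≤ q t0) :
    F t0 ≤ F t ∧ q t ≤ max (q t0 - Real.log (F t / F t0)) 0 := by
  induction t, ht using Nat.le_induction with
  | base =>
    refine ⟨le_rfl, ?_⟩
    rw [div_self h0.ne', Real.log_one, sub_zero]
    exact le_max_left _ _
  | succ t ht ih =>
    obtain ⟨h1, h2⟩ := ih (fun u hu hut => hF u hu (by omega)) (fun u hu hut => hq u hu (by omega))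
    have h3 := hF t ht (Nat.lt_succ_self t)
    have h4 := hq t ht (Nat.lt_succ_self t)
    have hFt : 0 < F t := lt_of_lt_of_le h0 h1
    have hFt1 : 0 < F (t + 1) := lt_of_lt_of_le hFt h3
    refine ⟨h1.trans h3, ?_⟩
    have h5 : Real.log (F (t + 1) / F t) ≤ F (t + 1) / F t - 1 :=
      Real.log_le_sub_one_of_pos (div_pos hFt1 hFt)
    have h6 : 0 ≤ Real.log (F (t + 1) / F t) := Real.log_nonneg ((one_le_div hFt).2 h3)
    have h7 : Real.log (F (t + 1) / F t0) = Real.log (F t / F t0) + Real.log (F (t + 1) / F t) := by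
      rw [Real.log_div hFt1.ne' h0.ne', Real.log_div hFt.ne' h0.ne', Real.log_div hFt1.ne' hFt.ne']
      ring
    refine h4.trans (max_le ?_ (le_max_right _ _))
    rw [h7]
    rcases le_max_iff.1 h2 with h8 | h8
    · refine le_trans ?_ (le_max_left _ _)
      linarith
    · refine le_trans ?_ (le_max_right _ _)
      linarith

end SyM

open SyM in
theorem syP : S_Bb → S_In → S_Qs → S_Sy := by
  intro hBb hIn hQs N c D b ε L M σ v s hR t htM k hk1 hkN i hi hFt hTT
  obtain ⟨hInv, hAb, hmon⟩ := hIn.2 N c D b ε L M σ v s hR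
  have hb := hR.hb
  have hε := hR.hε
  obtain ⟨θ, hθ⟩ : ∃ θ : ℝ, θ = ε / b := ⟨_, rfl⟩
  have hθ0 : 0 ≤ θ := by rw [hθ]; exact (div_pos hε hb).le
  have hθb : θ * b = ε := by rw [hθ]; field_simp
  obtain ⟨i', rfl⟩ : ∃ i', i = i' + 1 := ⟨i - 1, by omega⟩
  obtain ⟨μ, hμ⟩ : ∃ μ : ℝ, μ = b * 64 ^ i' := ⟨_, rfl⟩
  have hμb : b ≤ μ := by
    rw [hμ]
    have : (1 : ℝ) ≤ 64 ^ i' := one_le_pow₀ (by norm_num)
    nlinarith
  have hμ0 : 0 < μ := lt_of_lt_of_le hb hμb
  have hFt' : 16 * μ ≤ (σ t).F k := by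
    have : b * 64 ^ (i' + 1) / 4 = 16 * μ := by rw [hμ, pow_succ]; ring
    rw [← this]
    exact hFt
  have hFb : ∀ u, u ≤ M → b ≤ (σ u).F k := fun u hu => (hInv u hu).Fb k
  have hFm : ∀ u, u < t → (σ u).F k ≤ (σ (u + 1)).F k := fun u hu =>
    (hmon u (u + 1) (by omega) (by omega) k).1
  -- one step
  have hstep : ∀ u, u < t → μ ≤ (σ u).F k →
      qd (σ (u + 1)) k θ ≤ max (qd (σ u) k θ - ((σ (u + 1)).F k / (σ u).F k - 1)) 0 := by
    intro u hu hμu
    have hA := hAb u (by omega)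
    have hI := hInv u (by omega)
    have hF0 : 0 < (σ u).F k := lt_of_lt_of_le hb (hFb u (by omega))
    have hTu : k ∉ TT N (XX N b L (σ u).F (i' + 1 + 3)) := fun h =>
      hTT ((hmon u t hu.le htM k).2.2.2.2 (i' + 1 + 3) h)
    have hBB : BB N b L (σ u).F k = (σ u).F k := by
      have h1 := (hBb N b L hb).2.2 (σ u).F (fun k => hI.Fb k) (fun k => hR.top u (by omega) k)
      refine h1.2.1 k hk1 hkN (i' + 1) (by omega) hTu ?_
      rw [Nat.add_sub_cancel, ← hμ]
      exact hμu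
    refine hQs ((σ u).F k) ((σ (u + 1)).F k) ((σ u).f k) ((σ (u + 1)).f k) (sl (σ u) k)
      (sl (σ (u + 1)) k) θ hF0 (hA.hF k) (hI.fF k) hθ0 ?_ ?_ ?_ ?_
    · rw [hθ]
      exact hI.sl k hk1 hkN
    · refine (hA.fs k).trans ((hR.hs u (by omega)).2.trans ?_)
      rw [← hθb]
      exact mul_le_mul_of_nonneg_left (hFb u (by omega)) hθ0
    · intro hs
      exact hA.sat k hk1 hkN hs
    · intro hs
      have := hA.uns k hk1 hkN hs
      rw [hBB] at this
      exact this
  have hq0 : ∀ u, 0 ≤ qd (σ u) k θ := fun u => le_max_right _ _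
  have key : qd (σ t) k θ ≤ 0 := by
    classical
    have hex : ∃ u, μ ≤ (σ u).F k := ⟨t, by linarith⟩
    obtain ⟨t0, ht0⟩ : ∃ t0, t0 = Nat.find hex := ⟨_, rfl⟩
    have hP : μ ≤ (σ t0).F k := by rw [ht0]; exact Nat.find_spec hex
    have ht0t : t0 ≤ t := by rw [ht0]; exact Nat.find_min' hex (by linarith)
    have hPu : ∀ u, t0 ≤ u → u ≤ t → μ ≤ (σ u).F k := fun u h1 h2 =>
      hP.trans (hmon t0 u h1 (by omega) k).1
    obtain ⟨h1, h2⟩ := iter (fun u => (σ u).F k) (fun u => qd (σ u) k θ) t0 t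
      (lt_of_lt_of_le hμ0 hP) ht0t (fun u _ hu => hFm u hu)
      (fun u h1 hu => hstep u hu (hPu u h1 hu.le)) (hq0 t0)
    have hF0 : 0 < (σ t0).F k := lt_of_lt_of_le hμ0 hP
    rcases Nat.eq_zero_or_pos t0 with h0 | h0
    · have hz : qd (σ t0) k θ = 0 := by
        rw [h0, hR.ini]
        unfold qd sl ini
        simp [hθ0]
      have hl : 0 ≤ Real.log ((σ t).F k / (σ t0).F k) := Real.log_nonneg ((one_le_div hF0).2 h1)
      rw [hz] at h2
      refine h2.trans (max_le ?_ le_rfl)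
      linarith
    · obtain ⟨u0, hu0⟩ : ∃ u0, t0 = u0 + 1 := ⟨t0 - 1, by omega⟩
      have hn : ¬ μ ≤ (σ u0).F k := by
        apply Nat.find_min hex
        omega
      push Not at hn
      have hA := hAb u0 (by omega)
      have hI0 := hInv u0 (by omega)
      have hI := hInv t0 (by omega)
      have hFle : (σ t0).F k ≤ 2 * μ := by
        rw [hu0, hA.hF k]
        refine max_le (by linarith) ?_
        have e1 : |(σ (u0 + 1)).f k| ≤ |(σ (u0 + 1)).f k - (σ u0).f k| + |(σ u0).f k| := by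
          have := abs_add_le ((σ (u0 + 1)).f k - (σ u0).f k) ((σ u0).f k)
          rwa [sub_add_cancel] at this
        have e2 := hA.fs k
        have e3 := (hR.hs u0 (by omega)).2
        have e4 := hI0.fF k
        have e5 := hR.hε1
        linarith
      have hq2 : qd (σ t0) k θ ≤ 2 := by
        unfold qd
        refine max_le ?_ (by norm_num)
        have e1 := hI.sl k hk1 hkN
        rw [← hθ] at e1
        have e2 : |(σ t0).f k / (σ t0).F k| ≤ 1 := by
          rw [abs_div, abs_of_pos hF0]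
          exact (div_le_one hF0).2 (hI.fF k)
        have e3 := abs_sub (sl (σ t0) k) ((σ t0).f k / (σ t0).F k)
        linarith
      have hlog : 2 ≤ Real.log ((σ t).F k / (σ t0).F k) := by
        have e1 : (8 : ℝ) ≤ (σ t).F k / (σ t0).F k := by
          rw [le_div_iff₀ hF0]
          linarith
        have e2 : Real.log 8 ≤ Real.log ((σ t).F k / (σ t0).F k) := Real.log_le_log (by norm_num) e1
        have e3 : Real.log 8 = 3 * Real.log 2 := by
          rw [show (8 : ℝ) = 2 ^ 3 by norm_num, Real.log_pow]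
          norm_num
        have e4 := Real.log_two_gt_d9
        linarith
      refine h2.trans (max_le ?_ le_rfl)
      linarith
  have := (le_max_left _ _).trans key
  rw [← hθ]
  linarith

end Pool.Agent.MP_a4c1f4_lc.SQ
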